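import Mathlib
import Pool.Agent.H302R3.Integral
import Pool.Agent.H302R5.Weak2
import Pool.Agent.H302R5.Push
import Pool.Agent.Q7.TZ.Gen

/-!
# Functions with nonnegative multiplicities on solvable subgroups: quotients
-/

set_option autoImplicit false
set_option linter.unusedSectionVars false

namespace Pool.Agent.Q7.SZ

open Pool.Agent.H302R2 Pool.Agent.H302R3 Pool.Agent.H302R5 Pool.Agent.H541R3.ART
  Pool.Agent.W446.AS Pool.Agent.Q7.TZ

/-- Every normal subgroup has a supplement which it intersects in a solvable group. -/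
lemma exists_supplement {G : Type*} [Group G] [Finite G] (K : Subgroup G) [K.Normal] :
    ∃ W : Subgroup G, W ⊔ K = ⊤ ∧ Group.IsSolvable (K.subgroupOf W) := by
  classical
  have hfin : Finite (Subgroup G) := inferInstance
  have hne : ({W : Subgroup G | W ⊔ K = ⊤} : Set (Subgroup G)).Nonempty := ⟨⊤, top_sup_eq _⟩
  obtain ⟨W, hW⟩ := (Set.toFinite ({W : Subgroup G | W ⊔ K = ⊤} : Set (Subgroup G))).exists_minimal
    hne
  refine ⟨W, hW.1, ?_⟩
  have hle : K.subgroupOf W ≤ frattini W := by
    rw [frattini, Order.radical]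
    refine le_iInf₂ fun M hM => ?_
    by_contra hcon
    have h1 : M ⊔ K.subgroupOf W = ⊤ := by
      rcases hM.le_iff.mp (le_sup_left : M ≤ M ⊔ K.subgroupOf W) with h | h
      · exact h
      · exfalso
        apply hcon
        rw [← h]
        exact le_sup_right
    have h2 : M.map W.subtype ⊔ K = ⊤ := by
      rw [eq_top_iff, ← hW.1, sup_le_iff]
      refine ⟨?_, le_sup_right⟩
      have h3 : (⊤ : Subgroup W).map W.subtype = W := by
        rw [← MonoidHom.range_eq_map, Subgroup.range_subtype]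
      rw [← h1, Subgroup.map_sup] at h3
      refine h3.symm.le.trans (sup_le_iff.mpr ⟨le_sup_left, le_trans ?_ le_sup_right⟩)
      rintro _ ⟨x, hx, rfl⟩
      exact Subgroup.mem_subgroupOf.mp hx
    have h4 : M.map W.subtype ≤ W := by
      rintro _ ⟨x, -, rfl⟩
      exact x.2
    have h5 := hW.2 h2 h4
    apply hM.1
    rw [eq_top_iff]
    intro x _
    obtain ⟨y, hy, hyx⟩ := h5 x.2
    have : y = x := Subtype.ext hyx
    rw [← this]
    exact hy
  have h6 : Group.IsNilpotent (frattini W) := frattini_nilpotent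
  have h7 : Group.IsSolvable (frattini W) := inferInstance
  exact Group.isSolvable_of_isSolvable_injective (f := Subgroup.inclusion hle)
    (Subgroup.inclusion_injective hle)

section

variable {G : Type} [Group G] [Finite G] {θ : G → ℂ}

lemma _root_.Pool.Agent.H302R3.IsSolHeilbronn.two_eig (hθ : IsSolHeilbronn θ) (h1 : θ 1 = 2)
    (x : G) : ∃ a b : ℂ, ‖a‖ = 1 ∧ ‖b‖ = 1 ∧ dd θ x = a * b ∧ θ x = a + b ∧
      ∀ k : ℤ, θ (x ^ k) = a ^ k + b ^ k := by
  obtain ⟨a, b, h2, h3, h4, h5, h6⟩ := (hθ.zp x).two_eig (by simpa using h1)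
    ⟨x, Subgroup.mem_zpowers x⟩
  exact ⟨a, b, h2, h3, h4, h5, fun k => h6 k⟩

/-- A function which is constant on the fibres of a surjection descends. -/
theorem descend_sol {Y : Type} [Group Y] [Finite Y] {π : G →* Y} (hπ : Function.Surjective π)
    (hθ : IsSolHeilbronn θ) {τ : Y → ℂ} (hτ : ∀ g, τ (π g) = θ g) : IsSolHeilbronn τ where
  conj y c := by
    obtain ⟨g, rfl⟩ := hπ y
    obtain ⟨h, rfl⟩ := hπ c
    rw [← map_inv, ← map_mul, ← map_mul, hτ, hτ, hθ.conj]
  mult V hV χ := by
    classical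
    let ρ : V.comap π →* V :=
      { toFun := fun u => ⟨π u, u.2⟩
        map_one' := Subtype.ext (map_one π)
        map_mul' := fun a b => Subtype.ext (map_mul π _ _) }
    have hρ : Function.Surjective ρ := by
      rintro ⟨y, hy⟩
      obtain ⟨g, rfl⟩ := hπ y
      exact ⟨⟨g, hy⟩, rfl⟩
    obtain ⟨W, hW, hN⟩ := exists_supplement ρ.ker
    let f : W →* V := ρ.comp W.subtype
    have hf : Function.Surjective f := by
      intro v
      obtain ⟨u, rfl⟩ := hρ v
      have hu : u ∈ W ⊔ ρ.ker := by rw [hW]; exact Subgroup.mem_top u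
      obtain ⟨w, hw, k, hk, rfl⟩ := Subgroup.mem_sup_of_normal_right.mp hu
      refine ⟨⟨w, hw⟩, ?_⟩
      change ρ w = ρ (w * k)
      rw [map_mul, MonoidHom.mem_ker.mp hk, mul_one]
    have hker : f.ker = ρ.ker.subgroupOf W := by
      ext w
      rfl
    have hsol : Group.IsSolvable W := by
      refine Group.isSolvable_of_ker_le_range (ρ.ker.subgroupOf W).subtype f ?_
      rw [hker, Subgroup.range_subtype]
    have : Fintype W := Fintype.ofFinite _
    have : Fintype V := Fintype.ofFinite _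
    obtain ⟨n, hn⟩ := hθ.mult_hom hsol ((V.comap π).subtype.comp W.subtype) (χ.comp f)
    refine ⟨n, ?_⟩
    rw [finsum_eq_sum_of_fintype]
    have h1 := sum_comp_surj f hf (fun h : V => τ h * (((χ h)⁻¹ : ℂˣ) : ℂ))
    have h2 : ∑ e : W, τ (f e) * (((χ (f e))⁻¹ : ℂˣ) : ℂ) = (n : ℂ) * (Nat.card W : ℂ) := by
      rw [← hn]
      refine Finset.sum_congr rfl fun e _ => ?_
      have h3 : τ (f e) = θ (((V.comap π).subtype.comp W.subtype) e) := hτ _
      rw [h3]
      rfl
    rw [h1] at h2
    have h4 : Nat.card W = Nat.card f.ker * Nat.card V := by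
      rw [← Nat.card_congr (QuotientGroup.quotientKerEquivOfSurjective f hf).toEquiv, mul_comm]
      exact Subgroup.card_eq_card_quotient_mul_card_subgroup _
    rw [h4, Nat.cast_mul] at h2
    have h5 : (Nat.card f.ker : ℂ) ≠ 0 := by exact_mod_cast Nat.card_pos.ne'
    apply mul_left_cancel₀ h5
    rw [h2]
    ring

end

end Pool.Agent.Q7.SZ
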