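import Mathlib
import Pool.Agent.Q7.SZ.Bas

/-!
# Functions of degree two with nonnegative multiplicities on solvable subgroups
-/

set_option autoImplicit false
set_option linter.unusedSectionVars false

open Representation

namespace Pool.Agent.Q7.SZ

open Pool.Agent.H302R2 Pool.Agent.H302R3 Pool.Agent.H302R5 Pool.Agent.H541R3.ART
  Pool.Agent.W446.AS Pool.Agent.Q7.TZ MulAction

section

variable {G : Type} [Group G] [Finite G]

/-- The multiplicities of orthogonal characters are even. -/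
theorem parity_orth {θ : G → ℂ} (hθ : IsSolHeilbronn θ) (h1 : θ 1 = 2) (hd : ∀ g, dd θ g = 1)
    {χ : G → ℂ} (hχ : χ ∈ Irr G) (ho : OrthRep χ) {n : ℤ}
    (hn : ∑ᶠ g : G, θ g * χ g = n * Nat.card G) : Even n := by
  classical
  refine even_of_hyper (Φ := fun g => θ g * χ g) (fun g h => ?_) (fun g => ?_) (fun U hU => ?_) hn
  · rw [hθ.conj, Irr.conj hχ]
  · exact (hθ.isIntegral g).mul
      (isIntegral_heil (Pool.Agent.W446.AS.irr_heilbronn hχ) g)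
  · obtain ⟨V, _, _, _, σ, b, rfl, hsym, hinv, hnd, hreal⟩ := ho
    have : Fintype U := Fintype.ofFinite U
    have hs := hyp_str _ U rfl hU (fun u => θ u) (hθ.comp_sol (Hyp.solvable hU) U.subtype) h1
      (fun u => hd u)
    obtain ⟨k, hk⟩ := even_pair (σ.comp U.subtype) b hsym (fun g v w => hinv g v w) hnd
      (fun u => hreal u) hs
    refine ⟨k, ?_⟩
    rw [finsum_eq_sum_of_fintype, ← hk]
    rfl

lemma real_of_dd {θ : G → ℂ} (hθ : IsSolHeilbronn θ) (h1 : θ 1 = 2) (hd : ∀ g, dd θ g = 1) (g : G) :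
    θ g⁻¹ = θ g := by
  obtain ⟨a, b, ha, hb, hp, hs, hpow⟩ := hθ.two_eig h1 g
  have h2 := hpow (-1)
  rw [zpow_neg_one, zpow_neg_one, zpow_neg_one] at h2
  have ha0 : a ≠ 0 := by rw [← norm_ne_zero_iff, ha]; norm_num
  have hb0 : b ≠ 0 := by rw [← norm_ne_zero_iff, hb]; norm_num
  rw [hd] at hp
  rw [h2, hs]
  field_simp
  rw [← hp, one_mul, add_comm]

/-- the fundamental identity -/
lemma sum_sq (n : (G → ℂ) → ℤ) (hθ : IsSolHeilbronn (theta n : G → ℂ)) (h1 : (theta n : G → ℂ) 1 = 2)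
    (hd : ∀ g : G, dd (theta n) g = 1) (ν : (G → ℂ) → ℤ)
    (hν : ∀ χ ∈ Irr G, ∑ᶠ g : G, χ (g ^ 2) = ν χ * Nat.card G) :
    ∑ χ ∈ irrF G, (n χ ^ 2 - n χ * ν χ) = 2 := by
  classical
  have : Fintype G := Fintype.ofFinite G
  have hG : (Nat.card G : ℂ) ≠ 0 := by exact_mod_cast Nat.card_pos.ne'
  have e1 : ∑ g : G, theta n g * theta n g⁻¹ = (∑ χ ∈ irrF G, (n χ : ℂ) ^ 2) * Nat.card G := by
    have h2 : ∀ g : G, theta n g * theta n g⁻¹ = ∑ χ ∈ irrF G, (n χ : ℂ) * (theta n g * χ g⁻¹) := by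
      intro g
      conv_lhs => rw [theta.eq_1 (G := G) n g⁻¹]
      rw [Finset.mul_sum]
      refine Finset.sum_congr rfl fun χ _ => by ring
    rw [Finset.sum_congr rfl (fun g _ => h2 g), Finset.sum_comm, Finset.sum_mul]
    refine Finset.sum_congr rfl fun χ hχ => ?_
    rw [← Finset.mul_sum, theta_pair n (mem_irrF.mp hχ)]
    ring
  have e2 : ∑ g : G, theta n (g ^ 2) = (∑ χ ∈ irrF G, (n χ : ℂ) * ν χ) * Nat.card G := by
    unfold theta
    rw [Finset.sum_comm, Finset.sum_mul]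
    refine Finset.sum_congr rfl fun χ hχ => ?_
    have h3 := hν χ (mem_irrF.mp hχ)
    rw [finsum_eq_sum_of_fintype] at h3
    rw [← Finset.mul_sum, h3]
    ring
  have e3 : ∀ g : G, theta n g * theta n g⁻¹ = 2 + theta n (g ^ 2) := by
    intro g
    rw [real_of_dd hθ h1 hd, ← dd_rel hd g]
    ring
  rw [Finset.sum_congr rfl (fun g _ => e3 g), Finset.sum_add_distrib, e2, Finset.sum_const,
    Finset.card_univ, nsmul_eq_mul, ← Nat.card_eq_fintype_card] at e1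
  have e4 : (∑ χ ∈ irrF G, ((n χ : ℂ) ^ 2 - n χ * ν χ)) = 2 := by
    rw [Finset.sum_sub_distrib]
    have h5 : ((∑ χ ∈ irrF G, (n χ : ℂ) ^ 2) - (∑ χ ∈ irrF G, (n χ : ℂ) * ν χ) - 2) * Nat.card G
        = 0 := by linear_combination -e1
    have h6 := (mul_eq_zero.mp h5).resolve_right hG
    linear_combination h6
  exact_mod_cast e4

theorem pattern (n : (G → ℂ) → ℤ) (hθ : IsSolHeilbronn (theta n : G → ℂ))
    (h1 : (theta n : G → ℂ) 1 = 2) (hd : ∀ g : G, dd (theta n) g = 1) :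
    ∃ χ₀ ∈ Irr G, 0 < n χ₀ ∧
      (∀ χ ∈ Irr G, χ ≠ χ₀ → χ ≠ (fun g => χ₀ g⁻¹) → n χ = 0 ∨
        (n χ = -1 ∧ (∀ g, χ g⁻¹ = χ g) ∧ ∑ᶠ g, χ (g ^ 2) = -(Nat.card G : ℂ))) ∧
      ((n χ₀ = 2 ∧ (∀ g, χ₀ g⁻¹ = χ₀ g) ∧ ∑ᶠ g, χ₀ (g ^ 2) = (Nat.card G : ℂ)) ∨
        (n χ₀ = 1 ∧ (∀ g, χ₀ g⁻¹ = χ₀ g) ∧ ∑ᶠ g, χ₀ (g ^ 2) = -(Nat.card G : ℂ)) ∨
        (n χ₀ = 1 ∧ n (fun g => χ₀ g⁻¹) = 1 ∧ ∃ g, χ₀ g⁻¹ ≠ χ₀ g)) := by
  classical
  have hreal := real_of_dd hθ h1 hd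
  have hν' : ∀ χ : G → ℂ, ∃ ν : ℤ, χ ∈ Irr G → (∑ᶠ g, χ (g ^ 2) = ν * Nat.card G) ∧
    ((ν = 1 ∧ OrthRep χ ∧ ∀ g, χ g⁻¹ = χ g) ∨ (ν = -1 ∧ ∀ g, χ g⁻¹ = χ g) ∨
      (ν = 0 ∧ ∃ g, χ g⁻¹ ≠ χ g)) := by
    intro χ
    by_cases h : χ ∈ Irr G
    · obtain ⟨ν, hν⟩ := nu_exists h
      exact ⟨ν, fun _ => hν⟩
    · exact ⟨0, fun h' => absurd h' h⟩
  choose ν hν using hν'
  have hsum := sum_sq n hθ h1 hd ν (fun χ hχ => (hν χ hχ).1)
  set f : (G → ℂ) → ℤ := fun χ => n χ ^ 2 - n χ * ν χ with hf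
  -- parity
  have hpar : ∀ χ ∈ Irr G, ν χ = 1 → Even (n χ) := by
    intro χ hχ h
    have hν2 := (hν χ hχ).2
    rcases hν2 with ⟨-, ho, hr⟩ | ⟨h', -⟩ | ⟨h', -⟩
    · apply parity_orth hθ h1 hd hχ ho
      have : Fintype G := Fintype.ofFinite G
      rw [finsum_eq_sum_of_fintype, ← theta_pair n hχ]
      refine Finset.sum_congr rfl fun g _ => by rw [hr]
    · omega
    · omega
  have hnn : ∀ χ ∈ Irr G, 0 ≤ f χ := by
    intro χ hχ
    change 0 ≤ n χ ^ 2 - n χ * ν χ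
    rcases (hν χ hχ).2 with ⟨h, -⟩ | ⟨h, -⟩ | ⟨h, -⟩ <;> rw [h]
    · rcases le_or_gt (n χ) 0 with h2 | h2 <;> nlinarith
    · rcases le_or_gt (n χ) (-1) with h2 | h2 <;> nlinarith
    · nlinarith
  -- existence of a positive coefficient
  have hpos : ∃ χ ∈ Irr G, 0 < n χ := by
    by_contra hcon
    push Not at hcon
    have h3 : (theta n (1 : G)).re ≤ 0 := by
      unfold theta
      rw [Complex.re_sum]
      refine Finset.sum_nonpos fun χ hχ => ?_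
      obtain ⟨d, hd0, hdχ⟩ := Pool.Agent.W446.AS.irr_deg_pos (mem_irrF.mp hχ)
      rw [hdχ]
      have h4 : ((n χ : ℂ) * (d : ℂ)).re = (n χ : ℝ) * d := by
        rw [← Complex.ofReal_intCast, ← Complex.ofReal_natCast, ← Complex.ofReal_mul,
          Complex.ofReal_re]
      rw [h4]
      have h5 : (n χ : ℝ) ≤ 0 := by exact_mod_cast hcon χ (mem_irrF.mp hχ)
      have h6 : (0 : ℝ) ≤ d := Nat.cast_nonneg d
      nlinarith
    rw [h1] at h3
    norm_num at h3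
  obtain ⟨χ₀, hχ₀, hn₀⟩ := hpos
  set χ₁ : G → ℂ := fun g => χ₀ g⁻¹ with hχ₁
  have hχ₁i : χ₁ ∈ Irr G := Pool.Agent.Q7.DB.irr_inv hχ₀
  have hn₁ : n χ₁ = n χ₀ := n_conj n hreal hχ₀
  have hrest : ∀ S : Finset (G → ℂ), S ⊆ irrF G → ∑ χ ∈ S, f χ ≤ 2 := by
    intro S hS
    rw [← hsum]
    exact Finset.sum_le_sum_of_subset_of_nonneg hS (fun χ hχ _ => hnn χ (mem_irrF.mp hχ))
  have hstep : ∀ χ ∈ Irr G, f χ = 0 → n χ = 0 ∨
      (n χ = -1 ∧ (∀ g, χ g⁻¹ = χ g) ∧ ∑ᶠ g, χ (g ^ 2) = -(Nat.card G : ℂ)) := by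
    intro χ hχ h0
    change n χ ^ 2 - n χ * ν χ = 0 at h0
    have h0' : n χ * (n χ - ν χ) = 0 := by linear_combination h0
    rcases mul_eq_zero.mp h0' with h2 | h2
    · exact Or.inl h2
    · have hsumχ := (hν χ hχ).1
      rcases (hν χ hχ).2 with ⟨h, -⟩ | ⟨h, hr⟩ | ⟨h, -⟩
      · exfalso
        have h3 := hpar χ hχ h
        have h4 : n χ = 1 := by omega
        rw [h4] at h3
        exact absurd h3 (by decide)
      · right
        refine ⟨by omega, hr, ?_⟩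
        rw [hsumχ, h]
        push_cast
        ring
      · left; omega
  -- the other terms vanish once the terms of χ₀, χ₁ add up to 2
  have hothers : ∀ S : Finset (G → ℂ), S ⊆ irrF G → 2 ≤ ∑ χ ∈ S, f χ →
      ∀ χ ∈ Irr G, χ ∉ S → f χ = 0 := by
    intro S hS h2 χ hχ hχS
    have h3 := hrest (insert χ S) (by
      intro x hx
      rcases Finset.mem_insert.mp hx with h | h
      · rw [h]; exact mem_irrF.mpr hχ
      · exact hS h)
    rw [Finset.sum_insert hχS] at h3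
    have := hnn χ hχ
    omega
  rcases (hν χ₀ hχ₀).2 with ⟨h, ho, hr⟩ | ⟨h, hr⟩ | ⟨h, hr⟩
  · -- orthogonal
    have hev := hpar χ₀ hχ₀ h
    have h2 : 2 ≤ n χ₀ := by
      obtain ⟨k, hk⟩ := hev
      omega
    have h3 := hrest {χ₀} (by simpa using mem_irrF.mpr hχ₀)
    rw [Finset.sum_singleton] at h3
    change n χ₀ ^ 2 - n χ₀ * ν χ₀ ≤ 2 at h3
    rw [h] at h3
    have h4 : n χ₀ = 2 := by nlinarith
    refine ⟨χ₀, hχ₀, hn₀, ?_, Or.inl ⟨h4, hr, ?_⟩⟩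
    · intro χ hχ hne _
      apply hstep χ hχ
      refine hothers {χ₀} (by simpa using mem_irrF.mpr hχ₀) ?_ χ hχ (by simpa using hne)
      rw [Finset.sum_singleton]
      change 2 ≤ n χ₀ ^ 2 - n χ₀ * ν χ₀
      rw [h, h4]; norm_num
    · rw [(hν χ₀ hχ₀).1, h]; simp
  · -- symplectic
    have h3 := hrest {χ₀} (by simpa using mem_irrF.mpr hχ₀)
    rw [Finset.sum_singleton] at h3
    change n χ₀ ^ 2 - n χ₀ * ν χ₀ ≤ 2 at h3
    rw [h] at h3
    have h4 : n χ₀ = 1 := by nlinarith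
    refine ⟨χ₀, hχ₀, hn₀, ?_, Or.inr (Or.inl ⟨h4, hr, ?_⟩)⟩
    · intro χ hχ hne _
      apply hstep χ hχ
      refine hothers {χ₀} (by simpa using mem_irrF.mpr hχ₀) ?_ χ hχ (by simpa using hne)
      rw [Finset.sum_singleton]
      change 2 ≤ n χ₀ ^ 2 - n χ₀ * ν χ₀
      rw [h, h4]; norm_num
    · rw [(hν χ₀ hχ₀).1, h]; simp
  · -- complex
    have hne01 : χ₀ ≠ χ₁ := by
      intro he
      obtain ⟨g, hg⟩ := hr
      exact hg (congrFun he g).symm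
    have hν1 : ν χ₁ = 0 := by
      rcases (hν χ₁ hχ₁i).2 with ⟨-, -, hr'⟩ | ⟨-, hr'⟩ | ⟨h', -⟩
      · exfalso
        apply hne01
        funext g
        have := hr' g
        simp only [hχ₁, inv_inv] at this
        exact this
      · exfalso
        apply hne01
        funext g
        have := hr' g
        simp only [hχ₁, inv_inv] at this
        exact this
      · exact h'
    have hsub : ({χ₀, χ₁} : Finset (G → ℂ)) ⊆ irrF G := by
      intro x hx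
      rcases Finset.mem_insert.mp hx with h | h
      · rw [h]; exact mem_irrF.mpr hχ₀
      · rw [Finset.mem_singleton.mp h]; exact mem_irrF.mpr hχ₁i
    have h3 := hrest {χ₀, χ₁} hsub
    rw [Finset.sum_pair hne01] at h3
    change (n χ₀ ^ 2 - n χ₀ * ν χ₀) + (n χ₁ ^ 2 - n χ₁ * ν χ₁) ≤ 2 at h3
    rw [h, hν1, hn₁] at h3
    have h4 : n χ₀ = 1 := by nlinarith
    refine ⟨χ₀, hχ₀, hn₀, ?_, Or.inr (Or.inr ⟨h4, by rw [← hχ₁, hn₁, h4], hr⟩)⟩
    intro χ hχ hne hne'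
    apply hstep χ hχ
    refine hothers {χ₀, χ₁} hsub ?_ χ hχ ?_
    · rw [Finset.sum_pair hne01]
      change 2 ≤ (n χ₀ ^ 2 - n χ₀ * ν χ₀) + (n χ₁ ^ 2 - n χ₁ * ν χ₁)
      rw [h, hν1, hn₁, h4]; norm_num
    · simp only [Finset.mem_insert, Finset.mem_singleton, not_or]
      exact ⟨hne, hne'⟩

end

end Pool.Agent.Q7.SZ
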