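import Mathlib
import Pool.Agent.Q7.SZ.Pat

/-!
# Functions of degree two with nonnegative multiplicities on solvable subgroups
-/

set_option autoImplicit false
set_option linter.unusedSectionVars false

open Representation

namespace Pool.Agent.Q7.SZ

open Pool.Agent.H302R2 Pool.Agent.H302R3 Pool.Agent.H302R5 Pool.Agent.H541R3.ART
  Pool.Agent.W446.AS Pool.Agent.Q7.TZ Pool.Agent.Y788.V MulAction

section

variable {G : Type} [Group G] [Finite G]

/-- the twist by a sign on `U × ℤˣ` -/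
lemma exists_twist {U : Type} [Group U] [Finite U] {θ : U → ℂ} (hθ : IsSolHeilbronn θ) (ε : ℤˣ) :
    IsSolHeilbronn (fun e : U × ℤˣ => θ e.1 * (if ε = 1 then 1 else ((e.2 : ℤ) : ℂ))) := by
  have h1 : IsSolHeilbronn (fun e : U × ℤˣ => θ e.1) := hθ.comp (MonoidHom.fst U ℤˣ)
  rcases Int.units_eq_one_or ε with rfl | rfl
  · convert h1 using 2 with e
    simp
  · have h2 := h1.twist (signToC.comp (MonoidHom.snd U ℤˣ))
    convert h2 using 2 with e
    rw [if_neg (by decide)]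
    congr 1
    rcases Int.units_eq_one_or e.2 with h | h
    · simp [h]
    · simp [h, signToC]

/-- The product of two involutions which act by the same sign is in the kernel. -/
lemma inv_pair {U : Type} [Group U] [Finite U] {θ : U → ℂ} (hθ : IsSolHeilbronn θ) {x y : U} (hx2 : x * x = 1) (hy2 : y * y = 1)
    (hx : θ x = θ 1 ∨ θ x = -θ 1) (hy : θ y = θ x) : θ (x * y) = θ 1 := by
  rcases hx with hx | hx
  · exact hθ.mul_of_invol hx2 hy2 hx (hy.trans hx)
  · have h1 := exists_twist hθ (-1)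
    have h2 := h1.mul_of_invol (x := (x, -1)) (y := (y, -1)) (by simp [hx2]) (by simp [hy2])
      (by simp [hx]) (by simp [hy, hx])
    simpa using h2

/-- Involutions act as scalars on the constituents of a Heilbronn character of degree two and
determinant one. -/
theorem invol_scalar (n : (G → ℂ) → ℤ) (hθ : IsSolHeilbronn (theta n : G → ℂ))
    (h1 : (theta n : G → ℂ) 1 = 2) (hd : ∀ g : G, dd (theta n) g = 1) {t : G} (ht : t * t = 1) :
    ∃ ε : ℝ, (ε = 1 ∨ ε = -1) ∧ theta n t = 2 * ε ∧ ∀ χ ∈ Irr G, n χ ≠ 0 → χ t = ε * χ 1 := by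
  classical
  have : Fintype G := Fintype.ofFinite G
  have hG : (Nat.card G : ℂ) ≠ 0 := by exact_mod_cast Nat.card_pos.ne'
  obtain ⟨χ₀, hχ₀, hn₀, hoth, -⟩ := pattern n hθ h1 hd
  have htinv : t⁻¹ = t := inv_eq_of_mul_eq_one_left ht
  -- the value at t
  have hε : ∃ ε : ℝ, (ε = 1 ∨ ε = -1) ∧ theta n t = 2 * ε := by
    have h2 := dd_rel hd t
    rw [pow_two t, ht, h1] at h2
    have h3 : (theta n t - 2) * (theta n t + 2) = 0 := by linear_combination h2
    rcases mul_eq_zero.mp h3 with h | h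
    · exact ⟨1, Or.inl rfl, by push_cast; linear_combination h⟩
    · exact ⟨-1, Or.inr rfl, by push_cast; linear_combination h⟩
  obtain ⟨ε, hε1, hεt⟩ := hε
  refine ⟨ε, hε1, hεt, ?_⟩
  have hεε : ε * ε = 1 := by rcases hε1 with h | h <;> rw [h] <;> norm_num
  -- degrees and values
  have hd' : ∀ χ : G → ℂ, ∃ d : ℕ, χ ∈ Irr G → 0 < d ∧ χ 1 = d := by
    intro χ
    by_cases h : χ ∈ Irr G
    · obtain ⟨d, hd⟩ := Pool.Agent.W446.AS.irr_deg_pos h
      exact ⟨d, fun _ => hd⟩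
    · exact ⟨0, fun h' => absurd h' h⟩
  choose d hd2 using hd'
  have ha' : ∀ χ : G → ℂ, ∃ a : ℤ, χ ∈ Irr G → χ t = a := by
    intro χ
    by_cases h : χ ∈ Irr G
    · obtain ⟨a, ha⟩ := int_invol (Pool.Agent.W446.AS.irr_heilbronn h) ht
      exact ⟨a, fun _ => ha⟩
    · exact ⟨0, fun h' => absurd h' h⟩
  choose a ha using ha'
  -- the three sums
  have s1 : ∑ χ ∈ irrF G, (n χ : ℂ) * d χ = 2 := by
    rw [← h1, theta]
    refine Finset.sum_congr rfl fun χ hχ => ?_
    rw [(hd2 χ (mem_irrF.mp hχ)).2]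
  have s2 : ∑ χ ∈ irrF G, (n χ : ℂ) * a χ = 2 * ε := by
    rw [← hεt, theta]
    refine Finset.sum_congr rfl fun χ hχ => ?_
    rw [ha χ (mem_irrF.mp hχ)]
  have s3 : ∑ χ ∈ irrF G, (n χ : ℂ) * ((a χ : ℂ) ^ 2 / d χ) = 2 := by
    have e1 : ∑ x : G, theta n (t * (x * t * x⁻¹)) = 2 * Nat.card G := by
      have e2 : ∀ x : G, theta n (t * (x * t * x⁻¹)) = 2 := by
        intro x
        rw [← h1]
        apply inv_pair hθ ht
        · have : x * t * x⁻¹ * (x * t * x⁻¹) = x * (t * t) * x⁻¹ := by group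
          rw [this, ht]; group
        · rw [hεt, h1]
          rcases hε1 with h | h
          · left; rw [h]; push_cast; ring
          · right; rw [h]; push_cast; ring
        · exact hθ.conj t x
      rw [Finset.sum_congr rfl (fun x _ => e2 x), Finset.sum_const, Finset.card_univ,
        nsmul_eq_mul, ← Nat.card_eq_fintype_card]
      ring
    have e3 : ∑ x : G, theta n (t * (x * t * x⁻¹))
        = (∑ χ ∈ irrF G, (n χ : ℂ) * ((a χ : ℂ) ^ 2 / d χ)) * Nat.card G := by
      unfold theta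
      rw [Finset.sum_comm, Finset.sum_mul]
      refine Finset.sum_congr rfl fun χ hχ => ?_
      have h4 := sum_conj_mul (mem_irrF.mp hχ) t
      rw [(hd2 χ (mem_irrF.mp hχ)).2, ha χ (mem_irrF.mp hχ)] at h4
      have h5 : (d χ : ℂ) ≠ 0 := by exact_mod_cast (hd2 χ (mem_irrF.mp hχ)).1.ne'
      rw [← Finset.mul_sum, eq_div_iff h5 |>.mpr h4]
      ring
    rw [e3] at e1
    exact mul_right_cancel₀ hG e1
  -- back to the reals
  have r1 : ∑ χ ∈ irrF G, (n χ : ℝ) * d χ = 2 := by exact_mod_cast s1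
  have r2 : ∑ χ ∈ irrF G, (n χ : ℝ) * a χ = 2 * ε := by exact_mod_cast s2
  have r3 : ∑ χ ∈ irrF G, (n χ : ℝ) * ((a χ : ℝ) ^ 2 / d χ) = 2 := by exact_mod_cast s3
  have hdpos : ∀ χ ∈ irrF G, (0 : ℝ) < d χ := by
    intro χ hχ
    exact_mod_cast (hd2 χ (mem_irrF.mp hχ)).1
  have hv := variance (irrF G) (fun χ => (n χ : ℝ)) (fun χ => (d χ : ℝ))
    (fun χ => (d χ : ℝ) - ε * a χ) χ₀ hdpos ?_ r1 ?_ ?_
  · intro χ hχ hn
    have h5 := hv χ (mem_irrF.mpr hχ) (by exact_mod_cast hn)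
    rw [ha χ hχ, (hd2 χ hχ).2]
    have h6 : (a χ : ℝ) = ε * d χ := by
      have : (a χ : ℝ) = (ε * ε) * a χ := by rw [hεε, one_mul]
      rw [this]
      linear_combination -ε * h5
    exact_mod_cast h6
  · intro χ hχ hn
    have hχi := mem_irrF.mp hχ
    have hn' : 0 < n χ := by exact_mod_cast hn
    by_cases e1 : χ = χ₀
    · rw [e1]
    · by_cases e2 : χ = (fun g => χ₀ g⁻¹)
      · have h6 : χ t = χ₀ t := by rw [e2]; simp only [htinv]
        have h7 : χ 1 = χ₀ 1 := by rw [e2]; simp only [inv_one]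
        rw [ha χ hχi, ha χ₀ hχ₀] at h6
        rw [(hd2 χ hχi).2, (hd2 χ₀ hχ₀).2] at h7
        have h8 : (a χ : ℝ) = a χ₀ := by exact_mod_cast h6
        have h9 : (d χ : ℝ) = d χ₀ := by exact_mod_cast h7
        rw [h8, h9]
      · rcases hoth χ hχi e1 e2 with h | ⟨h, -⟩ <;> omega
  · simp only [mul_sub]
    rw [Finset.sum_sub_distrib, r1]
    have : ∑ χ ∈ irrF G, (n χ : ℝ) * (ε * a χ) = ε * (∑ χ ∈ irrF G, (n χ : ℝ) * a χ) := by
      rw [Finset.mul_sum]
      exact Finset.sum_congr rfl fun χ _ => by ring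
    rw [this, r2]
    linear_combination (-2) * hεε
  · have : ∀ χ ∈ irrF G, (n χ : ℝ) * (((d χ : ℝ) - ε * a χ) ^ 2 / d χ)
        = n χ * d χ - 2 * ε * (n χ * a χ) + (n χ : ℝ) * ((a χ : ℝ) ^ 2 / d χ) := by
      intro χ hχ
      have := (hdpos χ hχ).ne'
      field_simp
      linear_combination (n χ : ℝ) * (a χ : ℝ) ^ 2 * hεε
    rw [Finset.sum_congr rfl this, Finset.sum_add_distrib, Finset.sum_sub_distrib,
      ← Finset.mul_sum, r1, r2, r3]
    linear_combination (-4) * hεε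

lemma invol_scalar' {θ : G → ℂ} (hθ : IsSolHeilbronn θ) (hv : Virt θ) (h1 : θ 1 = 2)
    (hd : ∀ g : G, dd θ g = 1) {t : G} (ht : t * t = 1) :
    ∃ ε : ℝ, (ε = 1 ∨ ε = -1) ∧ θ t = 2 * ε ∧ ∀ χ ∈ Irr G, pr θ χ ≠ 0 → χ t = ε * χ 1 := by
  obtain ⟨n, rfl, hn⟩ := virt_theta hv
  obtain ⟨ε, hε, h2, h3⟩ := invol_scalar n hθ h1 hd ht
  refine ⟨ε, hε, h2, fun χ hχ hne => h3 χ hχ ?_⟩
  intro h0
  rw [hn χ hχ, h0] at hne
  exact hne (by simp)

variable {Y : Type} [Group Y] [Finite Y] {π : G →* Y}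

/-- the descended function -/
lemma push_facts [Fintype G] (hπ : Function.Surjective π) {θ : G → ℂ} (hθ : IsSolHeilbronn θ)
    (hv : Virt θ) (h1 : θ 1 = 2) (hd : ∀ g : G, dd θ g = 1) (hk : π.ker ≤ KerS θ) :
    IsSolHeilbronn (push π θ) ∧ Virt (push π θ) ∧ push π θ 1 = 2 ∧ ∀ y, dd (push π θ) y = 1 := by
  refine ⟨descend_sol hπ hθ (fun g => push_kerS hv hk g), hv.push hπ, ?_, ?_⟩
  · rw [← map_one π, push_kerS hv hk, h1]
  · intro y
    obtain ⟨g, rfl⟩ := hπ y
    unfold dd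
    rw [← map_pow, push_kerS hv hk, push_kerS hv hk]
    exact hd g

/-- involutions modulo the kernel -/
theorem invol_mod {θ : G → ℂ} (hθ : IsSolHeilbronn θ) (hv : Virt θ) (h1 : θ 1 = 2)
    (hd : ∀ g : G, dd θ g = 1) {t : G} (ht : t * t ∈ KerS θ) :
    ∃ ε : ℝ, (ε = 1 ∨ ε = -1) ∧ θ t = 2 * ε ∧ ∀ χ ∈ Irr G, pr θ χ ≠ 0 → χ t = ε * χ 1 := by
  classical
  have : Fintype G := Fintype.ofFinite G
  let π : G →* G ⧸ KerS θ := QuotientGroup.mk' (KerS θ)
  have hπ : Function.Surjective π := QuotientGroup.mk'_surjective _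
  have hk : π.ker ≤ KerS θ := by rw [QuotientGroup.ker_mk']
  obtain ⟨f1, f2, f3, f4⟩ := push_facts hπ hθ hv h1 hd hk
  have ht' : π t * π t = 1 := by
    rw [← map_mul]
    exact (QuotientGroup.eq_one_iff _).mpr ht
  obtain ⟨ε, hε, h2, h3⟩ := invol_scalar' f1 f2 f3 f4 ht'
  refine ⟨ε, hε, by rw [← push_kerS hv hk, h2], fun χ hχ hp => ?_⟩
  obtain ⟨ψ, hψ, h4, h5⟩ := descend_const hπ hk hχ hp
  have h6 := h3 ψ hψ (by rw [h5]; exact hp)
  rw [h4]
  simp only [map_one]
  exact h6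

/-- There is at most one involution modulo the kernel. -/
theorem unique_invol {θ : G → ℂ} (hθ : IsSolHeilbronn θ) (hv : Virt θ) (h1 : θ 1 = 2)
    (hd : ∀ g : G, dd θ g = 1) {t u : G ⧸ KerS θ} (ht : t * t = 1) (hu : u * u = 1)
    (ht1 : t ≠ 1) (hu1 : u ≠ 1) : t = u := by
  classical
  obtain ⟨t, rfl⟩ := QuotientGroup.mk_surjective t
  obtain ⟨u, rfl⟩ := QuotientGroup.mk_surjective u
  have key : ∀ t : G, (t : G ⧸ KerS θ) * t = 1 → (t : G ⧸ KerS θ) ≠ 1 →
      ∀ (n : ℕ) (ρ : Representation ℂ G (Fin n → ℂ)), Irred ρ → pr θ ρ.character ≠ 0 →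
      ∀ v, ρ t v = -v := by
    intro t ht ht1
    have ht' : t * t ∈ KerS θ := by
      rw [← QuotientGroup.mk_mul] at ht
      exact (QuotientGroup.eq_one_iff _).mp ht
    obtain ⟨ε, hε, -, h3⟩ := invol_mod hθ hv h1 hd ht'
    rcases hε with h | h
    · exfalso
      apply ht1
      apply (QuotientGroup.eq_one_iff _).mpr
      rw [mem_kerS]
      intro χ hχ hp
      rw [h3 χ hχ hp, h]
      push_cast
      ring
    · intro n ρ hρ hp
      -- the operator `-ρ t` is trivial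
      have h4 := h3 _ (irr_of_irred hρ) hp
      rw [h] at h4
      push_cast at h4
      have hn : ‖ρ.character t‖ = n := by
        rw [h4, Representation.char_one, Module.finrank_fin_fun]
        simp
      obtain ⟨c, hc⟩ := rep_scal ρ hn
      have hn0 : (n : ℂ) ≠ 0 := by
        have := hρ.1
        have h5 : 0 < n := by
          rcases Nat.eq_zero_or_pos n with h0 | h0
          · subst h0
            exact absurd this (not_nontrivial_iff_subsingleton.mpr inferInstance)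
          · exact h0
        exact_mod_cast h5.ne'
      have h6 : ρ.character t = c * n := by
        change LinearMap.trace ℂ _ (ρ t) = _
        rw [hc, map_smul, smul_eq_mul, LinearMap.trace_one, Module.finrank_fin_fun]
      rw [h4, Representation.char_one, Module.finrank_fin_fun] at h6
      have h7 : c = -1 := by
        have : (c + 1) * (n : ℂ) = 0 := by linear_combination -h6
        have := (mul_eq_zero.mp this).resolve_right hn0
        linear_combination this
      intro v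
      rw [hc, h7, LinearMap.smul_apply, neg_smul, one_smul]
      rfl
  have h2 := key t ht ht1
  have h3 := key u hu hu1
  rw [QuotientGroup.eq]
  intro n ρ hρ hp
  have h4 : ∀ v, ρ t⁻¹ v = -v := by
    intro v
    have h5 : ρ t⁻¹ (ρ t (-v)) = -v := by
      rw [← Module.End.mul_apply, ← map_mul, inv_mul_cancel, map_one, Module.End.one_apply]
    rw [h2 n ρ hρ hp, neg_neg] at h5
    exact h5
  refine LinearMap.ext fun v => ?_
  rw [map_mul, Module.End.mul_apply, h3 n ρ hρ hp, h4, neg_neg, Module.End.one_apply]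

end

end Pool.Agent.Q7.SZ
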