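import Mathlib
import Pool.Agent.Q7.SZ.Quo

/-!
# Functions of degree two with nonnegative multiplicities on solvable subgroups
-/

set_option autoImplicit false
set_option linter.unusedSectionVars false

open Representation

namespace Pool.Agent.Q7.SZ

open Pool.Agent.H302R2 Pool.Agent.H302R3 Pool.Agent.H302R5 Pool.Agent.H541R3.ART
  Pool.Agent.W446.AS Pool.Agent.Q7.TZ Pool.Agent.Y788.V MulAction

section

variable {G : Type} [Group G] [Finite G]

/-- If all values are `2` or `-2`, all multiplicities are even. -/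
theorem even_all {θ : G → ℂ} (hθ : IsSolHeilbronn θ) (h1 : θ 1 = 2) (hd : ∀ g, dd θ g = 1)
    (h2 : ∀ g, θ g = 2 ∨ θ g = -2) {χ : G → ℂ} (hχ : χ ∈ Irr G) {n : ℤ}
    (hn : ∑ᶠ g : G, θ g * χ g⁻¹ = n * Nat.card G) : Even n := by
  classical
  have hχ' := Pool.Agent.Q7.DB.irr_inv hχ
  refine even_of_hyper (Φ := fun g => θ g * χ g⁻¹) (fun g h => ?_) (fun g => ?_)
    (fun U hU => ?_) hn
  · have h3 : χ (h * g * h⁻¹)⁻¹ = χ g⁻¹ := Irr.conj hχ' g h
    rw [hθ.conj, h3]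
  · exact (hθ.isIntegral g).mul (isIntegral_heil (irr_heilbronn hχ) g⁻¹)
  · have : Fintype U := Fintype.ofFinite U
    have hs := hyp_str _ U rfl hU (fun u => θ u) (hθ.comp_sol (Hyp.solvable hU) U.subtype) h1 (fun u => hd u)
    rcases hs with ⟨l, hl⟩ | ⟨A, l, w, hwA, -, -, hoff, -⟩
    · obtain ⟨m, hm⟩ := exists_mult hχ U l
      refine ⟨m, ?_⟩
      have h3 : ∀ u : U, θ u = 2 * ((l u : ℂˣ) : ℂ) := by
        intro u
        have h4 := hl u
        have h5 : ((l u : ℂˣ) : ℂ) * (((l u)⁻¹ : ℂˣ) : ℂ) = 1 := by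
          rw [← Units.val_mul, mul_inv_cancel, Units.val_one]
        simp only at h4
        have h6 : (((l u : ℂˣ) : ℂ) - (((l u)⁻¹ : ℂˣ) : ℂ)) ^ 2 = 0 := by
          have h7 : θ u ^ 2 = 4 := by
            rcases h2 u with h | h <;> rw [h] <;> norm_num
          rw [h4] at h7
          linear_combination h7 - 4 * h5
        have h8 := pow_eq_zero_iff (two_ne_zero) |>.mp h6
        rw [h4]
        linear_combination -h8
      rw [finsum_eq_sum_of_fintype] at hm ⊢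
      have h9 : ∑ u : U, θ u * χ (u : G)⁻¹ = 2 * ∑ u : U, χ u * (((l u)⁻¹ : ℂˣ) : ℂ) := by
        rw [Finset.mul_sum, ← Equiv.sum_comp (Equiv.inv U)]
        refine Finset.sum_congr rfl fun u _ => ?_
        rw [Equiv.inv_apply, h3, Subgroup.coe_inv, inv_inv, map_inv]
        ring
      rw [h9, hm]
      ring
    · exfalso
      have h3 := hoff w hwA
      simp only at h3
      rcases h2 w with h | h <;> rw [h] at h3 <;> norm_num at h3

lemma sum_sq_le (n : (G → ℂ) → ℤ) (hθ : IsSolHeilbronn (theta n : G → ℂ))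
    (h1 : (theta n : G → ℂ) 1 = 2) (hd : ∀ g : G, dd (theta n) g = 1) :
    (∑ χ ∈ irrF G, n χ ^ 2 ≤ 4) ∧
    ((∑ χ ∈ irrF G, n χ ^ 2 ≤ 3) ∨ ∀ χ ∈ Irr G, Even (n χ)) := by
  classical
  have : Fintype G := Fintype.ofFinite G
  have hG : (Nat.card G : ℂ) ≠ 0 := by exact_mod_cast Nat.card_pos.ne'
  have hGr : (0 : ℝ) < Nat.card G := by exact_mod_cast Nat.card_pos
  have e1 : ∑ g : G, theta n g * theta n g⁻¹ = (∑ χ ∈ irrF G, (n χ : ℂ) ^ 2) * Nat.card G := by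
    have h2 : ∀ g : G, theta n g * theta n g⁻¹ = ∑ χ ∈ irrF G, (n χ : ℂ) * (theta n g * χ g⁻¹) := by
      intro g
      conv_lhs => rw [theta.eq_1 (G := G) n g⁻¹]
      rw [Finset.mul_sum]
      refine Finset.sum_congr rfl fun χ _ => by ring
    rw [Finset.sum_congr rfl (fun g _ => h2 g), Finset.sum_comm, Finset.sum_mul]
    refine Finset.sum_congr rfl fun χ hχ => ?_
    rw [← Finset.mul_sum, theta_pair n (mem_irrF.mp hχ)]
    ring
  have hx : ∀ g : G, ∃ x : ℝ, theta n g = x ∧ x ^ 2 ≤ 4 := by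
    intro g
    obtain ⟨a, b, ha, hb, hp, hs, -⟩ := hθ.two_eig h1 g
    rw [hd] at hp
    have hab : b = (starRingEnd ℂ) a := by
      have h3 : a * (starRingEnd ℂ) a = 1 := by
        rw [Complex.mul_conj, Complex.normSq_eq_norm_sq, ha]; norm_num
      have ha0 : a ≠ 0 := by rw [← norm_ne_zero_iff, ha]; norm_num
      exact mul_left_cancel₀ ha0 (hp.symm.trans h3.symm)
    refine ⟨2 * a.re, ?_, ?_⟩
    · rw [hs, hab, Complex.add_conj]
    · have h3 : |a.re| ≤ 1 := by rw [← ha]; exact Complex.abs_re_le_norm a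
      have h4 := abs_le.mp h3
      nlinarith
  choose x hx1 hx2 using hx
  have e2 : ∑ g : G, x g ^ 2 = ((∑ χ ∈ irrF G, n χ ^ 2 : ℤ) : ℝ) * Nat.card G := by
    have h3 : ∀ g : G, theta n g * theta n g⁻¹ = ((x g ^ 2 : ℝ) : ℂ) := by
      intro g
      rw [real_of_dd hθ h1 hd, hx1]
      push_cast
      ring
    rw [Finset.sum_congr rfl (fun g _ => h3 g)] at e1
    exact_mod_cast e1
  have hcard : ∑ _g : G, (4 : ℝ) = 4 * Nat.card G := by
    rw [Finset.sum_const, Finset.card_univ, nsmul_eq_mul, ← Nat.card_eq_fintype_card]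
    ring
  constructor
  · have h3 : ∑ g : G, x g ^ 2 ≤ ∑ _g : G, (4 : ℝ) := Finset.sum_le_sum fun g _ => hx2 g
    rw [hcard, e2] at h3
    have h4 := le_of_mul_le_mul_right h3 hGr
    exact_mod_cast h4
  · by_cases hall : ∀ g, x g ^ 2 = 4
    · right
      intro χ hχ
      refine even_all hθ h1 hd (fun g => ?_) hχ (n := n χ) ?_
      · rw [hx1]
        have h3 : (x g - 2) * (x g + 2) = 0 := by linear_combination hall g
        rcases mul_eq_zero.mp h3 with h | h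
        · left
          have : x g = 2 := by linarith
          rw [this]; simp
        · right
          have : x g = -2 := by linarith
          rw [this]; simp
      · rw [finsum_eq_sum_of_fintype]
        exact theta_pair n hχ
    · left
      push Not at hall
      obtain ⟨g₀, hg₀⟩ := hall
      have h3 : ∑ g : G, x g ^ 2 < ∑ _g : G, (4 : ℝ) :=
        Finset.sum_lt_sum (fun g _ => hx2 g) ⟨g₀, Finset.mem_univ _, lt_of_le_of_ne (hx2 g₀) hg₀⟩
      rw [hcard, e2] at h3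
      have h4 := lt_of_mul_lt_mul_right h3 hGr.le
      have h5 : ∑ χ ∈ irrF G, n χ ^ 2 < 4 := by exact_mod_cast h4
      omega

theorem shape_one (n : (G → ℂ) → ℤ) (hθ : IsSolHeilbronn (theta n : G → ℂ))
    (h1 : (theta n : G → ℂ) 1 = 2) (hd : ∀ g : G, dd (theta n) g = 1) :
    (∃ χ₀ ∈ Irr G, χ₀ 1 = 1 ∧ (∀ g, χ₀ g⁻¹ = χ₀ g) ∧ n χ₀ = 2 ∧
      ∀ χ ∈ Irr G, χ ≠ χ₀ → n χ = 0) ∨
    (∃ χ₀ ∈ Irr G, Sy χ₀ ∧ n χ₀ = 1 ∧ ∃ N, NegPart n N 2 ∧
      ∀ χ ∈ Irr G, χ ≠ χ₀ → χ ∉ N → n χ = 0) ∨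
    (∃ χ₀ ∈ Irr G, (∃ g, χ₀ g⁻¹ ≠ χ₀ g) ∧ n χ₀ = 1 ∧ n (fun g => χ₀ g⁻¹) = 1 ∧
      ∃ N, NegPart n N 1 ∧
        ∀ χ ∈ Irr G, χ ≠ χ₀ → χ ≠ (fun g => χ₀ g⁻¹) → χ ∉ N → n χ = 0) := by
  classical
  obtain ⟨χ₀, hχ₀, hn0, hoth, hcase⟩ := pattern n hθ h1 hd
  obtain ⟨h4, h3⟩ := sum_sq_le n hθ h1 hd
  set N : Finset (G → ℂ) := (irrF G).filter (fun χ => n χ = -1) with hN
  have hNsub : N ⊆ irrF G := Finset.filter_subset _ _
  have hsub : ∀ S : Finset (G → ℂ), S ⊆ irrF G → ∑ χ ∈ S, n χ ^ 2 ≤ ∑ χ ∈ irrF G, n χ ^ 2 :=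
    fun S hS => Finset.sum_le_sum_of_subset_of_nonneg hS (fun χ _ _ => sq_nonneg _)
  have hNs : ∑ χ ∈ N, n χ ^ 2 = N.card := by
    rw [Finset.sum_congr rfl (g := fun _ => (1 : ℤ)) (fun χ hχ => by
      rw [(Finset.mem_filter.mp hχ).2]; norm_num)]
    simp
  have h0N : χ₀ ∉ N := by
    intro h
    have := (Finset.mem_filter.mp h).2
    omega
  have hNsy : ∀ χ ∈ N, χ ≠ χ₀ → χ ≠ (fun g => χ₀ g⁻¹) → χ ∈ Irr G ∧ Sy χ ∧ n χ = -1 := by
    intro χ hχ h5 h6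
    have h7 := Finset.mem_filter.mp hχ
    have hχi := mem_irrF.mp h7.1
    rcases hoth χ hχi h5 h6 with h | ⟨-, hr, hs⟩
    · omega
    · exact ⟨hχi, ⟨hr, hs⟩, h7.2⟩
  have hreal := real_of_dd hθ h1 hd
  have hn1 := n_conj n hreal hχ₀
  have h1N : (fun g => χ₀ g⁻¹) ∉ N := by
    intro h
    have := (Finset.mem_filter.mp h).2
    omega
  have hNeg : ∀ χ ∈ N, χ ∈ Irr G ∧ Sy χ ∧ n χ = -1 := by
    intro χ hχ
    refine hNsy χ hχ ?_ ?_
    · rintro rfl; exact h0N hχ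
    · rintro rfl; exact h1N hχ
  have hz : ∀ χ ∈ Irr G, χ ≠ χ₀ → χ ≠ (fun g => χ₀ g⁻¹) → χ ∉ N → n χ = 0 := by
    intro χ hχ h5 h6 h7
    rcases hoth χ hχ h5 h6 with h | ⟨h, -⟩
    · exact h
    · exact absurd (Finset.mem_filter.mpr ⟨mem_irrF.mpr hχ, h⟩) h7
  rcases hcase with ⟨h2, hr, -⟩ | ⟨h2, hr, hs⟩ | ⟨h2, h2', hr⟩
  · left
    have hins := hsub (insert χ₀ N) (by
      intro x hx
      rcases Finset.mem_insert.mp hx with h | h
      · rw [h]; exact mem_irrF.mpr hχ₀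
      · exact hNsub h)
    rw [Finset.sum_insert h0N, hNs, h2] at hins
    have hcard : N.card = 0 := by
      have h5 : (2 : ℤ) ^ 2 + N.card ≤ 4 := hins.trans h4
      omega
    have hNe : N = ∅ := Finset.card_eq_zero.mp hcard
    have hz' : ∀ χ ∈ Irr G, χ ≠ χ₀ → n χ = 0 := by
      intro χ hχ h5
      refine hz χ hχ h5 ?_ (by rw [hNe]; simp)
      intro h6
      apply h5
      rw [h6]
      funext g
      exact hr g
    refine ⟨χ₀, hχ₀, ?_, hr, h2, hz'⟩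
    have h5 : (theta n : G → ℂ) 1 = 2 * χ₀ 1 := by
      rw [theta, Finset.sum_eq_single χ₀]
      · rw [h2]; push_cast; ring
      · intro χ hχ hne
        rw [hz' χ (mem_irrF.mp hχ) hne]; simp
      · intro h; exact absurd (mem_irrF.mpr hχ₀) h
    rw [h1] at h5
    linear_combination (-1 / 2 : ℂ) * h5
  · right; left
    have h3' : ∑ χ ∈ irrF G, n χ ^ 2 ≤ 3 := by
      rcases h3 with h | h
      · exact h
      · have := h χ₀ hχ₀
        rw [h2] at this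
        exact absurd this (by decide)
    have hins := hsub (insert χ₀ N) (by
      intro x hx
      rcases Finset.mem_insert.mp hx with h | h
      · rw [h]; exact mem_irrF.mpr hχ₀
      · exact hNsub h)
    rw [Finset.sum_insert h0N, hNs, h2] at hins
    refine ⟨χ₀, hχ₀, ⟨hr, hs⟩, h2, N, ⟨by omega, hNeg⟩, ?_⟩
    intro χ hχ h5 h7
    refine hz χ hχ h5 ?_ h7
    intro h6
    apply h5
    rw [h6]
    funext g
    exact hr g
  · right; right
    have h3' : ∑ χ ∈ irrF G, n χ ^ 2 ≤ 3 := by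
      rcases h3 with h | h
      · exact h
      · have := h χ₀ hχ₀
        rw [h2] at this
        exact absurd this (by decide)
    have hne : χ₀ ≠ (fun g => χ₀ g⁻¹) := by
      intro h
      obtain ⟨g, hg⟩ := hr
      exact hg (congrFun h g).symm
    have h0N' : χ₀ ∉ insert (fun g => χ₀ g⁻¹) N := by
      rw [Finset.mem_insert, not_or]
      exact ⟨hne, h0N⟩
    have hins := hsub (insert χ₀ (insert (fun g => χ₀ g⁻¹) N)) (by
      intro x hx
      rcases Finset.mem_insert.mp hx with h | h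
      · rw [h]; exact mem_irrF.mpr hχ₀
      · rcases Finset.mem_insert.mp h with h | h
        · rw [h]; exact mem_irrF.mpr (Pool.Agent.Q7.DB.irr_inv hχ₀)
        · exact hNsub h)
    rw [Finset.sum_insert h0N', Finset.sum_insert h1N, hNs, h2, h2'] at hins
    exact ⟨χ₀, hχ₀, hr, h2, h2', N, ⟨by omega, hNeg⟩, hz⟩

lemma lft_facts {D : G →* ℂˣ} {θ : G → ℂ} (hθ : IsSolHeilbronn θ) (hv : Virt θ) (h1 : θ 1 = 2)
    (hD : ∀ g, ((D g : ℂˣ) : ℂ) = dd θ g) :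
    IsSolHeilbronn (lft D θ) ∧ Virt (lft D θ) ∧ lft D θ 1 = 2 ∧ ∀ x, dd (lft D θ) x = 1 := by
  refine ⟨(hθ.comp (pi1 D)).twist (rt D), virt_mul_inv (hv.comp (pi1 D)) (rt D), ?_, ?_⟩
  · rw [lft_one, h1]
  · intro x
    have h2 := hD (pi1 D x)
    have h3 := congrArg (fun u : ℂˣ => (u : ℂ)) (rt_sq D x)
    simp only [Units.val_pow_eq_pow_val] at h3
    rw [h2] at h3
    unfold dd at h3
    unfold dd lft
    rw [map_pow, map_pow, Units.val_inv_eq_inv_val, Units.val_inv_eq_inv_val,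
      Units.val_pow_eq_pow_val]
    have h4 : ((rt D x : ℂˣ) : ℂ) ≠ 0 := (rt D x).ne_zero
    field_simp
    linear_combination -2 * h3

theorem shape_gen (n : (G → ℂ) → ℤ) (hθ : IsSolHeilbronn (theta n : G → ℂ))
    (h1 : (theta n : G → ℂ) 1 = 2) :
    ∃ D : G →* ℂˣ, (∀ g, ((D g : ℂˣ) : ℂ) = dd (theta n) g) ∧
      (∀ χ ∈ Irr G, dual D χ ∈ Irr G ∧ n (dual D χ) = n χ) ∧
      ((∃ μ : G →* ℂˣ, μ * μ = D ∧ n (fun g => ((μ g : ℂˣ) : ℂ)) = 2 ∧
          ∀ χ ∈ Irr G, χ ≠ (fun g => ((μ g : ℂˣ) : ℂ)) → n χ = 0) ∨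
        (∃ χ₀ ∈ Irr G, Symplectic D χ₀ ∧ n χ₀ = 1 ∧ ∃ N : Finset (G → ℂ), N.card ≤ 2 ∧
          (∀ ψ ∈ N, ψ ∈ Irr G ∧ Symplectic D ψ ∧ n ψ = -1) ∧
          ∀ χ ∈ Irr G, χ ≠ χ₀ → χ ∉ N → n χ = 0) ∨
        (∃ χ₀ ∈ Irr G, dual D χ₀ ≠ χ₀ ∧ n χ₀ = 1 ∧ n (dual D χ₀) = 1 ∧
          ∃ N : Finset (G → ℂ), N.card ≤ 1 ∧
          (∀ ψ ∈ N, ψ ∈ Irr G ∧ Symplectic D ψ ∧ n ψ = -1) ∧
          ∀ χ ∈ Irr G, χ ≠ χ₀ → χ ≠ dual D χ₀ → χ ∉ N → n χ = 0)) ∧
      ∀ t : G, D t = 1 → (∀ χ ∈ Irr G, n χ ≠ 0 → χ (t * t) = χ 1) →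
        ∃ ε : ℂ, (ε = 1 ∨ ε = -1) ∧ ∀ χ ∈ Irr G, n χ ≠ 0 → χ t = ε * χ 1 := by
  classical
  have hv : Virt (theta n : G → ℂ) := theta_virt n
  obtain ⟨D, hD⟩ := hθ.exists_det h1
  obtain ⟨f1, f2, f3, f4⟩ := lft_facts hθ hv h1 hD
  obtain ⟨n', hn', hpr⟩ := virt_theta f2
  -- multiplicities of the lifts
  have hlift : ∀ χ ∈ Irr G, n' (lft D χ) = n χ := by
    intro χ hχ
    have h2 := hpr _ (lft_irr D hχ)
    rw [pr_lft, pr_theta n hχ] at h2
    exact_mod_cast h2.symm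
  have hof : ∀ χ' ∈ Irr (Gt D), n' χ' ≠ 0 → ∃ χ ∈ Irr G, χ' = lft D χ ∧ n χ = n' χ' := by
    intro χ' hχ' hne
    obtain ⟨χ, hχ, h2⟩ := exists_of_lft D hv hχ' (by
      rw [hpr _ hχ']
      exact_mod_cast hne)
    exact ⟨χ, hχ, h2, by rw [h2, hlift χ hχ]⟩
  have hdual : ∀ χ ∈ Irr G, dual D χ ∈ Irr G := by
    intro χ hχ
    have h2 := irr_mul (Pool.Agent.Q7.DB.irr_inv hχ) D
    have h3 : (fun g => χ g⁻¹ * ((D g : ℂˣ) : ℂ)) = dual D χ := by
      funext g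
      exact mul_comm _ _
    rw [← h3]
    exact h2
  have f1' : IsSolHeilbronn (theta n' : Gt D → ℂ) := by rw [← hn']; exact f1
  have f3' : (theta n' : Gt D → ℂ) 1 = 2 := by rw [← hn']; exact f3
  have f4' : ∀ x : Gt D, dd (theta n') x = 1 := by rw [← hn']; exact f4
  have hreal := real_of_dd f1' f3' f4'
  have hdn : ∀ χ ∈ Irr G, n (dual D χ) = n χ := by
    intro χ hχ
    rw [← hlift _ (hdual χ hχ), ← hlift χ hχ, ← lft_dual]
    exact n_conj n' hreal (lft_irr D hχ)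
  -- transfer of the negative part
  have hneg : ∀ (N' : Finset (Gt D → ℂ)) (m : ℕ), NegPart n' N' m →
      ∃ N : Finset (G → ℂ), N.card ≤ m ∧ (∀ ψ ∈ N, ψ ∈ Irr G ∧ Symplectic D ψ ∧ n ψ = -1) ∧
        ∀ χ ∈ Irr G, lft D χ ∈ N' → χ ∈ N := by
    intro N' m hN'
    refine ⟨(irrF G).filter (fun χ => lft D χ ∈ N'), ?_, ?_, ?_⟩
    · refine le_trans ?_ hN'.1
      apply Finset.card_le_card_of_injOn (lft D)
      · intro χ hχ
        exact (Finset.mem_filter.mp hχ).2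
      · intro χ _ χ' _ h
        exact lft_inj D h
    · intro ψ hψ
      have h2 := Finset.mem_filter.mp hψ
      have h3 := hN'.2 _ h2.2
      have h4 := mem_irrF.mp h2.1
      exact ⟨h4, (sy_lft D ψ).mp h3.2.1, by rw [← hlift ψ h4, h3.2.2]⟩
    · intro χ hχ h2
      exact Finset.mem_filter.mpr ⟨mem_irrF.mpr hχ, h2⟩
  refine ⟨D, hD, fun χ hχ => ⟨hdual χ hχ, hdn χ hχ⟩, ?_, ?_⟩
  · rcases shape_one n' f1' f3' f4' with ⟨χ', hχ', e1, e2, e3, e4⟩ | ⟨χ', hχ', e1, e2, N', e3, e4⟩ |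
      ⟨χ', hχ', e1, e2, e2', N', e3, e4⟩
    · left
      obtain ⟨χ₀, hχ₀, rfl, h5⟩ := hof χ' hχ' (by rw [e3]; norm_num)
      rw [lft_one] at e1
      obtain ⟨μ, hμ⟩ := (irr_heilbronn hχ₀).deg_one e1
      have hμ' : χ₀ = fun g => ((μ g : ℂˣ) : ℂ) := funext hμ
      refine ⟨μ, ?_, ?_, ?_⟩
      · ext g
        obtain ⟨x, rfl⟩ := pi1_surj D g
        have h6 := e2 x
        have h7 := congrFun (lft_dual D χ₀) x
        rw [h7] at h6
        unfold lft Pool.Agent.Q7.TZ.dual at h6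
        have h8 := mul_right_cancel₀ ((rt D x)⁻¹).ne_zero h6
        rw [hμ, hμ, map_inv, Units.val_inv_eq_inv_val] at h8
        have h9 : ((μ (pi1 D x) : ℂˣ) : ℂ) ≠ 0 := (μ (pi1 D x)).ne_zero
        rw [MonoidHom.mul_apply, Units.val_mul]
        field_simp at h8
        linear_combination -h8
      · rw [← hμ', h5, e3]
      · intro χ hχ hne
        rw [← hlift χ hχ]
        apply e4 _ (lft_irr D hχ)
        intro h6
        apply hne
        rw [← hμ']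
        exact lft_inj D h6
    · right; left
      obtain ⟨χ₀, hχ₀, rfl, h5⟩ := hof χ' hχ' (by rw [e2]; norm_num)
      obtain ⟨N, h6, h7, h8⟩ := hneg N' 2 e3
      refine ⟨χ₀, hχ₀, (sy_lft D χ₀).mp e1, by rw [h5, e2], N, h6, h7, ?_⟩
      intro χ hχ hne hN
      rw [← hlift χ hχ]
      apply e4 _ (lft_irr D hχ)
      · intro h9; exact hne (lft_inj D h9)
      · intro h9; exact hN (h8 χ hχ h9)
    · right; right
      obtain ⟨χ₀, hχ₀, rfl, h5⟩ := hof χ' hχ' (by rw [e2]; norm_num)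
      obtain ⟨N, h6, h7, h8⟩ := hneg N' 1 e3
      refine ⟨χ₀, hχ₀, ?_, by rw [h5, e2], ?_, N, h6, h7, ?_⟩
      · intro h9
        obtain ⟨x, hx⟩ := e1
        apply hx
        have h10 := congrFun (lft_dual D χ₀) x
        rw [h9] at h10
        exact h10
      · rw [hdn χ₀ hχ₀, h5, e2]
      · intro χ hχ hne hne' hN
        rw [← hlift χ hχ]
        apply e4 _ (lft_irr D hχ)
        · intro h9; exact hne (lft_inj D h9)
        · intro h9
          rw [lft_dual] at h9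
          exact hne' (lft_inj D h9)
        · intro h9; exact hN (h8 χ hχ h9)
  · intro t ht hK
    obtain ⟨x, hx1, hx2⟩ := exists_lift_one D ht
    have hval : ∀ χ : G → ℂ, lft D χ x = χ t := by
      intro χ
      unfold lft
      rw [hx1, hx2, inv_one, Units.val_one, mul_one]
    have hval2 : ∀ χ : G → ℂ, lft D χ (x * x) = χ (t * t) := by
      intro χ
      unfold lft
      rw [map_mul, map_mul, hx1, hx2, mul_one, inv_one, Units.val_one, mul_one]
    obtain ⟨ε, hε, -, h3⟩ := invol_mod f1 f2 f3 f4 (t := x) (by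
      rw [mem_kerS]
      intro χ' hχ' hp
      obtain ⟨χ, hχ, h2⟩ := exists_of_lft D hv hχ' hp
      rw [h2, hval2, lft_one]
      apply hK χ hχ
      intro h0
      apply hp
      rw [h2, pr_lft, pr_theta n hχ, h0]
      simp)
    refine ⟨(ε : ℂ), ?_, ?_⟩
    · rcases hε with h | h
      · left; rw [h]; simp
      · right; rw [h]; simp
    · intro χ hχ hne
      have h4 := h3 _ (lft_irr D hχ) (by
        rw [pr_lft, pr_theta n hχ]
        exact_mod_cast hne)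
      rw [hval, lft_one] at h4
      exact h4

end

end Pool.Agent.Q7.SZ
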