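import Mathlib
import Pool.Agent.Q7.SZ.Gen
import Pool.Agent.Q7.TZ.Dich

/-!
# Functions of degree at most two with nonnegative multiplicities on solvable subgroups
have nonnegative multiplicities on all subgroups
-/

set_option autoImplicit false
set_option linter.unusedSectionVars false

namespace Pool.Agent.Q7.SZ

open Pool.Agent.H302R2 Pool.Agent.H302R3 Pool.Agent.H302R5 Pool.Agent.H541R3.ART
  Pool.Agent.W446.AS Pool.Agent.Q7.TZ

section

variable {G : Type} [Group G] [Finite G]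

/-- linear characters are not symplectic -/
lemma not_symplectic_lin (D ψ : G →* ℂˣ) : ¬ Symplectic D (fun g => ((ψ g : ℂˣ) : ℂ)) := by
  classical
  have : Fintype G := Fintype.ofFinite G
  rintro ⟨h1, h2⟩
  have h3 : ∀ g, ψ (g ^ 2) * (D g)⁻¹ = 1 := by
    intro g
    have h4 := congrFun h1 g
    unfold TZ.dual at h4
    rw [← Units.val_mul] at h4
    have h5 : D g * ψ g⁻¹ = ψ g := Units.ext h4
    rw [map_inv] at h5
    have h6 : D g = ψ g * ψ g := mul_inv_eq_iff_eq_mul.mp h5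
    rw [h6, map_pow, sq, mul_inv_cancel]
  rw [finsum_eq_sum_of_fintype] at h2
  have h4 : ∀ g : G, ((ψ (g ^ 2) : ℂˣ) : ℂ) * (((D g)⁻¹ : ℂˣ) : ℂ) = 1 := by
    intro g
    rw [← Units.val_mul, h3, Units.val_one]
  rw [Finset.sum_congr rfl (fun g _ => h4 g), Finset.sum_const, Finset.card_univ, nsmul_eq_mul,
    mul_one, ← Nat.card_eq_fintype_card] at h2
  have h5 : (0 : ℝ) < Nat.card G := by exact_mod_cast Nat.card_pos
  have h6 : ((Nat.card G : ℝ) : ℂ) = ((-(Nat.card G : ℝ) : ℝ) : ℂ) := by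
    push_cast
    exact h2
  have h7 : (Nat.card G : ℝ) = -(Nat.card G : ℝ) := Complex.ofReal_injective h6
  linarith

lemma lin_irr (ψ : G →* ℂˣ) : (fun g => ((ψ g : ℂˣ) : ℂ)) ∈ Irr G := by
  let σ : Representation ℂ G ℂ :=
    { toFun := fun g => ((ψ g : ℂˣ) : ℂ) • (1 : Module.End ℂ ℂ)
      map_one' := by rw [map_one, Units.val_one, one_smul]
      map_mul' := by
        intro a b
        rw [map_mul, Units.val_mul, smul_mul_smul_comm, mul_one] }
  have h1 : σ.character = fun g => ((ψ g : ℂˣ) : ℂ) := by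
    funext g
    change LinearMap.trace ℂ ℂ (((ψ g : ℂˣ) : ℂ) • (1 : Module.End ℂ ℂ)) = _
    rw [map_smul, LinearMap.trace_one, Module.finrank_self]
    simp
  rw [← h1]
  refine irr_of_irred ⟨inferInstance, fun W _ => ?_⟩
  exact eq_bot_or_eq_top W

/-- nonnegativity for linear characters of the whole group -/
theorem lin_nonneg {θ : G → ℂ} (hθ : IsSolHeilbronn θ) (hv : Virt θ) {r : ℕ} (hr : r ≤ 2)
    (h1 : θ 1 = r) (ψ : G →* ℂˣ) :
    ∃ m : ℕ, ∑ᶠ g : G, θ g * (((ψ g)⁻¹ : ℂˣ) : ℂ) = m * Nat.card G := by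
  classical
  have : Fintype G := Fintype.ofFinite G
  have hcases : r = 0 ∨ r = 1 ∨ r = 2 := by omega
  rcases hcases with rfl | rfl | rfl
  · refine ⟨0, ?_⟩
    rw [finsum_eq_sum_of_fintype]
    have h2 : ∀ g : G, θ g = 0 := by
      intro g
      have h3 := hθ.norm_le g
      rw [h1] at h3
      simpa using h3
    simp [h2]
  · obtain ⟨φ, hφ⟩ := hθ.deg_one (by rw [h1]; simp)
    by_cases h2 : φ = ψ
    · refine ⟨1, ?_⟩
      rw [finsum_eq_sum_of_fintype]
      have h3 : ∀ g : G, θ g * (((ψ g)⁻¹ : ℂˣ) : ℂ) = 1 := by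
        intro g
        rw [hφ, h2, ← Units.val_mul, mul_inv_cancel, Units.val_one]
      rw [Finset.sum_congr rfl (fun g _ => h3 g)]
      simp
    · refine ⟨0, ?_⟩
      rw [finsum_eq_sum_of_fintype]
      have h3 := pair_ne (lin_irr φ) (lin_irr ψ) (by
        intro h
        apply h2
        ext g
        exact congrFun h g)
      simp only [map_inv] at h3
      rw [Nat.cast_zero, zero_mul, ← h3]
      refine Finset.sum_congr rfl fun g _ => ?_
      rw [hφ]
  · have h1' : θ 1 = 2 := by rw [h1]; simp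
    obtain ⟨n, rfl, hn⟩ := virt_theta hv
    obtain ⟨D, -, -, hshape, -⟩ := shape_gen n hθ h1'
    have hψ := lin_irr ψ
    have hnn : 0 ≤ n (fun g => ((ψ g : ℂˣ) : ℂ)) := by
      by_contra hcon
      rcases hshape with ⟨μ, -, e2, e3⟩ | ⟨χ₀, hχ₀, -, e2, N, -, e4, e5⟩ |
        ⟨χ₀, hχ₀, -, e2, e2', N, -, e4, e5⟩
      · by_cases h : (fun g => ((ψ g : ℂˣ) : ℂ)) = fun g => ((μ g : ℂˣ) : ℂ)
        · rw [h, e2] at hcon; omega
        · rw [e3 _ hψ h] at hcon; omega
      · by_cases h : (fun g => ((ψ g : ℂˣ) : ℂ)) = χ₀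
        · rw [h, e2] at hcon; omega
        · by_cases h' : (fun g => ((ψ g : ℂˣ) : ℂ)) ∈ N
          · exact not_symplectic_lin D ψ (e4 _ h').2.1
          · rw [e5 _ hψ h h'] at hcon; omega
      · by_cases h : (fun g => ((ψ g : ℂˣ) : ℂ)) = χ₀
        · rw [h, e2] at hcon; omega
        · by_cases h2 : (fun g => ((ψ g : ℂˣ) : ℂ)) = TZ.dual D χ₀
          · rw [h2, e2'] at hcon; omega
          · by_cases h' : (fun g => ((ψ g : ℂˣ) : ℂ)) ∈ N
            · exact not_symplectic_lin D ψ (e4 _ h').2.1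
            · rw [e5 _ hψ h h2 h'] at hcon; omega
    refine ⟨(n (fun g => ((ψ g : ℂˣ) : ℂ))).toNat, ?_⟩
    have h3 := theta_pair n hψ
    rw [finsum_eq_sum_of_fintype]
    simp only [map_inv] at h3
    rw [h3]
    congr 1
    have h4 := Int.toNat_of_nonneg hnn
    exact_mod_cast h4.symm

/-- the main theorem -/
theorem heil_of_sol {θ : G → ℂ} (hθ : IsSolHeilbronn θ) (hv : Virt θ) {r : ℕ} (hr : r ≤ 2)
    (h1 : θ 1 = r) : IsHeilbronn θ where
  conj := hθ.conj
  mult H χ := by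
    obtain ⟨m, hm⟩ := lin_nonneg (hθ.comp H.subtype) (hv.comp H.subtype) hr
      (by rw [map_one]; exact h1) χ
    exact ⟨m, hm⟩

end

end Pool.Agent.Q7.SZ
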