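import Mathlib
import Pool.Agent.Q7.SZ.Lin

/-!
# Real functions of degree two
-/

set_option autoImplicit false
set_option linter.unusedSectionVars false

namespace Pool.Agent.Q7.SZ

open Pool.Agent.H302R2 Pool.Agent.H302R3 Pool.Agent.H302R5 Pool.Agent.H541R3.ART
  Pool.Agent.W446.AS Pool.Agent.Q7.TZ

section

variable {G : Type} [Group G] [Finite G]

/-- a real function of degree two vanishes where the determinant is not one -/
lemma val_of_det {θ : G → ℂ} (hθ : IsSolHeilbronn θ) (h1 : θ 1 = 2)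
    (hr : ∀ g, θ g⁻¹ = θ g) (g : G) : dd θ g = 1 ∨ (dd θ g = -1 ∧ θ g = 0) := by
  obtain ⟨a, b, ha, hb, hp, hs, hpow⟩ := hθ.two_eig h1 g
  have h2 := hpow (-1)
  rw [zpow_neg_one, zpow_neg_one, zpow_neg_one, hr, hs] at h2
  have ha0 : a ≠ 0 := by rw [← norm_ne_zero_iff, ha]; norm_num
  have hb0 : b ≠ 0 := by rw [← norm_ne_zero_iff, hb]; norm_num
  have h3 : (a + b) * (a * b - 1) = 0 := by
    field_simp at h2
    linear_combination h2
  rcases mul_eq_zero.mp h3 with h4 | h4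
  · have hb' : b = -a := by linear_combination h4
    subst hb'
    have h5 := hpow 2
    have h6 := hpow (-2)
    have h7 : g ^ (-2 : ℤ) = (g ^ (2 : ℤ))⁻¹ := by rw [zpow_neg]
    rw [h7, hr, h5] at h6
    have h8 : a ^ (2 : ℤ) = a ^ 2 := by norm_cast
    have h9 : (-a) ^ (2 : ℤ) = a ^ 2 := by
      have : (-a) ^ (2 : ℤ) = (-a) ^ 2 := by norm_cast
      rw [this]; ring
    have h10 : a ^ (-2 : ℤ) = (a ^ 2)⁻¹ := by rw [zpow_neg, h8]
    have h11 : (-a) ^ (-2 : ℤ) = (a ^ 2)⁻¹ := by rw [zpow_neg, h9]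
    rw [h8, h9, h10, h11] at h6
    have ha2 : a ^ 2 ≠ 0 := pow_ne_zero _ ha0
    have h12 : (a ^ 2) * (a ^ 2) = 1 := by
      have h13 : a ^ 2 = (a ^ 2)⁻¹ := by linear_combination h6 / 2
      conv_lhs => rw [h13]
      conv_lhs => rw [← h13]
      rw [← h13] at h13
      nth_rewrite 2 [show a ^ 2 = (a ^ 2)⁻¹ by linear_combination h6 / 2]
      exact mul_inv_cancel₀ ha2
    rcases mul_self_eq_one_iff.mp h12 with h | h
    · right
      refine ⟨?_, by rw [hs]; ring⟩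
      rw [hp]
      linear_combination -h
    · left
      rw [hp]
      linear_combination -h
  · left
    rw [hp]
    linear_combination h4

/-- the sum of the squares -/
lemma sum_sq_eq (n : (G → ℂ) → ℤ) [Fintype G] :
    ∑ g : G, theta n g * theta n g⁻¹ = (∑ χ ∈ irrF G, (n χ : ℂ) ^ 2) * Nat.card G := by
  have h2 : ∀ g : G, theta n g * theta n g⁻¹ = ∑ χ ∈ irrF G, (n χ : ℂ) * (theta n g * χ g⁻¹) := by
    intro g
    conv_lhs => rw [theta.eq_1 (G := G) n g⁻¹]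
    rw [Finset.mul_sum]
    refine Finset.sum_congr rfl fun χ _ => by ring
  rw [Finset.sum_congr rfl (fun g _ => h2 g), Finset.sum_comm, Finset.sum_mul]
  refine Finset.sum_congr rfl fun χ hχ => ?_
  rw [← Finset.mul_sum, theta_pair n (mem_irrF.mp hχ)]
  ring

/-- the fundamental identity for real functions of degree two -/
lemma sum_sq_real (n : (G → ℂ) → ℤ) (hr : ∀ g : G, theta n g⁻¹ = theta n g) {D : G →* ℂˣ}
    (hD : ∀ g, ((D g : ℂˣ) : ℂ) = dd (theta n) g) (hne : ∃ g, D g ≠ 1) (ν : (G → ℂ) → ℤ)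
    (hν : ∀ χ ∈ Irr G, ∑ᶠ g : G, χ (g ^ 2) = ν χ * Nat.card G) :
    ∑ χ ∈ irrF G, (n χ ^ 2 - n χ * ν χ) = 0 := by
  classical
  have : Fintype G := Fintype.ofFinite G
  have hG : (Nat.card G : ℂ) ≠ 0 := by exact_mod_cast Nat.card_pos.ne'
  have e1 := sum_sq_eq (G := G) n
  have e2 : ∑ g : G, theta n (g ^ 2) = (∑ χ ∈ irrF G, (n χ : ℂ) * ν χ) * Nat.card G := by
    unfold theta
    rw [Finset.sum_comm, Finset.sum_mul]
    refine Finset.sum_congr rfl fun χ hχ => ?_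
    have h3 := hν χ (mem_irrF.mp hχ)
    rw [finsum_eq_sum_of_fintype] at h3
    rw [← Finset.mul_sum, h3]
    ring
  have e3 : ∀ g : G, theta n g * theta n g⁻¹ = 2 * ((D g : ℂˣ) : ℂ) + theta n (g ^ 2) := by
    intro g
    rw [hr, hD]
    unfold dd
    ring
  have e4 : ∑ g : G, ((D g : ℂˣ) : ℂ) = 0 := by
    obtain ⟨w, hw⟩ := hne
    have h1 : ∑ g : G, ((D (w * g) : ℂˣ) : ℂ) = ∑ g : G, ((D g : ℂˣ) : ℂ) :=
      Equiv.sum_comp (Equiv.mulLeft w) (fun g => ((D g : ℂˣ) : ℂ))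
    have h2 : ∑ g : G, ((D (w * g) : ℂˣ) : ℂ) = ((D w : ℂˣ) : ℂ) * ∑ g : G, ((D g : ℂˣ) : ℂ) := by
      rw [Finset.mul_sum]
      refine Finset.sum_congr rfl fun g _ => by rw [map_mul, Units.val_mul]
    rw [h2] at h1
    have h3 : (((D w : ℂˣ) : ℂ) - 1) * ∑ g : G, ((D g : ℂˣ) : ℂ) = 0 := by linear_combination h1
    rcases mul_eq_zero.mp h3 with h4 | h4
    · exact absurd (Units.ext (by rw [Units.val_one]; linear_combination h4)) hw
    · exact h4
  rw [Finset.sum_congr rfl (fun g _ => e3 g), Finset.sum_add_distrib, ← Finset.mul_sum, e4,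
    mul_zero, zero_add, e2] at e1
  have e5 : (∑ χ ∈ irrF G, ((n χ : ℂ) ^ 2 - n χ * ν χ)) = 0 := by
    rw [Finset.sum_sub_distrib]
    have h5 := mul_right_cancel₀ hG e1
    linear_combination -h5
  exact_mod_cast e5

/-- functions with nonnegative multiplicities and degree two -/
lemma two_split (n : (G → ℂ) → ℤ) (h1 : (theta n : G → ℂ) 1 = 2)
    (hnn : ∀ χ ∈ Irr G, 0 ≤ n χ) :
    (∃ χ ∈ Irr G, χ 1 = 1 ∧ n χ = 2 ∧ ∀ φ ∈ Irr G, φ ≠ χ → n φ = 0) ∨
    (∃ χ ∈ Irr G, ∃ ψ ∈ Irr G, χ ≠ ψ ∧ χ 1 = 1 ∧ ψ 1 = 1 ∧ n χ = 1 ∧ n ψ = 1 ∧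
      ∀ φ ∈ Irr G, φ ≠ χ → φ ≠ ψ → n φ = 0) ∨
    (∃ χ ∈ Irr G, χ 1 = 2 ∧ n χ = 1 ∧ ∀ φ ∈ Irr G, φ ≠ χ → n φ = 0) := by
  classical
  have hd' : ∀ χ : G → ℂ, ∃ d : ℕ, χ ∈ Irr G → 0 < d ∧ χ 1 = d := by
    intro χ
    by_cases h : χ ∈ Irr G
    · obtain ⟨d, hd⟩ := irr_deg_pos h
      exact ⟨d, fun _ => hd⟩
    · exact ⟨0, fun h' => absurd h' h⟩
  choose d hd using hd'
  have s1 : ∑ χ ∈ irrF G, n χ * d χ = 2 := by
    have h2 : ∑ χ ∈ irrF G, (n χ : ℂ) * d χ = 2 := by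
      rw [← h1, theta]
      refine Finset.sum_congr rfl fun χ hχ => ?_
      rw [(hd χ (mem_irrF.mp hχ)).2]
    exact_mod_cast h2
  have hterm : ∀ χ ∈ irrF G, 0 ≤ n χ * d χ := by
    intro χ hχ
    exact mul_nonneg (hnn χ (mem_irrF.mp hχ)) (by positivity)
  -- a positive coefficient
  have hpos : ∃ χ ∈ Irr G, 0 < n χ := by
    by_contra hcon
    push Not at hcon
    have h3 : ∑ χ ∈ irrF G, n χ * d χ = 0 := by
      refine Finset.sum_eq_zero fun χ hχ => ?_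
      have h4 := hcon χ (mem_irrF.mp hχ)
      have h5 := hnn χ (mem_irrF.mp hχ)
      have h6 : n χ = 0 := by omega
      rw [h6, zero_mul]
    omega
  obtain ⟨χ, hχ, hn⟩ := hpos
  have hχF := mem_irrF.mpr hχ
  have hdχ := (hd χ hχ).1
  rw [← Finset.add_sum_erase _ _ hχF] at s1
  have hrest : ∀ φ ∈ Irr G, φ ≠ χ → n φ * d φ ≤ 2 - n χ * d χ := by
    intro φ hφ hne
    have hmem : φ ∈ (irrF G).erase χ := Finset.mem_erase.mpr ⟨hne, mem_irrF.mpr hφ⟩
    have h2 := Finset.single_le_sum (f := fun φ => n φ * (d φ : ℤ))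
      (fun φ hφ => hterm φ (Finset.mem_of_mem_erase hφ)) hmem
    linarith
  have hone : ∀ φ ∈ Irr G, n φ * d φ ≤ 0 → n φ = 0 := by
    intro φ hφ h2
    have h3 := hnn φ hφ
    have h4 := (hd φ hφ).1
    have h5 : (0 : ℤ) < d φ := by exact_mod_cast h4
    nlinarith
  have hnd : n χ * d χ = 1 ∨ n χ * d χ = 2 := by
    have h2 : 0 < n χ * d χ := mul_pos hn (by exact_mod_cast hdχ)
    have h3 : 0 ≤ ∑ x ∈ (irrF G).erase χ, n x * (d x : ℤ) :=
      Finset.sum_nonneg fun φ hφ => hterm φ (Finset.mem_of_mem_erase hφ)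
    omega
  rcases hnd with h | h
  · -- one more linear character
    have hnχ : n χ = 1 := by
      have : (1 : ℤ) ≤ d χ := by exact_mod_cast hdχ
      nlinarith
    have hdχ1 : d χ = 1 := by
      rw [hnχ, one_mul] at h
      exact_mod_cast h
    have h3 : ∑ x ∈ (irrF G).erase χ, n x * (d x : ℤ) = 1 := by linarith
    have hpos2 : ∃ ψ ∈ (irrF G).erase χ, 0 < n ψ := by
      by_contra hcon
      push Not at hcon
      have h4 : ∑ x ∈ (irrF G).erase χ, n x * (d x : ℤ) = 0 := by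
        refine Finset.sum_eq_zero fun φ hφ => ?_
        have h4 := hcon φ hφ
        have h5 := hnn φ (mem_irrF.mp (Finset.mem_of_mem_erase hφ))
        have h6 : n φ = 0 := by omega
        rw [h6, zero_mul]
      omega
    obtain ⟨ψ, hψ, hnψ⟩ := hpos2
    have hψI := mem_irrF.mp (Finset.mem_of_mem_erase hψ)
    have hψne := (Finset.mem_erase.mp hψ).1
    have hdψ := (hd ψ hψI).1
    have h5 := hrest ψ hψI hψne
    have h6 : (1 : ℤ) ≤ d ψ := by exact_mod_cast hdψ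
    have h7 : n ψ = 1 := by nlinarith
    have h8 : d ψ = 1 := by
      have : (d ψ : ℤ) = 1 := by nlinarith
      exact_mod_cast this
    right; left
    refine ⟨χ, hχ, ψ, hψI, fun he => hψne he.symm, ?_, ?_, hnχ, h7, ?_⟩
    · rw [(hd χ hχ).2, hdχ1]; simp
    · rw [(hd ψ hψI).2, h8]; simp
    · intro φ hφ h9 h10
      apply hone φ hφ
      rw [← Finset.add_sum_erase _ _ hψ, h7, h8] at h3
      have hmem : φ ∈ ((irrF G).erase χ).erase ψ :=
        Finset.mem_erase.mpr ⟨h10, Finset.mem_erase.mpr ⟨h9, mem_irrF.mpr hφ⟩⟩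
      have h11 := Finset.single_le_sum (f := fun φ => n φ * (d φ : ℤ))
        (fun φ hφ => hterm φ (Finset.mem_of_mem_erase (Finset.mem_of_mem_erase hφ))) hmem
      push_cast at h3
      linarith
  · have hz : ∀ φ ∈ Irr G, φ ≠ χ → n φ = 0 := by
      intro φ hφ hne
      apply hone φ hφ
      have := hrest φ hφ hne
      rw [h] at this
      linarith
    by_cases hd1 : d χ = 1
    · left
      refine ⟨χ, hχ, by rw [(hd χ hχ).2, hd1]; simp, ?_, hz⟩
      rw [hd1] at h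
      push_cast at h
      linarith
    · right; right
      have h2 : 2 ≤ d χ := by omega
      have h3 : (2 : ℤ) ≤ d χ := by exact_mod_cast h2
      have h4 : n χ = 1 := by nlinarith
      have h5 : d χ = 2 := by
        rw [h4, one_mul] at h
        exact_mod_cast h
      exact ⟨χ, hχ, by rw [(hd χ hχ).2, h5]; simp, h4, hz⟩

/-- Real functions of degree two with even multiplicities of the symplectic characters: all
multiplicities are nonnegative. -/
theorem central_nonneg (n : (G → ℂ) → ℤ) (hθ : IsSolHeilbronn (theta n : G → ℂ))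
    (h1 : (theta n : G → ℂ) 1 = 2) (hr : ∀ g : G, theta n g⁻¹ = theta n g)
    (hev : ∀ χ ∈ Irr G, Sy χ → Even (n χ)) :
    ∃ D : G →* ℂˣ, (∀ g, ((D g : ℂˣ) : ℂ) = dd (theta n) g) ∧
    (∀ g, D g = 1 ∨ (((D g : ℂˣ) : ℂ) = -1 ∧ theta n g = 0)) ∧ (∀ χ ∈ Irr G, 0 ≤ n χ) ∧
    ((∀ g, D g = 1) → ∀ χ ∈ Irr G, χ 1 ≠ 1 → n χ = 0) := by
  classical
  obtain ⟨D, hD⟩ := hθ.exists_det h1
  have hval : ∀ g, D g = 1 ∨ (((D g : ℂˣ) : ℂ) = -1 ∧ theta n g = 0) := by
    intro g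
    rcases val_of_det hθ h1 hr g with h | h
    · left
      apply Units.ext
      rw [hD, h, Units.val_one]
    · right
      exact ⟨by rw [hD, h.1], h.2⟩
  refine ⟨D, hD, hval, ?_⟩
  by_cases hD1 : ∀ g, D g = 1
  · have hd : ∀ g : G, dd (theta n) g = 1 := by
      intro g
      rw [← hD, hD1, Units.val_one]
    obtain ⟨χ₀, hχ₀, hn0, hoth, hcase⟩ := pattern n hθ h1 hd
    have hz : ∀ χ ∈ Irr G, χ ≠ χ₀ → χ ≠ (fun g => χ₀ g⁻¹) → n χ = 0 := by
      intro χ hχ h2 h3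
      rcases hoth χ hχ h2 h3 with h | ⟨h, h4, h5⟩
      · exact h
      · have := hev χ hχ ⟨h4, h5⟩
        rw [h] at this
        exact absurd this (by decide)
    have hn1 := n_conj n hr hχ₀
    have hnn : ∀ χ ∈ Irr G, 0 ≤ n χ := by
      intro χ hχ
      by_cases h2 : χ = χ₀
      · rw [h2]; omega
      · by_cases h3 : χ = (fun g => χ₀ g⁻¹)
        · rw [h3, hn1]; omega
        · rw [hz χ hχ h2 h3]
    refine ⟨hnn, fun _ χ hχ h1χ => ?_⟩
    rcases two_split n h1 hnn with ⟨φ, hφ, e1, e2, e3⟩ | ⟨φ, hφ, ψ, hψ, hne, e1, e2, e3, e4, e5⟩ |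
      ⟨φ, hφ, e1, e2, e3⟩
    · apply e3 χ hχ
      rintro rfl
      exact h1χ e1
    · apply e5 χ hχ
      · rintro rfl; exact h1χ e1
      · rintro rfl; exact h1χ e2
    · exfalso
      have h2 : φ = χ₀ := by
        by_contra hne
        rw [e3 χ₀ hχ₀ (fun h => hne h.symm)] at hn0
        omega
      subst h2
      rcases hcase with ⟨h, -⟩ | ⟨h, h4, h5⟩ | ⟨h, h4, h5⟩
      · omega
      · have := hev φ hφ ⟨h4, h5⟩
        rw [h] at this
        exact absurd this (by decide)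
      · have h6 : (fun g => φ g⁻¹) ≠ φ := by
          intro h7
          obtain ⟨g, hg⟩ := h5
          exact hg (congrFun h7 g)
        rw [e3 _ (Pool.Agent.Q7.DB.irr_inv hφ) h6] at h4
        omega
  · refine ⟨?_, fun h => absurd h hD1⟩
    push Not at hD1
    have hν' : ∀ χ : G → ℂ, ∃ ν : ℤ, χ ∈ Irr G → (∑ᶠ g, χ (g ^ 2) = ν * Nat.card G) ∧
      ((ν = 1 ∧ OrthRep χ ∧ ∀ g, χ g⁻¹ = χ g) ∨ (ν = -1 ∧ ∀ g, χ g⁻¹ = χ g) ∨
        (ν = 0 ∧ ∃ g, χ g⁻¹ ≠ χ g)) := by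
      intro χ
      by_cases h : χ ∈ Irr G
      · obtain ⟨ν, hν⟩ := nu_exists h
        exact ⟨ν, fun _ => hν⟩
      · exact ⟨0, fun h' => absurd h' h⟩
    choose ν hν using hν'
    have hsum := sum_sq_real n hr hD hD1 ν (fun χ hχ => (hν χ hχ).1)
    have hnn : ∀ χ ∈ irrF G, 0 ≤ n χ ^ 2 - n χ * ν χ := by
      intro χ hχ
      rcases (hν χ (mem_irrF.mp hχ)).2 with ⟨h, -⟩ | ⟨h, -⟩ | ⟨h, -⟩ <;> rw [h]
      · rcases le_or_gt (n χ) 0 with h2 | h2 <;> nlinarith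
      · rcases le_or_gt (n χ) (-1) with h2 | h2 <;> nlinarith
      · nlinarith
    have hz := (Finset.sum_eq_zero_iff_of_nonneg hnn).mp hsum
    intro χ hχ
    have h0 := hz χ (mem_irrF.mpr hχ)
    have h0' : n χ * (n χ - ν χ) = 0 := by linear_combination h0
    rcases mul_eq_zero.mp h0' with h2 | h2
    · omega
    · have hsumχ := (hν χ hχ).1
      rcases (hν χ hχ).2 with ⟨h, -⟩ | ⟨h, hr'⟩ | ⟨h, -⟩
      · omega
      · exfalso
        have h3 : Sy χ := ⟨hr', by rw [hsumχ, h]; push_cast; ring⟩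
        have h4 := hev χ hχ h3
        have h5 : n χ = -1 := by omega
        rw [h5] at h4
        exact absurd h4 (by decide)
      · omega

end

end Pool.Agent.Q7.SZ
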