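import Mathlib
import Pool.Agent.Q7.SZ.Cen

/-!
# Twisted L-functions near a point
-/

set_option autoImplicit false
set_option linter.unusedSectionVars false

namespace Pool.Agent.Q7.SZ

open Pool.Agent.H302R2 Pool.Agent.H302R3 Pool.Agent.H302R5 Pool.Agent.H541R3.ART
  Pool.Agent.W446.AS Pool.Agent.Q7.TZ Filter Topology

/-- Functions near `s₀` with the formal properties of the twisted L-functions of an object `E` over a
number field `K` and a Galois extension `M/K` with group `G` over which `E` becomes automorphic: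
`L χ` stands for `L(E ⊗ χ, s)`, `χ` an irreducible character of `G`, and `Lin H ψ` for the
L-function of `E ⊗ ψ` over the fixed field of the subgroup `H`, for a linear character `ψ` of `H`.
Holomorphy is required for SOLVABLE subgroups `H` only (then `E` is automorphic over the fixed field
of `H`, by cyclic base change). -/
structure TwistData (G : Type) [Group G] (s₀ : ℂ) where
  L : (G → ℂ) → ℂ → ℂ
  Lin : (H : Subgroup G) → (H →* ℂˣ) → ℂ → ℂ
  /-- meromorphic and not identically zero near `s₀` (Brauer) -/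
  mero : ∀ χ ∈ Irr G, MeromorphicAt (L χ) s₀ ∧ meromorphicOrderAt (L χ) s₀ ≠ ⊤
  /-- no pole at `s₀`, for linear characters of solvable subgroups -/
  hol : ∀ (H : Subgroup G) (ψ : H →* ℂˣ), Group.IsSolvable H →
    0 ≤ meromorphicOrderAt (Lin H ψ) s₀
  /-- induction: `Lin H ψ` is the product of the `L χ ^ ⟨χ|_H, ψ⟩` -/
  induce : ∀ (H : Subgroup G) (ψ : H →* ℂˣ) (m : (G → ℂ) → ℕ),
    (∀ χ ∈ Irr G, ∑ᶠ h : H, χ h * (((ψ h)⁻¹ : ℂˣ) : ℂ) = (m χ : ℂ) * (Nat.card H : ℂ)) →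
    Lin H ψ =ᶠ[𝓝[≠] s₀] fun s => ∏ᶠ χ ∈ Irr G, L χ s ^ m χ

namespace TwistData

variable {G : Type} [Group G] [Finite G] {s₀ : ℂ} (A : TwistData G s₀)

/-- the orders at `s₀` -/
noncomputable def ord (χ : G → ℂ) : ℤ := (meromorphicOrderAt (A.L χ) s₀).untop₀

lemma coe_ord {χ : G → ℂ} (hχ : χ ∈ Irr G) :
    (A.ord χ : WithTop ℤ) = meromorphicOrderAt (A.L χ) s₀ :=
  WithTop.coe_untop₀_of_ne_top (A.mero χ hχ).2

lemma order_Lin (H : Subgroup G) (ψ : H →* ℂˣ) (m : (G → ℂ) → ℕ)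
    (hm : ∀ χ ∈ Irr G, ∑ᶠ h : H, χ h * (((ψ h)⁻¹ : ℂˣ) : ℂ) = (m χ : ℂ) * (Nat.card H : ℂ)) :
    meromorphicOrderAt (A.Lin H ψ) s₀ = ((∑ χ ∈ irrF G, (m χ : ℤ) * A.ord χ : ℤ) : WithTop ℤ) := by
  classical
  rw [meromorphicOrderAt_congr (A.induce H ψ m hm)]
  have h1 : (fun s => ∏ᶠ χ ∈ Irr G, A.L χ s ^ m χ)
      = fun s => ∏ χ ∈ irrF G, (A.L χ ^ m χ) s := by
    funext s
    rw [finprod_mem_eq_finite_toFinset_prod _ (irr_finite (G := G))]
    rfl
  rw [h1, meromorphicOrderAt_fun_prod (fun χ hχ => ((A.mero χ (mem_irrF.mp hχ)).1).pow _)]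
  rw [WithTop.coe_sum]
  refine Finset.sum_congr rfl fun χ hχ => ?_
  rw [meromorphicOrderAt_pow ((A.mero χ (mem_irrF.mp hχ)).1), ← A.coe_ord (mem_irrF.mp hχ)]
  push_cast
  rfl

/-- the order of `Lin H ψ` as a multiplicity -/
lemma order_mult (H : Subgroup G) (ψ : H →* ℂˣ) : ∃ k : ℤ,
    meromorphicOrderAt (A.Lin H ψ) s₀ = (k : WithTop ℤ) ∧
    ∑ᶠ h : H, theta A.ord h * (((ψ h)⁻¹ : ℂˣ) : ℂ) = (k : ℂ) * (Nat.card H : ℂ) := by
  classical
  choose! m hm using fun χ (hχ : χ ∈ Irr G) => exists_mult hχ H ψ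
  exact ⟨_, A.order_Lin H ψ m hm, theta_mult A.ord H ψ m hm⟩

theorem isSol : IsSolHeilbronn (theta A.ord : G → ℂ) where
  conj g h := by
    unfold theta
    exact Finset.sum_congr rfl fun χ hχ => by rw [Irr.conj (mem_irrF.mp hχ)]
  mult H hH ψ := by
    obtain ⟨k, hk1, hk2⟩ := A.order_mult H ψ
    have h := A.hol H ψ hH
    rw [hk1] at h
    have h2 : 0 ≤ k := by exact_mod_cast h
    obtain ⟨m, rfl⟩ := Int.eq_ofNat_of_zero_le h2
    exact ⟨m, by rw [hk2]; push_cast; ring⟩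

/-- the value at `1` is the order of the L-function over the top field -/
lemma theta_one {r : ℕ} (hr : meromorphicOrderAt (A.Lin ⊥ 1) s₀ = (r : WithTop ℤ)) :
    (theta A.ord : G → ℂ) 1 = r := by
  classical
  obtain ⟨k, hk1, hk2⟩ := A.order_mult ⊥ 1
  rw [hr] at hk1
  have hk3 : (k : ℤ) = (r : ℤ) := by
    have : ((r : ℤ) : WithTop ℤ) = (k : WithTop ℤ) := by rw [← hk1]; rfl
    exact (WithTop.coe_injective this).symm
  rw [hk3] at hk2
  have : Fintype (⊥ : Subgroup G) := Fintype.ofFinite _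
  rw [finsum_eq_sum_of_fintype, Fintype.sum_eq_single (1 : (⊥ : Subgroup G))] at hk2
  · simpa using hk2
  · intro x hx
    exact absurd (Subtype.ext (Subgroup.mem_bot.mp x.2)) hx

/-- for orders at most two the holomorphy holds for all subgroups -/
noncomputable def toArtin {r : ℕ} (hr2 : r ≤ 2)
    (hr : meromorphicOrderAt (A.Lin ⊥ 1) s₀ = (r : WithTop ℤ)) : ArtinData G s₀ where
  L := A.L
  Lin := A.Lin
  mero := A.mero
  hecke H ψ := by
    obtain ⟨k, hk1, hk2⟩ := A.order_mult H ψ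
    obtain ⟨m, hm⟩ := (heil_of_sol A.isSol (theta_virt A.ord) hr2 (A.theta_one hr)).mult H ψ
    rw [hk2] at hm
    have h1 : (Nat.card H : ℂ) ≠ 0 := by exact_mod_cast Nat.card_pos.ne'
    have h2 : (k : ℂ) = (m : ℂ) := mul_right_cancel₀ h1 hm
    have h3 : k = (m : ℤ) := by exact_mod_cast h2
    rw [hk1, h3]
    exact_mod_cast Int.natCast_nonneg m
  induce := A.induce

end TwistData

/-- The functional equation at the centre `s = 1`: `gam χ` is the factor `N ^ (s / 2) Γ(s)` of the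
completed L-function, `W χ` the root number. The root number of a symplectic character is `1`. -/
structure FunEq {G : Type} [Group G] (A : TwistData G 1) where
  gam : (G → ℂ) → ℂ → ℂ
  gam_an : ∀ χ ∈ Irr G, AnalyticAt ℂ (gam χ) 1 ∧ gam χ 1 ≠ 0
  W : (G → ℂ) → ℂ
  W_ne : ∀ χ ∈ Irr G, W χ ≠ 0
  /-- `Λ(χ, s) = W(χ) Λ(χ̄, 2 - s)` -/
  fe : ∀ χ ∈ Irr G, (fun s => gam χ s * A.L χ s) =ᶠ[𝓝[≠] 1]
    fun s => W χ * (gam χ (2 - s) * A.L (fun g => χ g⁻¹) (2 - s))
  W_symp : ∀ χ ∈ Irr G, Sy χ → W χ = 1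

section

variable {G : Type} [Group G] [Finite G]

lemma an_refl : AnalyticAt ℂ (fun s : ℂ => 2 - s) 1 := by fun_prop

lemma deriv_refl : deriv (fun s : ℂ => 2 - s) 1 ≠ 0 := by
  have : HasDerivAt (fun s : ℂ => 2 - s) (-1) 1 := by
    simpa using (hasDerivAt_id (1 : ℂ)).const_sub 2
  rw [this.deriv]
  norm_num

lemma order_refl (f : ℂ → ℂ) :
    meromorphicOrderAt (fun s => f (2 - s)) 1 = meromorphicOrderAt f 1 := by
  have h := meromorphicOrderAt_comp_of_deriv_ne_zero (f := f) an_refl deriv_refl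
  have h1 : (2 : ℂ) - 1 = 1 := by norm_num
  simp only [h1] at h
  exact h

lemma order_gam {g f : ℂ → ℂ} (hg : AnalyticAt ℂ g 1) (hg0 : g 1 ≠ 0) :
    meromorphicOrderAt (fun s => g s * f s) 1 = meromorphicOrderAt f 1 := by
  have h1 : meromorphicOrderAt (g * f) 1 = meromorphicOrderAt f 1 :=
    meromorphicOrderAt_mul_of_ne_zero hg hg0
  exact h1

namespace FunEq

variable {A : TwistData G 1} (F : FunEq A)

include F in
/-- contragredient characters have the same order at the centre -/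
lemma ord_inv {χ : G → ℂ} (hχ : χ ∈ Irr G) : A.ord (fun g => χ g⁻¹) = A.ord χ := by
  have hχ' := Pool.Agent.Q7.DB.irr_inv hχ
  have h1 : meromorphicOrderAt (A.L χ) 1 = meromorphicOrderAt (A.L (fun g => χ g⁻¹)) 1 := by
    rw [← order_gam (f := A.L χ) (F.gam_an χ hχ).1 (F.gam_an χ hχ).2,
      meromorphicOrderAt_congr (F.fe χ hχ)]
    rw [order_gam (g := fun _ => F.W χ)
      (f := fun s => F.gam χ (2 - s) * A.L (fun g => χ g⁻¹) (2 - s)) analyticAt_const
      (F.W_ne χ hχ)]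
    rw [order_refl (fun s => F.gam χ s * A.L (fun g => χ g⁻¹) s)]
    exact order_gam (F.gam_an χ hχ).1 (F.gam_an χ hχ).2
  rw [← A.coe_ord hχ, ← A.coe_ord hχ'] at h1
  exact_mod_cast h1.symm

include F in
/-- the order of a symplectic character is even -/
lemma ord_even {χ : G → ℂ} (hχ : χ ∈ Irr G) (hs : Sy χ) : Even (A.ord χ) := by
  have hreal : (fun g => χ g⁻¹) = χ := funext hs.1
  have hfe := F.fe χ hχ
  rw [hreal, F.W_symp χ hχ hs] at hfe
  set f : ℂ → ℂ := fun s => F.gam χ s * A.L χ s with hf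
  have hfm : MeromorphicAt f 1 := ((F.gam_an χ hχ).1.meromorphicAt).mul (A.mero χ hχ).1
  have hord : meromorphicOrderAt f 1 = (A.ord χ : WithTop ℤ) := by
    rw [A.coe_ord hχ]
    exact order_gam (F.gam_an χ hχ).1 (F.gam_an χ hχ).2
  obtain ⟨g, hg, hg0, hfg⟩ := (meromorphicOrderAt_eq_int_iff hfm).mp hord
  set n := A.ord χ with hn
  -- reflection
  have hcont : Tendsto (fun s : ℂ => 2 - s) (𝓝 1) (𝓝 1) := by
    have h1 : ContinuousAt (fun s : ℂ => 2 - s) 1 := by fun_prop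
    have h2 : (2 : ℂ) - 1 = 1 := by norm_num
    have h3 := h1.tendsto
    rw [h2] at h3
    exact h3
  have hcont' : Tendsto (fun s : ℂ => 2 - s) (𝓝[≠] 1) (𝓝[≠] 1) := by
    rw [tendsto_nhdsWithin_iff]
    refine ⟨hcont.mono_left nhdsWithin_le_nhds, ?_⟩
    filter_upwards [self_mem_nhdsWithin] with s h1
    intro h2
    apply h1
    have h3 : (2 : ℂ) - s = 1 := h2
    change s = 1
    linear_combination -h3
  have hrel : ∀ᶠ s in 𝓝[≠] (1 : ℂ), g s = (-1) ^ n * g (2 - s) := by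
    filter_upwards [hfe, hfg, hcont'.eventually hfg, self_mem_nhdsWithin] with s h1 h2 h3 h4
    have h5 : f s = f (2 - s) := by
      rw [one_mul] at h1
      exact h1
    rw [h2, h3, smul_eq_mul, smul_eq_mul] at h5
    have h6 : s - 1 ≠ 0 := sub_ne_zero.mpr h4
    have h7 : (2 - s - 1 : ℂ) = (-1) * (s - 1) := by ring
    rw [h7, mul_zpow, mul_assoc, mul_left_comm] at h5
    exact mul_left_cancel₀ (zpow_ne_zero n h6) h5
  have hlim1 : Tendsto g (𝓝[≠] 1) (𝓝 (g 1)) := hg.continuousAt.tendsto.mono_left nhdsWithin_le_nhds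
  have hlim2 : Tendsto (fun s => (-1) ^ n * g (2 - s)) (𝓝[≠] 1) (𝓝 ((-1) ^ n * g 1)) := by
    refine Tendsto.const_mul _ ?_
    exact hg.continuousAt.tendsto.comp (hcont.mono_left nhdsWithin_le_nhds)
  have hlim3 : Tendsto g (𝓝[≠] 1) (𝓝 ((-1) ^ n * g 1)) := by
    refine hlim2.congr' ?_
    filter_upwards [hrel] with s h1
    exact h1.symm
  have heq := tendsto_nhds_unique hlim1 hlim3
  by_contra hodd
  rw [Int.not_even_iff_odd] at hodd
  rw [hodd.neg_one_zpow] at heq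
  apply hg0
  have h2 : (2 : ℂ) * g 1 = 0 := by linear_combination heq
  exact (mul_eq_zero.mp h2).resolve_left two_ne_zero

include F in
lemma theta_real (g : G) : (theta A.ord : G → ℂ) g⁻¹ = (theta A.ord : G → ℂ) g := by
  classical
  unfold theta
  refine Finset.sum_nbij' (fun χ => fun g => χ g⁻¹) (fun χ => fun g => χ g⁻¹) ?_ ?_ ?_ ?_ ?_
  · intro χ hχ
    rw [mem_irrF] at hχ ⊢
    exact Pool.Agent.Q7.DB.irr_inv hχ
  · intro χ hχ
    rw [mem_irrF] at hχ ⊢
    exact Pool.Agent.Q7.DB.irr_inv hχ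
  · intro χ _
    funext g
    simp
  · intro χ _
    funext g
    simp
  · intro χ hχ
    rw [mem_irrF] at hχ
    rw [F.ord_inv hχ]

end FunEq

end

end Pool.Agent.Q7.SZ
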