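import Mathlib
import Pool.Agent.Q7.SZ.Ell

/-!
# The structure of real functions of degree two
-/

set_option autoImplicit false
set_option linter.unusedSectionVars false

namespace Pool.Agent.Q7.SZ

open Pool.Agent.H302R2 Pool.Agent.H302R3 Pool.Agent.H302R5 Pool.Agent.H541R3.ART
  Pool.Agent.W446.AS Pool.Agent.Q7.TZ

section

variable {G : Type} [Group G] [Finite G]

/-- an irreducible character of degree one -/
lemma exists_lin {χ : G → ℂ} (hχ : χ ∈ Irr G) (h1 : χ 1 = 1) :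
    ∃ μ : G →* ℂˣ, χ = fun g => ((μ g : ℂˣ) : ℂ) := by
  obtain ⟨μ, hμ⟩ := (irr_heilbronn hχ).deg_one h1
  exact ⟨μ, funext hμ⟩

/-- irreducible characters of degree two which vanish off a subgroup of index two on which the
determinant is trivial -/
theorem dihedral_form {χ₀ : G → ℂ} (hχ₀ : χ₀ ∈ Irr G) (h1 : χ₀ 1 = 2) {D : G →* ℂˣ}
    (hD : ∀ g, ((D g : ℂˣ) : ℂ) = dd χ₀ g)
    (hval : ∀ g, D g = 1 ∨ (((D g : ℂˣ) : ℂ) = -1 ∧ χ₀ g = 0)) (hne : ∃ g, D g ≠ 1) :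
    ∃ l : D.ker →* ℂˣ, l ≠ l⁻¹ ∧
      (∀ x : D.ker, χ₀ x = ((l x : ℂˣ) : ℂ) + (((l x)⁻¹ : ℂˣ) : ℂ)) := by
  classical
  have : Fintype G := Fintype.ofFinite G
  have : Fintype D.ker := Fintype.ofFinite _
  have hN : (Nat.card D.ker : ℂ) ≠ 0 := by exact_mod_cast Nat.card_pos.ne'
  obtain ⟨w, hw⟩ := hne
  have hwv : ((D w : ℂˣ) : ℂ) = -1 := by
    rcases hval w with h | h
    · exact absurd h hw
    · exact h.1
  -- the index
  have hidx : Nat.card G = 2 * Nat.card D.ker := by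
    have h7 : Nat.card {u : G // u ∉ D.ker} = Nat.card D.ker := by
      refine Nat.card_congr
        { toFun := fun u => ⟨w * u.1, ?_⟩
          invFun := fun a => ⟨w⁻¹ * a.1, fun h => hw ?_⟩
          left_inv := fun u => Subtype.ext (inv_mul_cancel_left _ _)
          right_inv := fun a => Subtype.ext (mul_inv_cancel_left _ _) }
      · rw [MonoidHom.mem_ker]
        rcases hval u.1 with h | h
        · exact absurd (MonoidHom.mem_ker.mpr h) u.2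
        · apply Units.ext
          rw [map_mul, Units.val_mul, hwv, h.1, Units.val_one]
          norm_num
      · have h8 := D.ker.mul_mem a.2 (D.ker.inv_mem h)
        rw [mul_inv_rev, inv_inv, mul_inv_cancel_left] at h8
        exact MonoidHom.mem_ker.mp h8
    have h8 : Nat.card G = Nat.card {u : G // u ∈ D.ker} + Nat.card {u : G // u ∉ D.ker} := by
      rw [← Nat.card_sum]
      exact Nat.card_congr (Equiv.sumCompl (· ∈ D.ker)).symm
    rw [h8, h7]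
    change Nat.card D.ker + Nat.card D.ker = _
    ring
  -- the restriction
  have hv : Virt (fun x : D.ker => χ₀ x) :=
    Virt.comp (AddSubgroup.subset_closure hχ₀) D.ker.subtype
  obtain ⟨n, hn, hpr⟩ := virt_theta hv
  have hn1 : (theta n : D.ker → ℂ) 1 = 2 := by
    rw [← hn]
    exact h1
  have hnn : ∀ ψ ∈ Irr D.ker, 0 ≤ n ψ := by
    intro ψ hψ
    obtain ⟨m, hm⟩ := exists_mult_irr hχ₀ D.ker hψ
    have h2 := hpr ψ hψ
    rw [pr_eq] at h2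
    rw [finsum_eq_sum_of_fintype] at hm
    rw [hm] at h2
    have h3 : ((n ψ : ℤ) : ℂ) = (m : ℂ) := by
      rw [← h2]
      field_simp
    have h4 : n ψ = (m : ℤ) := by exact_mod_cast h3
    omega
  -- the sum of the squares
  have hsq : ∑ χ ∈ irrF D.ker, n χ ^ 2 = 2 := by
    have e1 := sum_sq_eq (G := D.ker) n
    rw [← hn] at e1
    have e2 : ∑ x : D.ker, χ₀ x * χ₀ ((x⁻¹ : D.ker) : G) = ∑ g : G, χ₀ g * χ₀ g⁻¹ := by
      rw [← Finset.sum_subset (Finset.subset_univ (Finset.univ.filter (· ∈ D.ker)))]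
      · exact (Finset.sum_subtype _ (by simp) (fun u : G => χ₀ u * χ₀ u⁻¹)).symm
      · intro u _ hu
        have hu' : u ∉ D.ker := by simpa using hu
        rcases hval u with h | h
        · exact absurd (MonoidHom.mem_ker.mpr h) hu'
        · rw [h.2, zero_mul]
    rw [e2, pair_self hχ₀, hidx] at e1
    push_cast at e1
    have e3 : (∑ χ ∈ irrF D.ker, (n χ : ℂ) ^ 2) = 2 := (mul_right_cancel₀ hN e1).symm
    exact_mod_cast e3
  have hle : ∀ S : Finset (D.ker → ℂ), S ⊆ irrF D.ker → ∑ χ ∈ S, n χ ^ 2 ≤ 2 := by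
    intro S hS
    rw [← hsq]
    exact Finset.sum_le_sum_of_subset_of_nonneg hS (fun χ _ _ => sq_nonneg _)
  rcases two_split n hn1 hnn with ⟨φ, hφ, e1, e2, e3⟩ | ⟨φ, hφ, ψ, hψ, hne', e1, e2, e3, e4, e5⟩ |
    ⟨φ, hφ, e1, e2, e3⟩
  · exfalso
    have h2 := hle {φ} (by simpa using mem_irrF.mpr hφ)
    rw [Finset.sum_singleton, e2] at h2
    norm_num at h2
  · obtain ⟨l, rfl⟩ := exists_lin hφ e1
    obtain ⟨l', rfl⟩ := exists_lin hψ e2
    have hform : ∀ x : D.ker, χ₀ x = ((l x : ℂˣ) : ℂ) + ((l' x : ℂˣ) : ℂ) := by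
      intro x
      have h2 : χ₀ x = theta n x := congrFun hn x
      rw [h2, theta]
      have hsub : ({(fun g => ((l g : ℂˣ) : ℂ)), (fun g => ((l' g : ℂˣ) : ℂ))}
          : Finset (D.ker → ℂ)) ⊆ irrF D.ker := by
        intro y hy
        rcases Finset.mem_insert.mp hy with h | h
        · rw [h]; exact mem_irrF.mpr hφ
        · rw [Finset.mem_singleton.mp h]; exact mem_irrF.mpr hψ
      rw [← Finset.sum_subset hsub, Finset.sum_pair hne', e3, e4]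
      · simp
      · intro y hy hy'
        simp only [Finset.mem_insert, Finset.mem_singleton, not_or] at hy'
        rw [e5 y (mem_irrF.mp hy) hy'.1 hy'.2]
        simp
    have hdet : ∀ x : D.ker, ((l x : ℂˣ) : ℂ) * ((l' x : ℂˣ) : ℂ) = 1 := by
      intro x
      have h2 := dd_of_sum (θ := fun x : D.ker => χ₀ x) hform x
      rw [← h2]
      have h3 : dd (fun x : D.ker => χ₀ x) x = dd χ₀ x := rfl
      rw [h3, ← hD, MonoidHom.mem_ker.mp x.2, Units.val_one]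
    have hl' : ∀ x, ((l' x : ℂˣ) : ℂ) = (((l x)⁻¹ : ℂˣ) : ℂ) := by
      intro x
      rw [Units.val_inv_eq_inv_val]
      exact eq_inv_of_mul_eq_one_right (hdet x)
    refine ⟨l, ?_, fun x => by rw [hform, hl']⟩
    intro h
    apply hne'
    funext x
    rw [hl' x]
    have := congrArg (fun f : D.ker →* ℂˣ => ((f x : ℂˣ) : ℂ)) h
    exact this
  · exfalso
    have h2 : ∑ χ ∈ irrF D.ker, n χ ^ 2 = 1 := by
      rw [Finset.sum_eq_single φ]
      · rw [e2]; norm_num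
      · intro y hy hne'
        rw [e3 y (mem_irrF.mp hy) hne']
        norm_num
      · intro h; exact absurd (mem_irrF.mpr hφ) h
    omega

/-- **The structure of central functions of degree two**, with the determinant -/
theorem central_shape' (n : (G → ℂ) → ℤ) (hθ : IsSolHeilbronn (theta n : G → ℂ))
    (h1 : (theta n : G → ℂ) 1 = 2) (hr : ∀ g : G, theta n g⁻¹ = theta n g)
    (hev : ∀ χ ∈ Irr G, Sy χ → Even (n χ)) :
    (∃ μ : G →* ℂˣ, μ * μ = 1 ∧ n (fun g => ((μ g : ℂˣ) : ℂ)) = 2 ∧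
      ∀ χ ∈ Irr G, χ ≠ (fun g => ((μ g : ℂˣ) : ℂ)) → n χ = 0) ∨
    (∃ μ ν : G →* ℂˣ, μ ≠ ν ∧ ((μ * μ = 1 ∧ ν * ν = 1) ∨ μ * ν = 1) ∧
      n (fun g => ((μ g : ℂˣ) : ℂ)) = 1 ∧ n (fun g => ((ν g : ℂˣ) : ℂ)) = 1 ∧
      ∀ χ ∈ Irr G, χ ≠ (fun g => ((μ g : ℂˣ) : ℂ)) → χ ≠ (fun g => ((ν g : ℂˣ) : ℂ)) → n χ = 0) ∨
    (∃ χ₀ ∈ Irr G, n χ₀ = 1 ∧ (∀ χ ∈ Irr G, χ ≠ χ₀ → n χ = 0) ∧
      ∃ D : G →* ℂˣ, (∀ g, ((D g : ℂˣ) : ℂ) = dd χ₀ g) ∧
        D ≠ 1 ∧ D * D = 1 ∧ (∀ g, D g ≠ 1 → χ₀ g = 0) ∧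
        ∃ l : D.ker →* ℂˣ, l ≠ l⁻¹ ∧
          ∀ x : D.ker, χ₀ x = ((l x : ℂˣ) : ℂ) + (((l x)⁻¹ : ℂˣ) : ℂ)) := by
  classical
  obtain ⟨D, hD, hval, hnn, hlin⟩ := central_nonneg n hθ h1 hr hev
  have hinvlin : ∀ μ : G →* ℂˣ, (fun g => ((μ g⁻¹ : ℂˣ) : ℂ)) = fun g => ((μ⁻¹ g : ℂˣ) : ℂ) := by
    intro μ
    funext g
    rw [map_inv]
    rfl
  have hinj : ∀ μ ν : G →* ℂˣ, (fun g => ((μ g : ℂˣ) : ℂ)) = (fun g => ((ν g : ℂˣ) : ℂ)) → μ = ν := by
    intro μ ν h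
    ext g
    exact congrFun h g
  have hconj : ∀ μ : G →* ℂˣ, n (fun g => ((μ⁻¹ g : ℂˣ) : ℂ)) = n (fun g => ((μ g : ℂˣ) : ℂ)) := by
    intro μ
    have := n_conj n hr (lin_irr μ)
    rw [← this]
    congr 1
    exact (hinvlin μ).symm
  rcases two_split n h1 hnn with ⟨φ, hφ, e1, e2, e3⟩ | ⟨φ, hφ, ψ, hψ, hne', e1, e2, e3, e4, e5⟩ |
    ⟨φ, hφ, e1, e2, e3⟩
  · left
    obtain ⟨μ, rfl⟩ := exists_lin hφ e1
    refine ⟨μ, ?_, e2, e3⟩
    by_contra hcon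
    have h2 : (fun g => ((μ⁻¹ g : ℂˣ) : ℂ)) ≠ fun g => ((μ g : ℂˣ) : ℂ) := by
      intro h
      apply hcon
      have h3 := hinj _ _ h
      calc μ * μ = μ⁻¹ * μ := by rw [h3]
        _ = 1 := inv_mul_cancel μ
    have h3 := e3 _ (lin_irr μ⁻¹) h2
    rw [hconj, e2] at h3
    norm_num at h3
  · right; left
    obtain ⟨μ, rfl⟩ := exists_lin hφ e1
    obtain ⟨ν, rfl⟩ := exists_lin hψ e2
    refine ⟨μ, ν, fun h => hne' (by rw [h]), ?_, e3, e4, e5⟩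
    by_cases h2 : μ⁻¹ = ν
    · right
      rw [← h2]
      exact mul_inv_cancel μ
    · left
      have key : ∀ μ ν : G →* ℂˣ, μ⁻¹ ≠ ν → n (fun g => ((μ g : ℂˣ) : ℂ)) = 1 →
          (∀ χ ∈ Irr G, χ ≠ (fun g => ((μ g : ℂˣ) : ℂ)) → χ ≠ (fun g => ((ν g : ℂˣ) : ℂ)) →
            n χ = 0) → μ * μ = 1 := by
        intro μ ν h2 h3 h4
        by_contra hcon
        have h5 : (fun g => ((μ⁻¹ g : ℂˣ) : ℂ)) ≠ fun g => ((μ g : ℂˣ) : ℂ) := by
          intro h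
          apply hcon
          have h3 := hinj _ _ h
          calc μ * μ = μ⁻¹ * μ := by rw [h3]
            _ = 1 := inv_mul_cancel μ
        have h6 := h4 _ (lin_irr μ⁻¹) h5 (fun h => h2 (hinj _ _ h))
        rw [hconj, h3] at h6
        norm_num at h6
      refine ⟨key μ ν h2 e3 e5, key ν μ ?_ e4 (fun χ hχ h3 h4 => e5 χ hχ h4 h3)⟩
      intro h3
      apply h2
      rw [← h3]
      exact inv_inv ν
  · right; right
    have hθφ : ∀ g, theta n g = φ g := by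
      intro g
      rw [theta, Finset.sum_eq_single φ]
      · rw [e2]; simp
      · intro y hy hne'
        rw [e3 y (mem_irrF.mp hy) hne']
        simp
      · intro h; exact absurd (mem_irrF.mpr hφ) h
    have hne1 : ∃ g, D g ≠ 1 := by
      by_contra hcon
      push Not at hcon
      have h2 := hlin hcon φ hφ (by rw [e1]; norm_num)
      rw [e2] at h2
      norm_num at h2
    have hDφ : ∀ g, ((D g : ℂˣ) : ℂ) = dd φ g := by
      intro g
      rw [hD]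
      unfold dd
      rw [hθφ, hθφ]
    have hvalφ : ∀ g, D g = 1 ∨ (((D g : ℂˣ) : ℂ) = -1 ∧ φ g = 0) := by
      intro g
      have := hval g
      rwa [hθφ] at this
    obtain ⟨l, hl1, hl2⟩ := dihedral_form hφ e1 hDφ hvalφ hne1
    refine ⟨φ, hφ, e2, e3, D, hDφ, ?_, ?_, ?_, l, hl1, hl2⟩
    · rintro rfl
      obtain ⟨g, hg⟩ := hne1
      exact hg rfl
    · ext g
      rw [MonoidHom.mul_apply, Units.val_mul]
      rcases hval g with h | h
      · rw [h]; simp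
      · rw [h.1]; simp
    · intro g hg
      rcases hvalφ g with h | h
      · exact absurd h hg
      · exact h.2

/-- **The structure of central functions of degree two** -/
theorem central_shape (n : (G → ℂ) → ℤ) (hθ : IsSolHeilbronn (theta n : G → ℂ))
    (h1 : (theta n : G → ℂ) 1 = 2) (hr : ∀ g : G, theta n g⁻¹ = theta n g)
    (hev : ∀ χ ∈ Irr G, Sy χ → Even (n χ)) :
    (∃ μ : G →* ℂˣ, μ * μ = 1 ∧ n (fun g => ((μ g : ℂˣ) : ℂ)) = 2 ∧
      ∀ χ ∈ Irr G, χ ≠ (fun g => ((μ g : ℂˣ) : ℂ)) → n χ = 0) ∨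
    (∃ μ ν : G →* ℂˣ, μ ≠ ν ∧ ((μ * μ = 1 ∧ ν * ν = 1) ∨ μ * ν = 1) ∧
      n (fun g => ((μ g : ℂˣ) : ℂ)) = 1 ∧ n (fun g => ((ν g : ℂˣ) : ℂ)) = 1 ∧
      ∀ χ ∈ Irr G, χ ≠ (fun g => ((μ g : ℂˣ) : ℂ)) → χ ≠ (fun g => ((ν g : ℂˣ) : ℂ)) → n χ = 0) ∨
    (∃ χ₀ ∈ Irr G, n χ₀ = 1 ∧ (∀ χ ∈ Irr G, χ ≠ χ₀ → n χ = 0) ∧
      ∃ D : G →* ℂˣ, D ≠ 1 ∧ D * D = 1 ∧ (∀ g, D g ≠ 1 → χ₀ g = 0) ∧
        ∃ l : D.ker →* ℂˣ, l ≠ l⁻¹ ∧
          ∀ x : D.ker, χ₀ x = ((l x : ℂˣ) : ℂ) + (((l x)⁻¹ : ℂˣ) : ℂ)) := by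
  rcases central_shape' n hθ h1 hr hev with h | h | ⟨χ₀, h1, h2, h3, D, h4, h5⟩
  · exact Or.inl h
  · exact Or.inr (Or.inl h)
  · exact Or.inr (Or.inr ⟨χ₀, h1, h2, h3, D, h5⟩)

end

end Pool.Agent.Q7.SZ
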