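import Mathlib
import Pool.Agent.Q7.SZ.Dih

/-!
# Degree at most one, and monotonicity
-/

set_option autoImplicit false
set_option linter.unusedSectionVars false

namespace Pool.Agent.Q7.SZ

open Pool.Agent.H302R2 Pool.Agent.H302R3 Pool.Agent.H302R5 Pool.Agent.H541R3.ART
  Pool.Agent.W446.AS Pool.Agent.Q7.TZ

section

variable {G : Type} [Group G] [Finite G]

/-- degree at most one -/
theorem small_nonneg (n : (G → ℂ) → ℤ) (hθ : IsSolHeilbronn (theta n : G → ℂ)) {r : ℕ}
    (hr : r ≤ 1) (h1 : (theta n : G → ℂ) 1 = r) : ∀ χ ∈ Irr G, 0 ≤ n χ := by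
  classical
  have : Fintype G := Fintype.ofFinite G
  have hG : (Nat.card G : ℂ) ≠ 0 := by exact_mod_cast Nat.card_pos.ne'
  intro χ hχ
  have hp := theta_pair n hχ
  have hcases : r = 0 ∨ r = 1 := by omega
  rcases hcases with rfl | rfl
  · have h2 : ∀ g : G, theta n g = 0 := by
      intro g
      have h3 := hθ.norm_le g
      rw [h1] at h3
      simpa using h3
    simp only [h2, zero_mul, Finset.sum_const_zero] at hp
    have h3 : (n χ : ℂ) = 0 := (mul_eq_zero.mp hp.symm).resolve_right hG
    have h4 : n χ = 0 := by exact_mod_cast h3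
    rw [h4]
  · obtain ⟨φ, hφ⟩ := hθ.deg_one (by rw [h1]; simp)
    simp only [hφ] at hp
    by_cases he : (fun g => ((φ g : ℂˣ) : ℂ)) = χ
    · have h2 := pair_self hχ
      rw [← he] at h2 hp
      simp only at h2 hp
      rw [h2] at hp
      have h3 : (1 : ℂ) = (n (fun g => ((φ g : ℂˣ) : ℂ)) : ℂ) := by
        apply mul_right_cancel₀ hG
        rw [one_mul]
        exact hp
      have h4 : (1 : ℤ) = n (fun g => ((φ g : ℂˣ) : ℂ)) := by exact_mod_cast h3
      rw [← he]
      omega
    · rw [pair_ne (lin_irr φ) hχ he] at hp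
      have h3 : (n χ : ℂ) = 0 := (mul_eq_zero.mp hp.symm).resolve_right hG
      have h4 : n χ = 0 := by exact_mod_cast h3
      rw [h4]

end

end Pool.Agent.Q7.SZ
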