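import Mathlib
import Pool.Agent.Q7.SZ.Sml

/-!
# Ranks and orders
-/

set_option autoImplicit false
set_option linter.unusedSectionVars false

namespace Pool.Agent.Q7.SZ

open Pool.Agent.H302R2 Pool.Agent.H302R3 Pool.Agent.H302R5 Pool.Agent.H541R3.ART
  Pool.Agent.W446.AS Pool.Agent.Q7.TZ

section rank

variable {G : Type} [Group G] {k : Type} [Field k] {V : Type} [AddCommGroup V] [Module k V]
  [FiniteDimensional k V] (ρ : Representation k G V)

/-- the dimension of the invariants of `U`; this is the rank of `E` over the fixed field of `U` if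
`ρ` is the representation on `E(M) ⊗ k` -/
noncomputable def rk (U : Subgroup G) : ℕ :=
  Module.finrank k (Representation.invariants (ρ.comp U.subtype))

lemma mem_inv {U : Subgroup G} {v : V} :
    v ∈ Representation.invariants (ρ.comp U.subtype) ↔ ∀ u ∈ U, ρ u v = v := by
  rw [Representation.mem_invariants]
  constructor
  · intro h u hu
    exact h ⟨u, hu⟩
  · intro h u
    exact h u u.2

lemma rk_mono {U U' : Subgroup G} (h : U ≤ U') : rk ρ U' ≤ rk ρ U := by
  apply Submodule.finrank_mono
  intro v hv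
  rw [mem_inv] at hv ⊢
  exact fun u hu => hv u (h hu)

lemma rk_bot : rk ρ ⊥ = Module.finrank k V := by
  unfold rk
  have : Representation.invariants (ρ.comp (⊥ : Subgroup G).subtype) = ⊤ := by
    rw [eq_top_iff]
    intro v _
    rw [mem_inv]
    intro u hu
    rw [Subgroup.mem_bot.mp hu, map_one]
    rfl
  rw [this, finrank_top]

lemma triv_of_rk {N : Subgroup G} (h : rk ρ N = rk ρ ⊥) (x : G) (hx : x ∈ N) : ρ x = 1 := by
  rw [rk_bot] at h
  have h1 := Submodule.eq_top_of_finrank_eq h
  refine LinearMap.ext fun v => ?_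
  have h2 : v ∈ Representation.invariants (ρ.comp N.subtype) := by rw [h1]; trivial
  rw [mem_inv] at h2
  exact h2 x hx

lemma rk_sup {N : Subgroup G} (h : ∀ x ∈ N, ρ x = 1) (U : Subgroup G) :
    rk ρ (U ⊔ N) = rk ρ U := by
  have heq : Representation.invariants (ρ.comp (U ⊔ N : Subgroup G).subtype) =
      Representation.invariants (ρ.comp U.subtype) := by
    apply le_antisymm
    · intro v hv
      rw [mem_inv] at hv ⊢
      exact fun u hu => hv u ((le_sup_left : U ≤ U ⊔ N) hu)
    · intro v hv
      rw [mem_inv] at hv ⊢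
      let T : Subgroup G :=
        { carrier := {g | ρ g v = v}
          mul_mem' := by
            intro a b ha hb
            change ρ (a * b) v = v
            rw [map_mul, Module.End.mul_apply]
            rw [show ρ b v = v from hb]
            exact ha
          one_mem' := by
            change ρ 1 v = v
            rw [map_one]; rfl
          inv_mem' := by
            intro a ha
            change ρ a⁻¹ v = v
            have h1 : ρ a v = v := ha
            nth_rw 1 [← h1]
            rw [← Module.End.mul_apply, ← map_mul, inv_mul_cancel, map_one]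
            rfl }
      have h1 : U ⊔ N ≤ T := by
        refine sup_le (fun u hu => hv u hu) (fun x hx => ?_)
        change ρ x v = v
        rw [h x hx]
        rfl
      exact fun g hg => h1 hg
  unfold rk
  rw [heq]

end rank

section

variable {G : Type} [Group G] [Finite G] {s₀ : ℂ}

/-- multiplicities of the trivial character -/
lemma mult_one {d : ℕ} (ρ : Representation ℂ G (Fin d → ℂ)) (H : Subgroup G) :
    ∑ᶠ h : H, ρ.character (h : G) * ((((1 : H →* ℂˣ) h)⁻¹ : ℂˣ) : ℂ)
      = (Module.finrank ℂ (Representation.invariants (ρ.comp H.subtype)) : ℂ) *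
        (Nat.card H : ℂ) := by
  classical
  have : Fintype H := Fintype.ofFinite H
  have hH : (Nat.card H : ℂ) ≠ 0 := by exact_mod_cast Nat.card_pos.ne'
  have : Invertible (Nat.card H : ℂ) := invertibleOfNonzero hH
  have h1 := Representation.card_inv_mul_sum_char_eq_finrank (ρ.comp H.subtype)
  rw [← h1, finsum_eq_sum_of_fintype]
  field_simp
  simp
  rfl

/-- the orders of the L-functions over the intermediate fields -/
theorem TwistData.order_sup (A : TwistData G s₀) {N : Subgroup G}
    (hN : ∀ χ ∈ Irr G, A.ord χ ≠ 0 → ∀ x ∈ N, χ x = χ 1) (U : Subgroup G) :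
    meromorphicOrderAt (A.Lin (U ⊔ N) 1) s₀ = meromorphicOrderAt (A.Lin U 1) s₀ := by
  classical
  choose! m hm using fun χ (hχ : χ ∈ Irr G) => exists_mult hχ U 1
  choose! m' hm' using fun χ (hχ : χ ∈ Irr G) => exists_mult hχ (U ⊔ N) 1
  rw [A.order_Lin U 1 m hm, A.order_Lin (U ⊔ N) 1 m' hm']
  congr 1
  refine Finset.sum_congr rfl fun χ hχ => ?_
  rw [mem_irrF] at hχ
  by_cases h0 : A.ord χ = 0
  · rw [h0, mul_zero, mul_zero]
  have h1 := hN χ hχ h0
  obtain ⟨d, ρ, hρ, hρ'⟩ := hχ
  have h1' : ∀ x ∈ N, ρ x = 1 := by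
    intro x hx
    apply Pool.Agent.Y788.V.rep_triv
    rw [← hρ']
    exact h1 x hx
  have h2 := hm χ ⟨d, ρ, hρ, hρ'⟩
  have h3 := hm' χ ⟨d, ρ, hρ, hρ'⟩
  rw [hρ'] at h2 h3
  rw [mult_one] at h2 h3
  have h9 := rk_sup ρ h1' U
  unfold rk at h9
  rw [h9] at h3
  have h4 : (Nat.card U : ℂ) ≠ 0 := by exact_mod_cast Nat.card_pos.ne'
  have h5 : (Nat.card (U ⊔ N : Subgroup G) : ℂ) ≠ 0 := by exact_mod_cast Nat.card_pos.ne'
  have h6 := mul_right_cancel₀ h4 h2
  have h7 := mul_right_cancel₀ h5 h3
  rw [h6] at h7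
  have h8 : m ρ.character = m' ρ.character := by exact_mod_cast h7
  rw [hρ', h8]

/-- The rank part of the conjecture over the fixed field of `H`. -/
def RankHolds (A : TwistData G s₀) {k : Type} [Field k] {V : Type} [AddCommGroup V] [Module k V]
    [FiniteDimensional k V] (ρ : Representation k G V) (H : Subgroup G) : Prop :=
  meromorphicOrderAt (A.Lin H 1) s₀ = ((rk ρ H : ℤ) : WithTop ℤ)

/-- reduction of the rank conjecture -/
theorem rank_reduction (A : TwistData G s₀) {k : Type} [Field k] {V : Type} [AddCommGroup V]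
    [Module k V] [FiniteDimensional k V] (ρ : Representation k G V) {N : Subgroup G}
    (hN : ∀ χ ∈ Irr G, A.ord χ ≠ 0 → ∀ x ∈ N, χ x = χ 1) :
    (∀ H, RankHolds A ρ H) ↔ RankHolds A ρ ⊥ ∧ ∀ H, N ≤ H → RankHolds A ρ H := by
  constructor
  · intro h
    exact ⟨h ⊥, fun H _ => h H⟩
  · rintro ⟨h1, h2⟩ H
    have h3 := A.order_sup hN ⊥
    rw [bot_sup_eq] at h3
    have h4 := h2 N le_rfl
    unfold RankHolds at h1 h4
    rw [h3, h1] at h4
    have h5 : rk ρ N = rk ρ ⊥ := by
      have := WithTop.coe_injective h4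
      exact_mod_cast this.symm
    have h6 := triv_of_rk ρ h5
    have h7 := h2 (H ⊔ N) le_sup_right
    unfold RankHolds at h7 ⊢
    rw [A.order_sup hN, rk_sup ρ h6] at h7
    exact h7

end

end Pool.Agent.Q7.SZ
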