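import Mathlib
import Pool.Agent.Q7.SZ.Bsd
import Pool.Agent.Q7.DB.Main
import Pool.Agent.Q7.DB.Jor

/-!
# Functions which are constant on a solvable normal subgroup
-/

set_option autoImplicit false
set_option linter.unusedSectionVars false

namespace Pool.Agent.Q7.SZ

open Pool.Agent.H302R2 Pool.Agent.H302R3 Pool.Agent.H302R5 Pool.Agent.H302R6 Pool.Agent.H541R3.ART
  Pool.Agent.W446.AS Pool.Agent.Q7.TZ

open scoped commutatorElement

section

variable {T : Type} [Group T] [Finite T]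

/-- the commutators of an element with an abelian normal subgroup -/
def comR (x : T) (A : Subgroup T) (hn : A.Normal) (hA : ∀ a ∈ A, ∀ b ∈ A, a * b = b * a) :
    Subgroup T where
  carrier := {c | ∃ b ∈ A, c = x⁻¹ * b * x * b⁻¹}
  mul_mem' := by
    rintro _ _ ⟨b, hb, rfl⟩ ⟨c, hc, rfl⟩
    refine ⟨b * c, A.mul_mem hb hc, ?_⟩
    have h1 : x⁻¹ * c * x ∈ A := by
      have := hn.conj_mem c hc x⁻¹
      rwa [inv_inv] at this
    have h2 : b⁻¹ * (x⁻¹ * c * x) = (x⁻¹ * c * x) * b⁻¹ := hA _ (A.inv_mem hb) _ h1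
    have h3 : b⁻¹ * c⁻¹ = c⁻¹ * b⁻¹ := hA _ (A.inv_mem hb) _ (A.inv_mem hc)
    calc x⁻¹ * b * x * b⁻¹ * (x⁻¹ * c * x * c⁻¹)
        = x⁻¹ * b * x * (b⁻¹ * (x⁻¹ * c * x)) * c⁻¹ := by group
      _ = x⁻¹ * b * x * ((x⁻¹ * c * x) * b⁻¹) * c⁻¹ := by rw [h2]
      _ = x⁻¹ * b * c * x * (b⁻¹ * c⁻¹) := by group
      _ = x⁻¹ * b * c * x * (c⁻¹ * b⁻¹) := by rw [h3]
      _ = x⁻¹ * (b * c) * x * (b * c)⁻¹ := by group
  one_mem' := ⟨1, A.one_mem, by group⟩
  inv_mem' := by
    rintro _ ⟨b, hb, rfl⟩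
    refine ⟨b⁻¹, A.inv_mem hb, ?_⟩
    have h1 : x⁻¹ * b⁻¹ * x ∈ A := by
      have := hn.conj_mem b⁻¹ (A.inv_mem hb) x⁻¹
      rwa [inv_inv] at this
    have h2 : b * (x⁻¹ * b⁻¹ * x) = (x⁻¹ * b⁻¹ * x) * b := hA _ hb _ h1
    calc (x⁻¹ * b * x * b⁻¹)⁻¹ = b * (x⁻¹ * b⁻¹ * x) := by group
      _ = (x⁻¹ * b⁻¹ * x) * b := h2
      _ = x⁻¹ * b⁻¹ * x * b⁻¹⁻¹ := by group

variable {x : T} {A : Subgroup T} {hn : A.Normal} {hA : ∀ a ∈ A, ∀ b ∈ A, a * b = b * a}

lemma mem_comR {c : T} : c ∈ comR x A hn hA ↔ ∃ b ∈ A, c = x⁻¹ * b * x * b⁻¹ := Iff.rfl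

lemma comR_le : comR x A hn hA ≤ A := by
  rintro _ ⟨b, hb, rfl⟩
  have h1 : x⁻¹ * b * x ∈ A := by
    have := hn.conj_mem b hb x⁻¹
    rwa [inv_inv] at this
  exact A.mul_mem h1 (A.inv_mem hb)

lemma comR_normal (htop : Subgroup.zpowers x ⊔ A = ⊤) : (comR x A hn hA).Normal where
  conj_mem c hc t := by
    have ht : t ∈ Subgroup.zpowers x ⊔ A := by rw [htop]; exact Subgroup.mem_top t
    obtain ⟨y, hy, a, ha, rfl⟩ := Subgroup.mem_sup_of_normal_right.mp ht
    obtain ⟨k, rfl⟩ := Subgroup.mem_zpowers_iff.mp hy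
    have hcA := comR_le hc
    obtain ⟨b, hb, hcb⟩ := hc
    have h1 : a * c * a⁻¹ = c := by rw [hA a ha c hcA, mul_inv_cancel_right]
    refine ⟨x ^ k * b * (x ^ k)⁻¹, hn.conj_mem b hb _, ?_⟩
    have h2 : x ^ k * a * c * (x ^ k * a)⁻¹ = x ^ k * (a * c * a⁻¹) * (x ^ k)⁻¹ := by group
    rw [h2, h1, hcb]
    group

lemma quot_comm (htop : Subgroup.zpowers x ⊔ A = ⊤) {Q : Type} [Group Q] (π : T →* Q)
    (hπ : Function.Surjective π) (hk : comR x A hn hA ≤ π.ker) (a b : Q) : a * b = b * a := by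
  have hxA : ∀ b ∈ A, Commute (π x) (π b) := by
    intro b hb
    have h1 : π (x⁻¹ * b * x * b⁻¹) = 1 := hk ⟨b, hb, rfl⟩
    rw [map_mul, map_mul, map_mul, map_inv, map_inv, mul_inv_eq_one] at h1
    change π x * π b = π b * π x
    rw [mul_assoc, inv_mul_eq_iff_eq_mul] at h1
    exact h1.symm
  obtain ⟨s, rfl⟩ := hπ a
  obtain ⟨t, rfl⟩ := hπ b
  have hs : s ∈ Subgroup.zpowers x ⊔ A := by rw [htop]; exact Subgroup.mem_top s
  have ht : t ∈ Subgroup.zpowers x ⊔ A := by rw [htop]; exact Subgroup.mem_top t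
  obtain ⟨y, hy, a, ha, rfl⟩ := Subgroup.mem_sup_of_normal_right.mp hs
  obtain ⟨k, rfl⟩ := Subgroup.mem_zpowers_iff.mp hy
  obtain ⟨y, hy, b, hb, rfl⟩ := Subgroup.mem_sup_of_normal_right.mp ht
  obtain ⟨l, rfl⟩ := Subgroup.mem_zpowers_iff.mp hy
  have h1 : Commute (π (x ^ k)) (π (x ^ l)) := by
    rw [map_zpow, map_zpow]
    exact (Commute.refl (π x)).zpow_zpow k l
  have h2 : Commute (π (x ^ k)) (π b) := by
    rw [map_zpow]
    exact (hxA b hb).zpow_left k
  have h3 : Commute (π a) (π (x ^ l)) := by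
    rw [map_zpow]
    exact ((hxA a ha).symm).zpow_right l
  have h4 : Commute (π a) (π b) := by
    change π a * π b = π b * π a
    rw [← map_mul, ← map_mul, hA a ha b hb]
  rw [map_mul, map_mul]
  exact (h1.mul_right h2).mul_left (h3.mul_right h4)

/-- constancy on an abelian normal subgroup with cyclic quotient -/
lemma const_cyc (x : T) (A : Subgroup T) (hn : A.Normal)
    (hA : ∀ a ∈ A, ∀ b ∈ A, a * b = b * a) (htop : Subgroup.zpowers x ⊔ A = ⊤) {θ : T → ℂ}
    (hθ : IsSolHeilbronn θ) (h : ∀ a ∈ A, θ a = θ 1) {a : T} (ha : a ∈ A) :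
    θ (x * a) = θ x := by
  classical
  have : Fintype T := Fintype.ofFinite T
  set R := comR x A hn hA with hR
  have hRn : R.Normal := comR_normal htop
  have hcR : (Nat.card R : ℂ) ≠ 0 := card_ne
  let π : T →* T ⧸ R := QuotientGroup.mk' R
  have hπ : Function.Surjective π := QuotientGroup.mk'_surjective R
  have hker : π.ker = R := QuotientGroup.ker_mk' R
  have hcomm := quot_comm htop π hπ hker.ge
  have hsol : Group.IsSolvable T := by
    have h1 : Group.IsSolvable R := by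
      apply sol_of_comm
      intro a b
      exact Subtype.ext (hA a (comR_le a.2) b (comR_le b.2))
    have h2 : Group.IsSolvable (T ⧸ R) := sol_of_comm hcomm
    exact Group.isSolvable_of_ker_le_range R.subtype π (by rw [hker, Subgroup.range_subtype])
  have hH : IsHeilbronn θ := hθ.comp_sol hsol (MonoidHom.id T)
  have hp : IsHeilbronn (push π θ) := push_isHeilbronn hπ hH
  have hkey : ∀ b ∈ A, push π θ (π (x * b)) = θ (x * b) := by
    intro b hb
    have : Fintype π.ker := Fintype.ofFinite _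
    rw [push_apply]
    have h3 : ∀ n : π.ker, θ (x * b * n) = θ (x * b) := by
      intro n
      obtain ⟨c, hc, hcn⟩ := hker.le n.2
      rw [hcn]
      have h4 : x⁻¹ * c * x ∈ A := by
        have := hn.conj_mem c hc x⁻¹
        rwa [inv_inv] at this
      have h5 : b * (x⁻¹ * c * x) = (x⁻¹ * c * x) * b := hA _ hb _ h4
      have h6 : b * c⁻¹ = c⁻¹ * b := hA _ hb _ (A.inv_mem hc)
      have h7 : x * b * (x⁻¹ * c * x * c⁻¹) = c * (x * b) * c⁻¹ := by
        calc x * b * (x⁻¹ * c * x * c⁻¹) = x * (b * (x⁻¹ * c * x)) * c⁻¹ := by group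
          _ = x * ((x⁻¹ * c * x) * b) * c⁻¹ := by rw [h5]
          _ = c * (x * b) * c⁻¹ := by group
      rw [h7, hθ.conj]
    rw [Finset.sum_congr rfl (fun n _ => h3 n), Finset.sum_const, Finset.card_univ,
      nsmul_eq_mul, ← Nat.card_eq_fintype_card]
    have h4 : (Nat.card π.ker : ℂ) ≠ 0 := card_ne
    field_simp
  have hkA : ∀ b ∈ A, push π θ (π b) = θ 1 := by
    intro b hb
    have : Fintype π.ker := Fintype.ofFinite _
    rw [push_apply]
    have h3 : ∀ n : π.ker, θ (b * n) = θ 1 := by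
      intro n
      exact h _ (A.mul_mem hb (comR_le (hker.le n.2)))
    rw [Finset.sum_congr rfl (fun n _ => h3 n), Finset.sum_const, Finset.card_univ,
      nsmul_eq_mul, ← Nat.card_eq_fintype_card]
    have h4 : (Nat.card π.ker : ℂ) ≠ 0 := card_ne
    field_simp
  have h8 := (hp.comm_facts hcomm).2 (π x) (π a) (by
    rw [hkA a ha, ← hkA 1 A.one_mem, map_one])
  rw [← map_mul, hkey a ha] at h8
  rw [h8]
  have h9 := hkey 1 A.one_mem
  rw [mul_one] at h9
  exact h9

end

section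

variable {G : Type} [Group G] [Finite G]

/-- constancy on abelian normal subgroups -/
lemma const_ab (A : Subgroup G) (hn : A.Normal)
    (hA : ∀ a ∈ A, ∀ b ∈ A, a * b = b * a) {θ : G → ℂ}
    (hθ : IsSolHeilbronn θ) (h : ∀ a ∈ A, θ a = θ 1) (x : G) {a : G} (ha : a ∈ A) :
    θ (x * a) = θ x := by
  set T : Subgroup G := Subgroup.zpowers x ⊔ A with hT
  have hx : x ∈ T := (le_sup_left : Subgroup.zpowers x ≤ T) (Subgroup.mem_zpowers x)
  have hAT : A ≤ T := le_sup_right
  have h1 := const_cyc (T := T) ⟨x, hx⟩ (A.subgroupOf T) (hn.subgroupOf T)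
    (fun a ha b hb => Subtype.ext (hA a ha b hb)) (by
      rw [eq_top_iff]
      rintro ⟨t, ht⟩ -
      rw [hT] at ht
      obtain ⟨y, hy, b, hb, hyb⟩ := Subgroup.mem_sup_of_normal_right.mp ht
      obtain ⟨k, rfl⟩ := Subgroup.mem_zpowers_iff.mp hy
      have h2 : (⟨t, ht⟩ : T) = (⟨x, hx⟩ : T) ^ k * ⟨b, hAT hb⟩ := by
        apply Subtype.ext
        simp [← hyb]
      rw [h2]
      refine Subgroup.mul_mem_sup (Subgroup.zpow_mem_zpowers _ k) ?_
      exact hb) (hθ.comp T.subtype) (fun a ha => h a ha) (a := ⟨a, hAT ha⟩) ha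
  exact h1

/-- a nontrivial solvable normal subgroup contains a nontrivial abelian normal subgroup -/
lemma exists_ab {N : Subgroup G} (hn : N.Normal) (hs : Group.IsSolvable N) (h0 : N ≠ ⊥) :
    ∃ A : Subgroup G, A ≤ N ∧ A ≠ ⊥ ∧ A.Normal ∧ ∀ a ∈ A, ∀ b ∈ A, a * b = b * a := by
  classical
  obtain ⟨n, hn0⟩ := hs.solvable
  have hex : ∃ n, derivedSeries N n = ⊥ := ⟨n, hn0⟩
  set m := Nat.find hex with hm
  have hm0 : derivedSeries N m = ⊥ := Nat.find_spec hex
  have hpos : m ≠ 0 := by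
    intro h
    rw [h, derivedSeries_zero] at hm0
    apply h0
    rw [eq_bot_iff]
    intro x hx
    have h1 : (⟨x, hx⟩ : N) ∈ (⊤ : Subgroup N) := Subgroup.mem_top _
    rw [hm0, Subgroup.mem_bot] at h1
    rw [Subgroup.mem_bot]
    exact congrArg Subtype.val h1
  obtain ⟨k, hk⟩ := Nat.exists_eq_succ_of_ne_zero hpos
  have hk0 : derivedSeries N k ≠ ⊥ := Nat.find_min hex (by omega)
  have hcomm : ∀ a ∈ derivedSeries N k, ∀ b ∈ derivedSeries N k, a * b = b * a := by
    intro a ha b hb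
    have h1 : ⁅a, b⁆ ∈ derivedSeries N (k + 1) := by
      rw [derivedSeries_succ]
      exact Subgroup.commutator_mem_commutator ha hb
    rw [hk] at hm0
    rw [show k + 1 = k.succ from rfl, hm0, Subgroup.mem_bot] at h1
    exact commutatorElement_eq_one_iff_mul_comm.mp h1
  have hchar : (derivedSeries N k).Characteristic := inferInstance
  refine ⟨(derivedSeries N k).map N.subtype, ?_, ?_, ?_, ?_⟩
  · exact Subgroup.map_subtype_le _
  · intro h
    apply hk0
    rw [Subgroup.map_eq_bot_iff_of_injective _ N.subtype_injective] at h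
    exact h
  · have := hn
    exact ConjAct.normal_of_characteristic_of_normal
  · rintro _ ⟨a, ha, rfl⟩ _ ⟨b, hb, rfl⟩
    exact congrArg Subtype.val (hcomm a ha b hb)

end

/-- **Constancy on solvable normal subgroups**: a function with nonnegative multiplicities on
solvable subgroups which is constant on a solvable normal subgroup is constant on its cosets. -/
theorem const_sol : ∀ (m : ℕ) (G : Type) [Group G] [Finite G], Nat.card G = m →
    ∀ (N : Subgroup G), N.Normal → Group.IsSolvable N → ∀ θ : G → ℂ, IsSolHeilbronn θ →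
    (∀ n ∈ N, θ n = θ 1) → ∀ x : G, ∀ n ∈ N, θ (x * n) = θ x := by
  classical
  intro m
  induction m using Nat.strong_induction_on with
  | _ m ih =>
  intro G _ _ hG N hn hs θ hθ h x n hxn
  by_cases h0 : N = ⊥
  · rw [h0, Subgroup.mem_bot] at hxn
    rw [hxn, mul_one]
  obtain ⟨A, hAN, hA0, hAn, hAc⟩ := exists_ab hn hs h0
  have hcA := const_ab A hAn hAc hθ (fun a ha => h a (hAN ha))
  let π : G →* G ⧸ A := QuotientGroup.mk' A
  have hπ : Function.Surjective π := QuotientGroup.mk'_surjective A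
  let τ : G ⧸ A → ℂ := fun y => θ (y.out)
  have hτ : ∀ g, τ (π g) = θ g := by
    intro g
    have h1 : (π g).out⁻¹ * g ∈ A := by
      apply QuotientGroup.eq.mp
      rw [QuotientGroup.out_eq']
      rfl
    have h2 := hcA (π g).out h1
    rw [mul_inv_cancel_left] at h2
    exact h2.symm
  have hcard : Nat.card (G ⧸ A) < m := by
    rw [← hG, Subgroup.card_eq_card_quotient_mul_card_subgroup A]
    have h2 : 1 < Nat.card A := by
      rw [← Subgroup.one_lt_card_iff_ne_bot] at hA0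
      exact hA0
    have h3 : 0 < Nat.card (G ⧸ A) := Nat.card_pos
    nlinarith
  have hsol : Group.IsSolvable (N.map π) := by
    let q : N →* N.map π :=
      { toFun := fun u => ⟨π u, u, u.2, rfl⟩
        map_one' := Subtype.ext (map_one π)
        map_mul' := fun a b => Subtype.ext (map_mul π _ _) }
    refine Group.isSolvable_of_surjective (f := q) ?_
    rintro ⟨_, x, hx, rfl⟩
    exact ⟨⟨x, hx⟩, rfl⟩
  have h5 := ih _ hcard (G ⧸ A) rfl (N.map π) (hn.map π hπ) hsol τ (descend_sol hπ hθ hτ) (by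
    rintro _ ⟨u, hu, rfl⟩
    rw [hτ, ← map_one π, hτ]
    exact h u hu) (π x) (π n) ⟨n, hxn, rfl⟩
  rw [← map_mul, hτ, hτ] at h5
  exact h5

section

variable {G : Type} [Group G] [Finite G]

/-- constituents of a function which is constant on cosets -/
lemma const_pr {θ : G → ℂ} (N : Subgroup G) [hn : N.Normal]
    (h : ∀ x : G, ∀ n ∈ N, θ (x * n) = θ x) {χ : G → ℂ} (hχ : χ ∈ Irr G) (hp : pr θ χ ≠ 0) :
    ∀ n ∈ N, χ n = χ 1 := by
  classical
  have : Fintype G := Fintype.ofFinite G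
  have : Fintype N := Fintype.ofFinite N
  obtain ⟨m, ρ, hρ, rfl⟩ := exists_rep hχ
  rcases hρ.normal_dich N with h1 | h1
  · intro n hn
    change LinearMap.trace ℂ _ (ρ n) = LinearMap.trace ℂ _ (ρ 1)
    rw [h1 n hn, map_one ρ]
  · exfalso
    apply hp
    rw [pr_eq]
    have hN : (Nat.card N : ℂ) ≠ 0 := card_ne
    have h2 : (Nat.card N : ℂ) * ∑ g : G, θ g * ρ.character g⁻¹ = 0 := by
      have h3 : ∀ n : N, ∑ g : G, θ g * ρ.character g⁻¹
          = ∑ g : G, θ g * ρ.character (g⁻¹ * n) := by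
        intro n
        rw [← Equiv.sum_comp (Equiv.mulRight (n : G)⁻¹) (fun g => θ g * ρ.character g⁻¹)]
        refine Finset.sum_congr rfl fun g _ => ?_
        rw [Equiv.coe_mulRight, h g _ (N.inv_mem n.2), mul_inv_rev, inv_inv]
        congr 1
        have h4 := Virt.conj (AddSubgroup.subset_closure hχ : Virt ρ.character) (n * g⁻¹) (n : G)⁻¹
        rw [← h4]
        congr 1
        group
      calc (Nat.card N : ℂ) * ∑ g : G, θ g * ρ.character g⁻¹
          = ∑ n : N, ∑ g : G, θ g * ρ.character g⁻¹ := by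
            rw [Finset.sum_const, Finset.card_univ, nsmul_eq_mul, ← Nat.card_eq_fintype_card]
        _ = ∑ n : N, ∑ g : G, θ g * ρ.character (g⁻¹ * n) :=
            Finset.sum_congr rfl fun n _ => h3 n
        _ = ∑ g : G, θ g * ∑ n : N, ρ.character (g⁻¹ * n) := by
            rw [Finset.sum_comm]
            exact Finset.sum_congr rfl fun g _ => (Finset.mul_sum _ _ _).symm
        _ = 0 := by
            refine Finset.sum_eq_zero fun g _ => ?_
            rw [h1, mul_zero]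
    rcases mul_eq_zero.mp h2 with h3 | h3
    · exact absurd h3 hN
    · rw [h3, mul_zero]

end

end Pool.Agent.Q7.SZ
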