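import Mathlib

/-!
# Minkowski's theorem on finite groups of rational matrices
-/

set_option autoImplicit false
set_option linter.unusedSectionVars false

namespace Pool.Agent.Q7.SZ

open Module

section

variable {V : Type} [AddCommGroup V] [Module ℚ V]

lemma smul_inj {n : ℤ} (hn : n ≠ 0) {v w : V} (h : n • v = n • w) : v = w := by
  have h1 : (n : ℚ) • v = (n : ℚ) • w := by
    rw [Int.cast_smul_eq_zsmul, Int.cast_smul_eq_zsmul, h]
  have h2 : (n : ℚ) ≠ 0 := by exact_mod_cast hn
  have h3 := congrArg (fun u => (n : ℚ)⁻¹ • u) h1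
  simpa [smul_smul, inv_mul_cancel₀ h2] using h3

/-- endomorphisms of prime order which are trivial modulo three -/
lemma prime_three (L : Submodule ℤ V) {ι : Type} [Fintype ι] (β : Basis ι ℤ L)
    (f : V →ₗ[ℚ] V) (hL : ∀ v ∈ L, f v ∈ L) (h3 : ∀ v ∈ L, ∃ w ∈ L, f v = v + (3 : ℤ) • w)
    {p : ℕ} (hp : p.Prime) (hf : f ^ p = 1) : ∀ v ∈ L, f v = v := by
  classical
  have hfz : ∀ (n : ℤ) (v : V), f (n • v) = n • f v := fun n v => map_zsmul f n v
  have hpow : ∀ (i : ℕ), ∀ v ∈ L, ∃ u ∈ L, (f ^ i) v = v + (3 : ℤ) • u := by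
    intro i
    induction i with
    | zero => intro v _; exact ⟨0, L.zero_mem, by simp⟩
    | succ i ih =>
      intro v hv
      obtain ⟨u, hu, h1⟩ := ih v hv
      obtain ⟨w, hw, h2⟩ := h3 v hv
      refine ⟨w + f u, L.add_mem hw (hL u hu), ?_⟩
      rw [pow_succ', Module.End.mul_apply, h1, map_add, hfz, h2]
      module
  let P : V →ₗ[ℚ] V := ∑ i ∈ Finset.range p, f ^ i
  have hP : ∀ v, P v = ∑ i ∈ Finset.range p, (f ^ i) v := by
    intro v
    simp [P, LinearMap.sum_apply]
  have hkey : ∀ v ∈ L, P v = 0 → ∃ w ∈ L, v = (3 : ℤ) • w := by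
    intro v hv hPv
    choose u hu h1 using hpow
    by_cases hp3 : p = 3
    · subst hp3
      obtain ⟨w, hw, h2⟩ := h3 v hv
      obtain ⟨w', hw', h4⟩ := h3 w hw
      refine ⟨-(w + w'), L.neg_mem (L.add_mem hw hw'), ?_⟩
      rw [hP, Finset.sum_range_succ, Finset.sum_range_succ, Finset.sum_range_one] at hPv
      have h5 : (f ^ 2) v = v + (3 : ℤ) • w + (3 : ℤ) • w + (9 : ℤ) • w' := by
        rw [sq, Module.End.mul_apply, h2, map_add, hfz, h2, h4]
        module
      rw [pow_zero, pow_one, Module.End.one_apply, h2, h5] at hPv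
      apply smul_inj (n := 3) (by norm_num)
      have h6 : (3 : ℤ) • v - (3 : ℤ) • ((3 : ℤ) • -(w + w')) = 0 := by
        rw [← hPv]
        module
      exact sub_eq_zero.mp h6
    · have hcop : IsCoprime (p : ℤ) 3 := by
        have := Nat.isCoprime_iff_coprime.mpr ((Nat.coprime_primes hp Nat.prime_three).mpr hp3)
        exact_mod_cast this
      obtain ⟨a, b, hab⟩ := hcop
      have h2 : (p : ℤ) • v + (3 : ℤ) • ∑ i ∈ Finset.range p, u i v hv = 0 := by
        rw [← hPv, hP, Finset.sum_congr rfl (fun i _ => h1 i v hv), Finset.sum_add_distrib,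
          Finset.sum_const, Finset.card_range, Finset.smul_sum, natCast_zsmul]
      refine ⟨b • v - a • ∑ i ∈ Finset.range p, u i v hv, L.sub_mem (L.smul_mem _ hv)
        (L.smul_mem _ (L.sum_mem fun i _ => hu i v hv)), ?_⟩
      have h4 : v = (a * (p : ℤ) + b * 3) • v := by rw [hab, one_smul]
      have h5 : (p : ℤ) • v = -((3 : ℤ) • ∑ i ∈ Finset.range p, u i v hv) :=
        eq_neg_of_add_eq_zero_left h2
      calc v = (a * (p : ℤ) + b * 3) • v := h4
        _ = a • ((p : ℤ) • v) + (3 : ℤ) • (b • v) := by module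
        _ = _ := by rw [h5]; module
  have hkey2 : ∀ v ∈ L, P v = 0 → ∃ w ∈ L, P w = 0 ∧ v = (3 : ℤ) • w := by
    intro v hv hPv
    obtain ⟨w, hw, rfl⟩ := hkey v hv hPv
    refine ⟨w, hw, ?_, rfl⟩
    apply smul_inj (n := 3) (by norm_num)
    rw [smul_zero, ← hPv, map_zsmul]
  have hzero : ∀ v ∈ L, P v = 0 → v = 0 := by
    intro v hv hPv
    have h1 : ∀ n : ℕ, ∃ w ∈ L, P w = 0 ∧ v = ((3 : ℤ) ^ n) • w := by
      intro n
      induction n with
      | zero => exact ⟨v, hv, hPv, by simp⟩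
      | succ n ih =>
        obtain ⟨w, hw, hPw, h2⟩ := ih
        obtain ⟨w', hw', hPw', h4⟩ := hkey2 w hw hPw
        exact ⟨w', hw', hPw', by rw [h2, h4, smul_smul, pow_succ]⟩
    have h2 : (⟨v, hv⟩ : L) = 0 := by
      apply β.repr.injective
      rw [map_zero]
      ext i
      rw [Finsupp.zero_apply]
      by_contra hne
      obtain ⟨w, hw, -, h4⟩ := h1 ((β.repr ⟨v, hv⟩ i).natAbs + 1)
      have h5 : (⟨v, hv⟩ : L) = ((3 : ℤ) ^ ((β.repr ⟨v, hv⟩ i).natAbs + 1)) • (⟨w, hw⟩ : L) :=
        Subtype.ext h4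
      have h6 : (3 : ℤ) ^ ((β.repr ⟨v, hv⟩ i).natAbs + 1) ∣ β.repr ⟨v, hv⟩ i := by
        refine ⟨β.repr ⟨w, hw⟩ i, ?_⟩
        have h7 := congrArg (fun u => β.repr u i) h5
        simp only [map_smul, Finsupp.smul_apply, smul_eq_mul] at h7
        exact h7
      have h7 := Int.natAbs_dvd_natAbs.mpr h6
      rw [Int.natAbs_pow] at h7
      have h8 := Nat.le_of_dvd (Int.natAbs_pos.mpr hne) h7
      have h9 : (β.repr ⟨v, hv⟩ i).natAbs + 1 < 3 ^ ((β.repr ⟨v, hv⟩ i).natAbs + 1) :=
        Nat.lt_pow_self (by norm_num)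
      change 3 ^ ((β.repr ⟨v, hv⟩ i).natAbs + 1) ≤ _ at h8
      omega
    exact congrArg Subtype.val h2
  intro v hv
  have h1 : P (f v - v) = 0 := by
    rw [hP]
    have h2 : ∀ i ∈ Finset.range p, (f ^ i) (f v - v) = (f ^ (i + 1)) v - (f ^ i) v := by
      intro i _
      rw [map_sub, pow_succ, Module.End.mul_apply]
    rw [Finset.sum_congr rfl h2, Finset.sum_range_sub (fun i => (f ^ i) v), hf]
    simp
  exact sub_eq_zero.mp (hzero _ (L.sub_mem (hL v hv) hv) h1)

end

/-- **Minkowski**: a finite group of rational matrices of size `r` has order at most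
`3 ^ (r ^ 2)`. -/
theorem minkowski {G : Type} [Group G] [Finite G] {V : Type} [AddCommGroup V] [Module ℚ V]
    [FiniteDimensional ℚ V] (ρ : Representation ℚ G V) (N : Subgroup G)
    (hN : ∀ g, ρ g = 1 → g ∈ N) : N.index ≤ 3 ^ (Module.finrank ℚ V ^ 2) := by
  classical
  let b := Module.finBasis ℚ V
  let L : Submodule ℤ V := Submodule.span ℤ (Set.range fun p : G × Fin (finrank ℚ V) => ρ p.1 (b p.2))
  have hfg : Module.Finite ℤ L := Module.Finite.span_of_finite ℤ (Set.finite_range _)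
  have hstab : ∀ (g : G), ∀ v ∈ L, ρ g v ∈ L := by
    intro g v hv
    induction hv using Submodule.span_induction with
    | mem x hx =>
      obtain ⟨⟨h, i⟩, rfl⟩ := hx
      apply Submodule.subset_span
      exact ⟨(g * h, i), by simp [map_mul]⟩
    | zero => rw [map_zero]; exact L.zero_mem
    | add x y _ _ hx hy => rw [map_add]; exact L.add_mem hx hy
    | smul a x _ hx => rw [map_zsmul]; exact L.smul_mem a hx
  have htf : Module.IsTorsionFree ℤ L := by
    refine ⟨?_⟩
    intro n hn v w hvw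
    apply Subtype.ext
    have hn0 : n ≠ 0 := hn.ne_zero
    exact smul_inj hn0 (congrArg Subtype.val hvw)
  have hfree : Module.Free ℤ L := inferInstance
  let β := Module.finBasis ℤ L
  have hn : finrank ℤ L ≤ finrank ℚ V := by
    have h1 : LinearIndependent ℤ (fun i => ((β i : L) : V)) :=
      β.linearIndependent.map' L.subtype (Submodule.ker_subtype L)
    have h2 : LinearIndependent ℚ (fun i => ((β i : L) : V)) :=
      (LinearIndependent.iff_fractionRing ℤ ℚ).mp h1
    have h3 := h2.fintype_card_le_finrank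
    rwa [Fintype.card_fin] at h3
  have hbL : ∀ i, b i ∈ L := by
    intro i
    apply Submodule.subset_span
    exact ⟨(1, i), by simp⟩
  have hall : ∀ f : V →ₗ[ℚ] V, (∀ v ∈ L, f v = v) → f = 1 := by
    intro f hf
    exact b.ext fun i => hf _ (hbL i)
  -- trivial modulo three
  have hmain : ∀ k : G, (∀ v ∈ L, ∃ w ∈ L, ρ k v = v + (3 : ℤ) • w) → ρ k = 1 := by
    intro k hk
    by_contra hne
    have hpow : ∀ i : ℕ, ∀ v ∈ L, ∃ u ∈ L, ((ρ k) ^ i) v = v + (3 : ℤ) • u := by
      intro i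
      induction i with
      | zero => intro v _; exact ⟨0, L.zero_mem, by simp⟩
      | succ i ih =>
        intro v hv
        obtain ⟨u, hu, h1⟩ := ih v hv
        obtain ⟨w, hw, h2⟩ := hk v hv
        refine ⟨w + ρ k u, L.add_mem hw (hstab k u hu), ?_⟩
        rw [pow_succ', Module.End.mul_apply, h1, map_add, map_zsmul, h2]
        module
    have hfin : IsOfFinOrder (ρ k) := by
      have h1 : IsOfFinOrder k := isOfFinOrder_of_finite k
      exact MonoidHom.isOfFinOrder ρ h1
    have hne1 : orderOf (ρ k) ≠ 1 := fun h => hne (orderOf_eq_one_iff.mp h)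
    obtain ⟨p, hp, hpd⟩ := Nat.exists_prime_and_dvd hne1
    obtain ⟨m, hm⟩ := hpd
    have hm0 : 0 < m := by
      rcases Nat.eq_zero_or_pos m with h | h
      · rw [h, mul_zero] at hm
        exact absurd hfin.orderOf_pos (by omega)
      · exact h
    have h1 : ((ρ k) ^ m) = 1 := by
      apply hall
      refine prime_three L β ((ρ k) ^ m) ?_ (hpow m) hp ?_
      · intro v hv
        rw [← map_pow]
        exact hstab _ v hv
      · rw [← pow_mul, mul_comm, ← hm, pow_orderOf_eq_one]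
    have h2 := Nat.le_of_dvd hm0 (orderOf_dvd_of_pow_eq_one h1)
    have h3 := hp.two_le
    nlinarith
  -- the reduction modulo three
  let M : G → Fin (finrank ℤ L) → Fin (finrank ℤ L) → ZMod 3 := fun g i j =>
    ((β.repr ⟨ρ g (β j), hstab g _ (β j).2⟩ i : ℤ) : ZMod 3)
  have hM : ∀ g h : G, M g = M h → g⁻¹ * h ∈ N := by
    intro g h hgh
    apply hN
    apply hmain
    have h1 : ∀ j, ∃ w ∈ L, ρ h (β j) = ρ g (β j) + (3 : ℤ) • w := by
      intro j
      have h2 : ∀ i, ∃ c : ℤ, β.repr ⟨ρ h (β j), hstab h _ (β j).2⟩ i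
          = β.repr ⟨ρ g (β j), hstab g _ (β j).2⟩ i + 3 * c := by
        intro i
        have h3 := congrFun (congrFun hgh i) j
        change ((β.repr ⟨ρ g (β j), hstab g _ (β j).2⟩ i : ℤ) : ZMod 3)
          = ((β.repr ⟨ρ h (β j), hstab h _ (β j).2⟩ i : ℤ) : ZMod 3) at h3
        rw [ZMod.intCast_eq_intCast_iff_dvd_sub] at h3
        obtain ⟨c, hc⟩ := h3
        refine ⟨c, ?_⟩
        push_cast at hc
        linarith
      choose c hc using h2
      refine ⟨((∑ i, c i • β i : L) : V), Submodule.coe_mem _, ?_⟩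
      have h4 : (⟨ρ h (β j), hstab h _ (β j).2⟩ : L)
          = ⟨ρ g (β j), hstab g _ (β j).2⟩ + (3 : ℤ) • ∑ i, c i • β i := by
        apply β.repr.injective
        ext i
        rw [map_add, map_smul, Finsupp.add_apply, Finsupp.smul_apply, β.repr_sum_self, hc i,
          smul_eq_mul]
      exact congrArg Subtype.val h4
    have h2 : ∀ v ∈ L, ∃ w ∈ L, ρ h v = ρ g v + (3 : ℤ) • w := by
      intro v hv
      choose w hw h3 using h1
      refine ⟨∑ j, β.repr ⟨v, hv⟩ j • w j, L.sum_mem fun j _ => L.smul_mem _ (hw j), ?_⟩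
      have h4 : v = ∑ j, β.repr ⟨v, hv⟩ j • ((β j : L) : V) := by
        have h5 : ((∑ i, β.repr ⟨v, hv⟩ i • β i : L) : V) = v :=
          congrArg Subtype.val (β.sum_repr ⟨v, hv⟩)
        rw [Submodule.coe_sum] at h5
        exact h5.symm
      have h5 : ∀ k : G, ρ k v = ∑ j, β.repr ⟨v, hv⟩ j • ρ k (β j) := by
        intro k
        nth_rw 1 [h4]
        rw [map_sum]
        exact Finset.sum_congr rfl fun j _ => map_zsmul _ _ _
      rw [h5 h, h5 g, Finset.sum_congr rfl (fun j _ => by rw [h3 j]), Finset.smul_sum,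
        ← Finset.sum_add_distrib]
      refine Finset.sum_congr rfl fun j _ => ?_
      module
    intro v hv
    obtain ⟨w, hw, h3⟩ := h2 v hv
    refine ⟨ρ g⁻¹ w, hstab _ w hw, ?_⟩
    rw [map_mul, Module.End.mul_apply, h3, map_add, map_zsmul, ← Module.End.mul_apply, ← map_mul,
      inv_mul_cancel, map_one, Module.End.one_apply]
  have hinj : Function.Injective (fun x : G ⧸ N => M x.out) := by
    intro x y hxy
    rw [← Quotient.out_eq' x, ← Quotient.out_eq' y]
    apply Quotient.sound'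
    rw [QuotientGroup.leftRel_apply]
    exact hM _ _ hxy
  have hcard := Nat.card_le_card_of_injective _ hinj
  have h1 : Nat.card (Fin (finrank ℤ L) → Fin (finrank ℤ L) → ZMod 3)
      = 3 ^ (finrank ℤ L ^ 2) := by
    rw [Nat.card_eq_fintype_card]
    simp only [Fintype.card_pi, Finset.prod_const, Finset.card_univ, Fintype.card_fin, ZMod.card]
    rw [← pow_mul, sq]
  rw [h1] at hcard
  refine le_trans hcard (Nat.pow_le_pow_right (by norm_num) (Nat.pow_le_pow_left hn 2))

end Pool.Agent.Q7.SZ
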