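import Mathlib
import Pool.Agent.Q7.SZ.Nrm
import Pool.Agent.Q7.SZ.Mnk

/-!
# Solvable extensions: the smallest field with all the zeros
-/

set_option autoImplicit false
set_option linter.unusedSectionVars false

namespace Pool.Agent.Q7.SZ

open Pool.Agent.H302R2 Pool.Agent.H302R3 Pool.Agent.H302R5 Pool.Agent.H541R3.ART
  Pool.Agent.W446.AS Pool.Agent.Q7.TZ

section

variable {G : Type} [Group G] [Finite G]

/-- if the multiplicity of the trivial character is the degree then the function is constant -/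
lemma const_of_sum {θ : G → ℂ} (hθ : IsSolHeilbronn θ) {r : ℕ} (h1 : θ 1 = r) (H : Subgroup G)
    (hk : ∑ᶠ h : H, θ h = (r : ℂ) * (Nat.card H : ℂ)) : ∀ x ∈ H, θ x = θ 1 := by
  classical
  have : Fintype H := Fintype.ofFinite H
  rw [finsum_eq_sum_of_fintype] at hk
  have hle : ∀ x : H, (θ x).re ≤ (r : ℝ) := by
    intro x
    have h2 := hθ.norm_le (x : G)
    rw [h1, Complex.natCast_re] at h2
    exact (Complex.re_le_norm _).trans h2
  have hre : ∑ h : H, (θ (h : G)).re = ∑ _h : H, (r : ℝ) := by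
    have := congrArg Complex.re hk
    rw [Complex.re_sum] at this
    rw [this, Finset.sum_const, Finset.card_univ, nsmul_eq_mul, ← Nat.card_eq_fintype_card]
    have h2 : ((r : ℂ) * (Nat.card H : ℂ)) = (((r : ℝ) * (Nat.card H : ℝ) : ℝ) : ℂ) := by
      push_cast; ring
    rw [h2, Complex.ofReal_re]
    ring
  intro x hx
  have h3 := (Finset.sum_eq_sum_iff_of_le (fun (x : H) _ => hle x)).mp hre ⟨x, hx⟩
    (Finset.mem_univ _)
  apply hθ.eq_deg_of_re
  rw [h1, Complex.natCast_re]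
  exact h3.ge

lemma TwistData.order_one' {s₀ : ℂ} (A : TwistData G s₀) (H : Subgroup G) : ∃ k : ℤ,
    meromorphicOrderAt (A.Lin H 1) s₀ = (k : WithTop ℤ) ∧
    ∑ᶠ h : H, (theta A.ord : G → ℂ) h = (k : ℂ) * (Nat.card H : ℂ) := by
  obtain ⟨k, hk1, hk2⟩ := A.order_mult H 1
  refine ⟨k, hk1, ?_⟩
  rw [← hk2]
  apply finsum_congr
  intro h
  simp

variable {s₀ : ℂ} (A : TwistData G s₀)

lemma TwistData.kerS_triv : ∀ χ ∈ Irr G, A.ord χ ≠ 0 →
    ∀ x ∈ KerS (theta A.ord : G → ℂ), χ x = χ 1 := by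
  intro χ hχ h x hx
  refine mem_kerS.mp hx χ hχ ?_
  rw [pr_theta A.ord hχ]
  exact_mod_cast h

/-- a solvable normal subgroup is contained in the common kernel of all constituents iff the order
over its fixed field is the order over the top field -/
theorem TwistData.order_iff {r : ℕ} (hr : meromorphicOrderAt (A.Lin ⊥ 1) s₀ = (r : WithTop ℤ))
    (N : Subgroup G) (hn : N.Normal) (hs : Group.IsSolvable N) :
    meromorphicOrderAt (A.Lin N 1) s₀ = (r : WithTop ℤ) ↔ N ≤ KerS (theta A.ord : G → ℂ) := by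
  constructor
  · intro h
    obtain ⟨k, hk1, hk2⟩ := A.order_one' N
    rw [h] at hk1
    have hk : k = (r : ℤ) := by
      have h2 : ((r : ℤ) : WithTop ℤ) = (k : WithTop ℤ) := hk1
      exact (WithTop.coe_injective h2).symm
    rw [hk] at hk2
    have h3 := const_of_sum A.isSol (A.theta_one hr) N (by rw [hk2]; push_cast; rfl)
    have h4 := const_sol _ G rfl N hn hs _ A.isSol h3
    intro x hx
    rw [mem_kerS]
    intro χ hχ hp
    exact const_pr N h4 hχ hp x hx
  · intro h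
    have h1 := A.order_sup A.kerS_triv N
    have h2 := A.order_sup A.kerS_triv ⊥
    rw [bot_sup_eq] at h2
    rw [sup_eq_right.mpr h] at h1
    rw [← h1, h2, hr]

/-- the rank conjecture over all fields bounds the index -/
theorem index_le_of_rank [hG : Group.IsSolvable G] {r : ℕ}
    (hr : meromorphicOrderAt (A.Lin ⊥ 1) s₀ = (r : WithTop ℤ))
    {V : Type} [AddCommGroup V] [Module ℚ V] [FiniteDimensional ℚ V] (ρ : Representation ℚ G V)
    (h : ∀ H, RankHolds A ρ H) :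
    (KerS (theta A.ord : G → ℂ)).index ≤ 3 ^ (r ^ 2) := by
  have hdim : Module.finrank ℚ V = r := by
    have h1 := h ⊥
    unfold RankHolds at h1
    rw [hr] at h1
    have h2 : ((r : ℤ) : WithTop ℤ) = ((rk ρ ⊥ : ℤ) : WithTop ℤ) := h1
    have h3 := WithTop.coe_injective h2
    rw [← rk_bot ρ]
    exact_mod_cast h3.symm
  let N₁ : Subgroup G := MonoidHom.ker ρ
  have hN₁ : ∀ x, x ∈ N₁ ↔ ρ x = 1 := fun x => Iff.rfl
  have hn : N₁.Normal := MonoidHom.normal_ker ρ
  have hrk : rk ρ N₁ = r := by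
    have h1 : rk ρ N₁ = rk ρ ⊥ := by
      have := rk_sup ρ (N := N₁) (fun x hx => hx) ⊥
      rwa [bot_sup_eq] at this
    rw [h1, rk_bot, hdim]
  have hle : N₁ ≤ KerS (theta A.ord : G → ℂ) := by
    have h2 : Group.IsSolvable N₁ := inferInstance
    rw [← A.order_iff hr N₁ hn h2]
    have h1 := h N₁
    unfold RankHolds at h1
    rw [h1, hrk]
    rfl
  rw [← hdim]
  exact minkowski ρ _ (fun g hg => hle hg)

/-- the group of the smallest field is abelian by bounded -/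
theorem exists_jordan [hG : Group.IsSolvable G] {r : ℕ}
    (hr : meromorphicOrderAt (A.Lin ⊥ 1) s₀ = (r : WithTop ℤ)) :
    ∃ B : Subgroup G, KerS (theta A.ord : G → ℂ) ≤ B ∧
      (∀ a ∈ B, ∀ b ∈ B, a * b * a⁻¹ * b⁻¹ ∈ KerS (theta A.ord : G → ℂ)) ∧
      B.index ≤ 5 ^ (2 * ((r ^ (1 + Nat.log 2 (r ^ 2))) ^ 2) * r ^ 2) := by
  classical
  have : Fintype G := Fintype.ofFinite G
  have hH : IsHeilbronn (theta A.ord : G → ℂ) := A.isSol.comp_sol hG (MonoidHom.id G)
  have hD : ∀ χ ∈ Irr G, A.ord χ ≠ 0 →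
      ∃ d : ℕ, χ 1 = d ∧ d ^ 2 ≤ (r ^ (1 + Nat.log 2 (r ^ 2))) ^ 2 := by
    intro χ hχ hne
    obtain ⟨d, -, hd⟩ := irr_deg_pos hχ
    refine ⟨d, hd, ?_⟩
    have h1 := Pool.Agent.Q7.DB.deg_main _ G rfl ⊤ inferInstance inferInstance (theta A.ord) hH
      (theta_virt _) r (A.theta_one hr) χ hχ (by
        rw [pr_theta A.ord hχ]; exact_mod_cast hne) d hd
    rw [Subgroup.index_top, one_mul] at h1
    exact h1
  obtain ⟨N₀, B₀, h1, h2, h3, h4, h5⟩ := Pool.Agent.Q7.DB.struct A.ord hH (A.theta_one hr) hD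
  set N := KerS (theta A.ord : G → ℂ) with hN
  have hle : N₀ ≤ N := by
    intro x hx
    rw [hN, mem_kerS]
    intro χ hχ hp
    have h6 : A.ord χ ≠ 0 := by
      intro h0
      rw [pr_theta A.ord hχ, h0] at hp
      exact hp (by simp)
    obtain ⟨d, ρ, hρ, h7⟩ := h5 χ hχ h6
    rw [hρ]
    change LinearMap.trace ℂ _ (ρ x) = LinearMap.trace ℂ _ (ρ 1)
    rw [Pool.Agent.Q7.DB.mem_kr.mp (h7 hx), show ρ 1 = 1 from map_one ρ]
  refine ⟨B₀ ⊔ N, le_sup_right, ?_, ?_⟩
  · have hnn : N.Normal := inferInstance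
    let π : G →* G ⧸ N := QuotientGroup.mk' N
    have hπ1 : ∀ x, π x = 1 ↔ x ∈ N := fun x => QuotientGroup.eq_one_iff x
    have hred : ∀ a ∈ B₀ ⊔ N, ∃ a' ∈ B₀, π a = π a' := by
      intro a ha
      obtain ⟨y, hy, z, hz, rfl⟩ := Subgroup.mem_sup_of_normal_right.mp ha
      exact ⟨y, hy, by rw [map_mul, (hπ1 z).mpr hz, mul_one]⟩
    intro a ha b hb
    obtain ⟨a', ha', h6⟩ := hred a ha
    obtain ⟨b', hb', h7⟩ := hred b hb
    rw [← hπ1, map_mul, map_mul, map_mul, map_inv, map_inv, h6, h7, ← map_inv, ← map_inv, ← map_mul,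
      ← map_mul, ← map_mul, hπ1]
    exact hle (h3 a' ha' b' hb')
  · refine le_trans ?_ h4
    exact Nat.le_of_dvd (Nat.pos_of_ne_zero Subgroup.index_ne_zero_of_finite)
      (Subgroup.index_dvd_of_le le_sup_left)

end

end Pool.Agent.Q7.SZ
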