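import Mathlib
import Pool.Agent.Q7.SZ.Bsd

/-!
# Rational representations
-/

set_option autoImplicit false
set_option linter.unusedSectionVars false

namespace Pool.Agent.Q7.SZ

open Polynomial

/-- an endomorphism of a rational space all of whose eigenvalues are primitive `m`-th roots -/
lemma totient_le {V : Type} [AddCommGroup V] [Module ℚ V] [FiniteDimensional ℚ V] [Nontrivial V]
    (f : Module.End ℚ V) {m : ℕ} (hm : 0 < m) (h1 : f ^ m = 1)
    (h2 : ∀ d, d ∣ m → d < m → ∀ v, (f ^ d) v = v → v = 0) :
    Nat.totient m ≤ Module.finrank ℚ V := by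
  classical
  have hinj : ∀ d ∈ m.properDivisors, ∀ v, (aeval f (cyclotomic d ℚ)) v = 0 → v = 0 := by
    intro d hd v hv
    rw [Nat.mem_properDivisors] at hd
    obtain ⟨q, hq⟩ := cyclotomic.dvd_X_pow_sub_one d ℚ
    apply h2 d hd.1 hd.2
    have h3 : aeval f (X ^ d - 1 : ℚ[X]) v = 0 := by
      rw [hq, mul_comm, map_mul, Module.End.mul_apply, hv, map_zero]
    rw [map_sub, map_pow, aeval_X, map_one, LinearMap.sub_apply, Module.End.one_apply] at h3
    exact sub_eq_zero.mp h3
  have hprod : ∀ S : Finset ℕ, S ⊆ m.properDivisors → ∀ v,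
      (aeval f (∏ d ∈ S, cyclotomic d ℚ)) v = 0 → v = 0 := by
    intro S
    induction S using Finset.induction_on with
    | empty =>
      intro _ v hv
      simpa using hv
    | insert a S ha ih =>
      intro hS v hv
      rw [Finset.prod_insert ha, map_mul, Module.End.mul_apply] at hv
      have h3 := hinj a (hS (Finset.mem_insert_self _ _)) _ hv
      exact ih (fun x hx => hS (Finset.mem_insert_of_mem hx)) v h3
  have hzero : aeval f (cyclotomic m ℚ) = 0 := by
    refine LinearMap.ext fun v => ?_
    apply hprod _ (subset_refl _)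
    rw [← Module.End.mul_apply, ← map_mul]
    have h3 : (∏ d ∈ m.properDivisors, cyclotomic d ℚ) * cyclotomic m ℚ = X ^ m - 1 := by
      rw [← prod_cyclotomic_eq_X_pow_sub_one hm ℚ, ← Nat.insert_self_properDivisors hm.ne',
        Finset.prod_insert Nat.self_notMem_properDivisors, mul_comm]
    rw [h3, map_sub, map_pow, aeval_X, map_one, h1, sub_self]
    rfl
  have hdvd := minpoly.dvd ℚ f hzero
  have hirr := cyclotomic.irreducible_rat hm
  have hass : Associated (minpoly ℚ f) (cyclotomic m ℚ) := by
    rcases (hirr.dvd_iff.mp hdvd) with h | h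
    · exact absurd h (minpoly.not_isUnit ℚ f)
    · exact h.symm
  have hdeg : (minpoly ℚ f).natDegree = Nat.totient m := by
    rw [natDegree_eq_of_degree_eq (degree_eq_degree_of_associated hass), natDegree_cyclotomic]
  rw [← hdeg, ← LinearMap.charpoly_natDegree f]
  exact natDegree_le_of_dvd (LinearMap.minpoly_dvd_charpoly f) (LinearMap.charpoly_monic f).ne_zero

end Pool.Agent.Q7.SZ
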