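import Mathlib
import Pool.Agent.Q7.SZ.Cyc

/-!
# The extension cut out by the zeros at the centre
-/

set_option autoImplicit false
set_option linter.unusedSectionVars false

namespace Pool.Agent.Q7.SZ

open Pool.Agent.H302R2 Pool.Agent.H302R3 Pool.Agent.H302R5 Pool.Agent.H541R3.ART
  Pool.Agent.W446.AS Pool.Agent.Q7.TZ

section

variable {G : Type} [Group G] [Finite G]

lemma theta_two (n : (G → ℂ) → ℤ) {μ ν : G →* ℂˣ} (hne : μ ≠ ν)
    (h1 : n (fun g => ((μ g : ℂˣ) : ℂ)) = 1) (h2 : n (fun g => ((ν g : ℂˣ) : ℂ)) = 1)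
    (h3 : ∀ χ ∈ Irr G, χ ≠ (fun g => ((μ g : ℂˣ) : ℂ)) → χ ≠ (fun g => ((ν g : ℂˣ) : ℂ)) → n χ = 0)
    (g : G) : theta n g = ((μ g : ℂˣ) : ℂ) + ((ν g : ℂˣ) : ℂ) := by
  classical
  have hne' : (fun g => ((μ g : ℂˣ) : ℂ)) ≠ fun g => ((ν g : ℂˣ) : ℂ) := by
    intro h
    apply hne
    ext g
    exact congrFun h g
  have hsub : ({(fun g => ((μ g : ℂˣ) : ℂ)), (fun g => ((ν g : ℂˣ) : ℂ))}
      : Finset (G → ℂ)) ⊆ irrF G := by
    intro y hy
    rcases Finset.mem_insert.mp hy with h | h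
    · rw [h]; exact mem_irrF.mpr (lin_irr μ)
    · rw [Finset.mem_singleton.mp h]; exact mem_irrF.mpr (lin_irr ν)
  rw [theta, ← Finset.sum_subset hsub, Finset.sum_pair hne', h1, h2]
  · simp
  · intro y hy hy'
    simp only [Finset.mem_insert, Finset.mem_singleton, not_or] at hy'
    rw [h3 y (mem_irrF.mp hy) hy'.1 hy'.2]
    simp

lemma theta_single (n : (G → ℂ) → ℤ) {φ : G → ℂ} (hφ : φ ∈ Irr G)
    (h3 : ∀ χ ∈ Irr G, χ ≠ φ → n χ = 0) (g : G) : theta n g = (n φ : ℂ) * φ g := by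
  rw [theta, Finset.sum_eq_single φ]
  · intro y hy hne'
    rw [h3 y (mem_irrF.mp hy) hne']
    simp
  · intro h; exact absurd (mem_irrF.mpr hφ) h

lemma index_ker_le (D : G →* ℂˣ) (hD : D * D = 1) : D.ker.index ≤ 2 := by
  classical
  have h1 : ∀ g, D g = 1 ∨ D g = -1 := by
    intro g
    have h2 : D g * D g = 1 := by
      have := DFunLike.congr_fun hD g
      simpa using this
    have h3 : ((D g : ℂˣ) : ℂ) * ((D g : ℂˣ) : ℂ) = 1 := by
      rw [← Units.val_mul, h2, Units.val_one]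
    rcases mul_self_eq_one_iff.mp h3 with h | h
    · left; exact Units.ext h
    · right; exact Units.ext (by simpa using h)
  rw [Subgroup.index_ker]
  have hsub : (D.range : Set ℂˣ) ⊆ (({1, -1} : Finset ℂˣ) : Set ℂˣ) := by
    rintro x ⟨g, rfl⟩
    rcases h1 g with h | h <;> simp [h]
  have h4 : Nat.card D.range ≤ ({1, -1} : Finset ℂˣ).card := by
    have h5 := Nat.card_mono (Finset.finite_toSet _) hsub
    refine le_trans ?_ (le_of_le_of_eq h5 ?_)
    · exact le_of_eq rfl
    · simp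
  refine le_trans h4 ?_
  exact Finset.card_le_two

/-- the zeros at the centre come from quadratic characters, or from one cyclic or dihedral
extension -/
theorem central_frame (n : (G → ℂ) → ℤ) (hθ : IsSolHeilbronn (theta n : G → ℂ))
    (h1 : (theta n : G → ℂ) 1 = 2) (hr : ∀ g : G, theta n g⁻¹ = theta n g)
    (hev : ∀ χ ∈ Irr G, Sy χ → Even (n χ)) :
    (∃ μ ν : G →* ℂˣ, μ * μ = 1 ∧ ν * ν = 1 ∧
      (∀ g, theta n g = ((μ g : ℂˣ) : ℂ) + ((ν g : ℂˣ) : ℂ)) ∧
      ∀ χ ∈ Irr G, n χ ≠ 0 → χ = (fun g => ((μ g : ℂˣ) : ℂ)) ∨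
        χ = (fun g => ((ν g : ℂˣ) : ℂ))) ∨
    (∃ (B : Subgroup G) (l : B →* ℂˣ), B.index ≤ 2 ∧ l * l ≠ 1 ∧
      (∀ b : B, theta n b = ((l b : ℂˣ) : ℂ) + (((l b)⁻¹ : ℂˣ) : ℂ)) ∧
      (∀ w, w ∉ B → theta n w = 0 ∧ ∃ h : w * w ∈ B, l ⟨w * w, h⟩ = 1) ∧
      ∀ χ ∈ Irr G, n χ ≠ 0 → ∀ b : B, l b = 1 → χ b = χ 1) := by
  classical
  rcases central_shape' n hθ h1 hr hev with ⟨μ, e1, e2, e3⟩ | ⟨μ, ν, e0, e1, e2, e3, e4⟩ |
    ⟨χ₀, hχ₀, e1, e2, D, e3, e4, e5, e6, l, e7, e8⟩
  · left
    refine ⟨μ, μ, e1, e1, fun g => ?_, fun χ hχ hn => ?_⟩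
    · rw [theta_single n (lin_irr μ) e3, e2]
      push_cast
      ring
    · left
      by_contra hcon
      exact hn (e3 χ hχ hcon)
  · have hθ' := theta_two n e0 e2 e3 e4
    have hc : ∀ χ ∈ Irr G, n χ ≠ 0 → χ = (fun g => ((μ g : ℂˣ) : ℂ)) ∨
        χ = (fun g => ((ν g : ℂˣ) : ℂ)) := by
      intro χ hχ hn
      by_contra hcon
      push Not at hcon
      exact hn (e4 χ hχ hcon.1 hcon.2)
    rcases e1 with ⟨e1, e1'⟩ | e1
    · left
      exact ⟨μ, ν, e1, e1', hθ', hc⟩
    · by_cases hμ : μ * μ = 1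
      · left
        have hν : ν * ν = 1 := by
          have h2 : ν = μ := by
            refine MonoidHom.ext fun g => ?_
            have h3 : μ g * μ g = 1 := DFunLike.congr_fun hμ g
            have h4 : μ g * ν g = 1 := DFunLike.congr_fun e1 g
            exact mul_left_cancel (h4.trans h3.symm)
          rw [h2, hμ]
        exact ⟨μ, ν, hμ, hν, hθ', hc⟩
      · right
        have hν : ∀ g, ν g = (μ g)⁻¹ := by
          intro g
          have := DFunLike.congr_fun e1 g
          simp only [MonoidHom.mul_apply, MonoidHom.one_apply] at this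
          exact eq_inv_of_mul_eq_one_right this
        refine ⟨⊤, μ.comp (⊤ : Subgroup G).subtype, by simp, ?_, fun b => ?_, fun w hw => ?_,
          fun χ hχ hn b hb => ?_⟩
        · intro h
          apply hμ
          ext g
          have := DFunLike.congr_fun h ⟨g, Subgroup.mem_top g⟩
          simpa using congrArg (fun u : ℂˣ => (u : ℂ)) this
        · rw [hθ', hν]
          rfl
        · exact absurd (Subgroup.mem_top w) hw
        · have hb' : μ b = 1 := hb
          rcases hc χ hχ hn with h | h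
          · rw [h]
            simp [hb']
          · rw [h]
            simp [hν, hb']
  · right
    have hθ' : ∀ g, theta n g = χ₀ g := by
      intro g
      rw [theta_single n hχ₀ e2, e1]
      simp
    refine ⟨D.ker, l, index_ker_le D e5, ?_, fun b => ?_, fun w hw => ?_, fun χ hχ hn b hb => ?_⟩
    · intro h
      apply e7
      refine MonoidHom.ext fun b => ?_
      have h3 : l b * l b = 1 := DFunLike.congr_fun h b
      change l b = (l b)⁻¹
      exact eq_inv_of_mul_eq_one_left h3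
    · rw [hθ', e8]
    · have hw' : D w ≠ 1 := hw
      have h0 := e6 w hw'
      refine ⟨by rw [hθ', h0], ?_⟩
      have hmem : w * w ∈ D.ker := by
        rw [MonoidHom.mem_ker, map_mul]
        have := DFunLike.congr_fun e5 w
        simpa using this
      refine ⟨hmem, ?_⟩
      have hDw : ((D w : ℂˣ) : ℂ) = -1 := by
        have h2 : ((D w : ℂˣ) : ℂ) * ((D w : ℂˣ) : ℂ) = 1 := by
          rw [← Units.val_mul, ← map_mul, MonoidHom.mem_ker.mp hmem, Units.val_one]
        rcases mul_self_eq_one_iff.mp h2 with h | h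
        · exact absurd (Units.ext h) hw'
        · exact h
      have h3 := e3 w
      rw [hDw] at h3
      unfold dd at h3
      rw [h0] at h3
      have h4 : χ₀ (w * w) = 2 := by
        have h5 : χ₀ (w ^ 2) = 2 := by
          linear_combination (2 : ℂ) * h3
        rw [← sq]
        exact h5
      have h5 := e8 ⟨w * w, hmem⟩
      rw [show ((⟨w * w, hmem⟩ : D.ker) : G) = w * w from rfl, h4] at h5
      set u := l ⟨w * w, hmem⟩ with hu
      have h6 : ((u : ℂˣ) : ℂ) * (((u⁻¹ : ℂˣ)) : ℂ) = 1 := by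
        rw [← Units.val_mul, mul_inv_cancel, Units.val_one]
      apply Units.ext
      rw [Units.val_one]
      have h7 : (((u : ℂˣ) : ℂ) - 1) * (((u : ℂˣ) : ℂ) - 1) = 0 := by
        linear_combination (-((u : ℂˣ) : ℂ)) * h5 - h6
      have h8 := mul_self_eq_zero.mp h7
      linear_combination h8
    · have hχ' : χ = χ₀ := by
        by_contra hcon
        exact hn (e2 χ hχ hcon)
      rw [hχ', e8 b, hb]
      have h2 := h1
      rw [hθ'] at h2
      rw [h2]
      norm_num

end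

end Pool.Agent.Q7.SZ
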