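import Mathlib
import Pool.Agent.Q7.SZ.Str

/-!
# The extension cut out by the zeros at the centre, second part
-/

set_option autoImplicit false
set_option linter.unusedSectionVars false

namespace Pool.Agent.Q7.SZ

open Pool.Agent.H302R2 Pool.Agent.H302R3 Pool.Agent.H302R5 Pool.Agent.H541R3.ART
  Pool.Agent.W446.AS Pool.Agent.Q7.TZ

lemma mem_of_totient_le_two {m : ℕ} (hm : 0 < m) (h : Nat.totient m ≤ 2) :
    m = 1 ∨ m = 2 ∨ m = 3 ∨ m = 4 ∨ m = 6 := by
  have hdvd : ∀ k, k ∣ m → Nat.totient k ≤ 2 := by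
    intro k hk
    exact (Nat.le_of_dvd (Nat.totient_pos.mpr hm) (Nat.totient_dvd_of_dvd hk)).trans h
  have h8 : ¬ 8 ∣ m := fun hk => absurd (hdvd 8 hk) (by decide)
  have h9 : ¬ 9 ∣ m := fun hk => absurd (hdvd 9 hk) (by decide)
  have h12 : ¬ 12 ∣ m := fun hk => absurd (hdvd 12 hk) (by decide)
  have h5 : ∀ p, p.Prime → 5 ≤ p → ¬ p ∣ m := by
    intro p hp h5 hk
    have h1 := hdvd p hk
    rw [Nat.totient_prime hp] at h1
    omega
  have h12' : m ∣ 12 := by
    rw [← Nat.factorization_le_iff_dvd hm.ne' (by norm_num)]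
    intro p
    by_cases hp : p.Prime
    · by_cases h2 : p = 2
      · subst h2
        have e1 : (12 : ℕ).factorization 2 = 2 := by
          rw [show (12 : ℕ) = 2 ^ 2 * 3 by norm_num, Nat.factorization_mul (by norm_num)
            (by norm_num), Nat.factorization_pow]
          simp [Nat.Prime.factorization Nat.prime_two, Nat.Prime.factorization Nat.prime_three]
        rw [e1]
        by_contra hcon
        push Not at hcon
        apply h8
        exact (pow_dvd_pow 2 hcon).trans (Nat.ordProj_dvd m 2)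
      · by_cases h3 : p = 3
        · subst h3
          have e1 : (12 : ℕ).factorization 3 = 1 := by
            rw [show (12 : ℕ) = 2 ^ 2 * 3 by norm_num, Nat.factorization_mul (by norm_num)
              (by norm_num), Nat.factorization_pow]
            simp [Nat.Prime.factorization Nat.prime_two, Nat.Prime.factorization Nat.prime_three]
          rw [e1]
          by_contra hcon
          push Not at hcon
          apply h9
          exact (pow_dvd_pow 3 hcon).trans (Nat.ordProj_dvd m 3)
        · have h4 : p ≠ 4 := by rintro rfl; revert hp; decide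
          have h5' : 5 ≤ p := by
            have := hp.two_le
            omega
          rw [Nat.factorization_eq_zero_of_not_dvd (h5 p hp h5')]
          exact Nat.zero_le _
    · rw [Nat.factorization_eq_zero_of_not_prime _ hp]
      exact Nat.zero_le _
  have hle := Nat.le_of_dvd (by norm_num) h12'
  interval_cases m <;> simp_all

section

variable {G : Type} [Group G] [Finite G]

lemma sum_eq_two (n : (G → ℂ) → ℤ) (hθ : IsSolHeilbronn (theta n : G → ℂ))
    (h1 : (theta n : G → ℂ) 1 = 2) (H : Subgroup G) {k : ℤ}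
    (hk : ∑ᶠ h : H, (theta n : G → ℂ) h = (k : ℂ) * (Nat.card H : ℂ)) :
    k ≤ 2 ∧ (k = 2 → ∀ x ∈ H, (theta n : G → ℂ) x = 2) := by
  classical
  have : Fintype H := Fintype.ofFinite H
  have hH : 0 < (Nat.card H : ℝ) := by exact_mod_cast Nat.card_pos
  rw [finsum_eq_sum_of_fintype] at hk
  have hre : ∑ h : H, (theta n (h : G)).re = (k : ℝ) * (Nat.card H : ℝ) := by
    have := congrArg Complex.re hk
    rw [Complex.re_sum] at this
    rw [this]
    have h2 : ((k : ℂ) * (Nat.card H : ℂ)) = (((k : ℝ) * (Nat.card H : ℝ) : ℝ) : ℂ) := by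
      push_cast; ring
    rw [h2, Complex.ofReal_re]
  have hle : ∀ x : G, (theta n x).re ≤ 2 ∧ ((theta n x).re = 2 → theta n x = 2) := by
    intro x
    obtain ⟨a, b, ha, hb, -, hs, -⟩ := hθ.two_eig h1 x
    have ha' := Complex.re_le_norm a
    have hb' := Complex.re_le_norm b
    rw [ha] at ha'
    rw [hb] at hb'
    rw [hs, Complex.add_re]
    refine ⟨by linarith, fun h => ?_⟩
    have hone : ∀ z : ℂ, ‖z‖ = 1 → z.re = 1 → z = 1 := by
      intro z hz hz1
      have h3 : z.re ^ 2 + z.im ^ 2 = 1 := by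
        have h4 : ‖z‖ ^ 2 = z.re * z.re + z.im * z.im := by
          rw [← Complex.normSq_eq_norm_sq, Complex.normSq_apply]
        rw [hz] at h4
        nlinarith
      have h5 : z.im = 0 := by
        have : z.im ^ 2 = 0 := by rw [hz1] at h3; linarith
        exact pow_eq_zero_iff (two_ne_zero) |>.mp this
      exact Complex.ext (by simpa using hz1) (by simpa using h5)
    rw [hone a ha (by linarith), hone b hb (by linarith)]
    norm_num
  have hsum : ∑ h : H, (theta n (h : G)).re ≤ ∑ _h : H, (2 : ℝ) :=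
    Finset.sum_le_sum fun x _ => (hle x).1
  rw [Finset.sum_const, Finset.card_univ, nsmul_eq_mul, ← Nat.card_eq_fintype_card, hre] at hsum
  refine ⟨?_, fun h2 x hx => ?_⟩
  · have : (k : ℝ) ≤ 2 := by
      by_contra hcon
      push Not at hcon
      nlinarith
    exact_mod_cast this
  · have heq : ∑ h : H, (theta n (h : G)).re = ∑ _h : H, (2 : ℝ) := by
      rw [Finset.sum_const, Finset.card_univ, nsmul_eq_mul, ← Nat.card_eq_fintype_card, hre, h2]
      push_cast
      ring
    have h3 := (Finset.sum_eq_sum_iff_of_le (fun (x : H) _ => (hle x).1)).mp heq ⟨x, hx⟩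
      (Finset.mem_univ _)
    exact (hle x).2 h3

/-- no invariants of a cyclic group -/
lemma sum_zero {H : Subgroup G} (θ : G → ℂ) (l : H →* ℂˣ) (hl : ∃ h, l h ≠ 1)
    (hθ : ∀ h : H, θ h = ((l h : ℂˣ) : ℂ) + (((l h)⁻¹ : ℂˣ) : ℂ)) :
    ∑ᶠ h : H, θ h = 0 := by
  classical
  have : Fintype H := Fintype.ofFinite H
  obtain ⟨a, ha⟩ := hl
  have key : ∀ m : H →* ℂˣ, m a ≠ 1 → ∑ h : H, ((m h : ℂˣ) : ℂ) = 0 := by
    intro m hm
    have h1 : ((m a : ℂˣ) : ℂ) * ∑ h : H, ((m h : ℂˣ) : ℂ) = ∑ h : H, ((m h : ℂˣ) : ℂ) := by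
      rw [Finset.mul_sum]
      rw [← Equiv.sum_comp (Equiv.mulLeft a) (fun h : H => ((m h : ℂˣ) : ℂ))]
      refine Finset.sum_congr rfl fun h _ => ?_
      simp
    have h2 : (((m a : ℂˣ) : ℂ) - 1) * ∑ h : H, ((m h : ℂˣ) : ℂ) = 0 := by
      rw [sub_mul, h1, one_mul, sub_self]
    rcases mul_eq_zero.mp h2 with h | h
    · exact absurd (Units.ext (by rw [Units.val_one]; exact sub_eq_zero.mp h)) hm
    · exact h
  rw [finsum_eq_sum_of_fintype, Finset.sum_congr rfl (fun h _ => hθ h), Finset.sum_add_distrib,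
    key l ha, zero_add]
  have h3 := key l⁻¹ (by
    change (l a)⁻¹ ≠ 1
    intro h
    exact ha (inv_eq_one.mp h))
  exact h3

end

end Pool.Agent.Q7.SZ
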