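import Mathlib
import Pool.Agent.Q7.SZ.Frm

/-!
# Analytic rank two
-/

set_option autoImplicit false
set_option linter.unusedSectionVars false

namespace Pool.Agent.Q7.SZ

open Pool.Agent.H302R2 Pool.Agent.H302R3 Pool.Agent.H302R5 Pool.Agent.H541R3.ART
  Pool.Agent.W446.AS Pool.Agent.Q7.TZ

variable {G : Type} [Group G] [Finite G]

/-- the order of the L-function over the fixed field of `H` -/
lemma TwistData.order_one {s₀ : ℂ} (A : TwistData G s₀) (H : Subgroup G) : ∃ k : ℤ,
    meromorphicOrderAt (A.Lin H 1) s₀ = (k : WithTop ℤ) ∧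
    ∑ᶠ h : H, (theta A.ord : G → ℂ) h = (k : ℂ) * (Nat.card H : ℂ) := by
  obtain ⟨k, hk1, hk2⟩ := A.order_mult H 1
  refine ⟨k, hk1, ?_⟩
  rw [← hk2]
  apply finsum_congr
  intro h
  simp

/-- the frame of the zeros at the centre -/
theorem frame_two (A : TwistData G 1) (F : FunEq A)
    (hr : meromorphicOrderAt (A.Lin ⊥ 1) 1 = ((2 : ℤ) : WithTop ℤ)) :
    ∃ (N B : Subgroup G) (l : B →* ℂˣ), N.Normal ∧ N ≤ B ∧ B.index ≤ 2 ∧
      (∀ b : B, l b = 1 ↔ (b : G) ∈ N) ∧ (∀ w, w ∉ B → w * w ∈ N) ∧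
      (∀ x, x ∈ N ↔ (theta A.ord : G → ℂ) x = 2) ∧
      (∀ χ ∈ Irr G, A.ord χ ≠ 0 → ∀ x ∈ N, χ x = χ 1) ∧
      ((∀ b, l b * l b = 1) ∨
        ∀ b : B, theta A.ord b = ((l b : ℂˣ) : ℂ) + (((l b)⁻¹ : ℂˣ) : ℂ)) := by
  classical
  have hr' : meromorphicOrderAt (A.Lin ⊥ 1) 1 = ((2 : ℕ) : WithTop ℤ) := by rw [hr]; rfl
  have h1 : (theta A.ord : G → ℂ) 1 = 2 := by
    rw [A.theta_one hr']
    simp
  have hv := theta_virt (G := G) A.ord
  have hev : ∀ χ ∈ Irr G, Sy χ → Even (A.ord χ) := fun χ hχ h => F.ord_even hχ h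
  have hpr : ∀ χ ∈ Irr G, pr (theta A.ord) χ ≠ 0 → A.ord χ ≠ 0 := by
    intro χ hχ h h0
    rw [pr_theta A.ord hχ, h0] at h
    exact h (by simp)
  have hpr' : ∀ χ ∈ Irr G, A.ord χ ≠ 0 → pr (theta A.ord) χ ≠ 0 := by
    intro χ hχ h h0
    rw [pr_theta A.ord hχ] at h0
    exact h (by exact_mod_cast h0)
  set N := KerS (theta A.ord : G → ℂ) with hN
  have hN1 : ∀ x ∈ N, (theta A.ord : G → ℂ) x = 2 := by
    intro x hx
    have h2 := theta_kerS hv 1 hx
    rw [one_mul] at h2
    rw [h2, h1]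
  have hN2 : ∀ χ ∈ Irr G, A.ord χ ≠ 0 → ∀ x ∈ N, χ x = χ 1 := by
    intro χ hχ h x hx
    exact mem_kerS.mp hx χ hχ (hpr' χ hχ h)
  rcases central_frame A.ord A.isSol h1 F.theta_real hev with
    ⟨μ, ν, hμ, hν, e1, e2⟩ | ⟨B, l, e1, e2, e3, e4, e5⟩
  · have hsq : ∀ κ : G →* ℂˣ, κ * κ = 1 → ∀ g, ((κ g : ℂˣ) : ℂ) = 1 ∨ ((κ g : ℂˣ) : ℂ) = -1 := by
      intro κ hκ g
      have h2 : κ g * κ g = 1 := DFunLike.congr_fun hκ g
      have h3 : ((κ g : ℂˣ) : ℂ) * ((κ g : ℂˣ) : ℂ) = 1 := by
        rw [← Units.val_mul, h2, Units.val_one]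
      exact mul_self_eq_one_iff.mp h3
    have key : ∀ g, (theta A.ord : G → ℂ) g = 2 → μ g = 1 ∧ ν g = 1 := by
      intro g hg
      rw [e1] at hg
      rcases hsq μ hμ g with h2 | h2 <;> rcases hsq ν hν g with h3 | h3
      · exact ⟨Units.ext h2, Units.ext h3⟩
      · rw [h2, h3] at hg; norm_num at hg
      · rw [h2, h3] at hg; norm_num at hg
      · rw [h2, h3] at hg; norm_num at hg
    have hN3 : ∀ x, x ∈ N ↔ (theta A.ord : G → ℂ) x = 2 := by
      intro x
      refine ⟨hN1 x, fun hx => ?_⟩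
      obtain ⟨h2, h3⟩ := key x hx
      rw [hN, mem_kerS]
      intro χ hχ hp
      rcases e2 χ hχ (hpr χ hχ hp) with h | h
      · rw [h]; simp [h2]
      · rw [h]; simp [h3]
    refine ⟨N, μ.ker, ν.comp μ.ker.subtype, inferInstance, ?_, index_ker_le μ hμ, ?_, ?_, hN3, hN2,
      Or.inl ?_⟩
    · intro x hx
      exact (key x (hN1 x hx)).1
    · intro b
      have hb : μ b = 1 := b.2
      rw [hN3, e1, hb]
      constructor
      · intro h
        have h' : ν b = 1 := h
        rw [h']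
        norm_num
      · intro h
        change ν b = 1
        apply Units.ext
        rw [Units.val_one] at h ⊢
        linear_combination h
    · intro w _
      rw [hN3, e1]
      have h2 : μ (w * w) = 1 := by
        rw [map_mul]; exact DFunLike.congr_fun hμ w
      have h3 : ν (w * w) = 1 := by
        rw [map_mul]; exact DFunLike.congr_fun hν w
      rw [h2, h3]
      norm_num
    · intro b
      exact DFunLike.congr_fun hν (b : G)
  · have hl : ∀ b : B, (theta A.ord : G → ℂ) b = 2 → l b = 1 := by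
      intro b hb
      rw [e3] at hb
      set u := l b with hu
      have h6 : ((u : ℂˣ) : ℂ) * (((u⁻¹ : ℂˣ)) : ℂ) = 1 := by
        rw [← Units.val_mul, mul_inv_cancel, Units.val_one]
      apply Units.ext
      rw [Units.val_one]
      have h7 : (((u : ℂˣ) : ℂ) - 1) * (((u : ℂˣ) : ℂ) - 1) = 0 := by
        linear_combination ((u : ℂˣ) : ℂ) * hb - h6
      have h8 := mul_self_eq_zero.mp h7
      linear_combination h8
    have hB : ∀ x, (theta A.ord : G → ℂ) x = 2 → x ∈ B := by
      intro x hx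
      by_contra hcon
      rw [(e4 x hcon).1] at hx
      norm_num at hx
    have hN3 : ∀ x, x ∈ N ↔ (theta A.ord : G → ℂ) x = 2 := by
      intro x
      refine ⟨hN1 x, fun hx => ?_⟩
      rw [hN, mem_kerS]
      intro χ hχ hp
      exact e5 χ hχ (hpr χ hχ hp) ⟨x, hB x hx⟩ (hl ⟨x, hB x hx⟩ hx)
    refine ⟨N, B, l, inferInstance, fun x hx => hB x (hN1 x hx), e1, fun b => ?_, fun w hw => ?_,
      hN3, hN2, Or.inr e3⟩
    · rw [hN3]
      refine ⟨fun h => ?_, hl b⟩
      rw [e3, h]
      norm_num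
    · obtain ⟨-, h, h2⟩ := e4 w hw
      rw [hN3]
      have h3 := e3 ⟨w * w, h⟩
      rw [h2] at h3
      rw [show (w * w : G) = ((⟨w * w, h⟩ : B) : G) from rfl, h3]
      norm_num

/-- orders over the fields above and outside -/
lemma order_le_one (A : TwistData G 1)
    (hr : meromorphicOrderAt (A.Lin ⊥ 1) 1 = ((2 : ℤ) : WithTop ℤ)) {N : Subgroup G}
    (hN : ∀ x, x ∈ N ↔ (theta A.ord : G → ℂ) x = 2) (H : Subgroup G) (hH : ¬ H ≤ N) :
    meromorphicOrderAt (A.Lin H 1) 1 = ((0 : ℤ) : WithTop ℤ) ∨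
      meromorphicOrderAt (A.Lin H 1) 1 = ((1 : ℤ) : WithTop ℤ) := by
  have hr' : meromorphicOrderAt (A.Lin ⊥ 1) 1 = ((2 : ℕ) : WithTop ℤ) := by rw [hr]; rfl
  have h1 : (theta A.ord : G → ℂ) 1 = 2 := by
    rw [A.theta_one hr']
    simp
  obtain ⟨k, hk1, hk2⟩ := A.order_one H
  have h2 := (A.toArtin le_rfl hr').hecke H 1
  have h3 : 0 ≤ meromorphicOrderAt (A.Lin H 1) 1 := h2
  rw [hk1] at h3
  have h4 : 0 ≤ k := by exact_mod_cast h3
  obtain ⟨h5, h6⟩ := sum_eq_two A.ord A.isSol h1 H hk2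
  have h7 : k ≠ 2 := by
    intro h
    apply hH
    intro x hx
    exact (hN x).mpr (h6 h x hx)
  have h8 : k = 0 ∨ k = 1 := by omega
  rcases h8 with h | h
  · left; rw [hk1, h]
  · right; rw [hk1, h]

/-- the rank conjecture implies that the extension is crystallographic -/
theorem card_range (A : TwistData G 1) {N B : Subgroup G} {l : B →* ℂˣ}
    (hr : meromorphicOrderAt (A.Lin ⊥ 1) 1 = ((2 : ℤ) : WithTop ℤ))
    (hN2 : ∀ χ ∈ Irr G, A.ord χ ≠ 0 → ∀ x ∈ N, χ x = χ 1)
    (hl : ∀ b : B, l b = 1 ↔ (b : G) ∈ N)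
    (hc : (∀ b, l b * l b = 1) ∨
        ∀ b : B, theta A.ord b = ((l b : ℂˣ) : ℂ) + (((l b)⁻¹ : ℂˣ) : ℂ))
    {V : Type} [AddCommGroup V] [Module ℚ V] [FiniteDimensional ℚ V] (ρ : Representation ℚ G V)
    (h : ∀ H, RankHolds A ρ H) : Nat.totient (Nat.card l.range) ≤ 2 := by
  classical
  have : Finite l.range := Finite.of_surjective _ l.rangeRestrict_surjective
  have hcyc : IsCyclic l.range := inferInstance
  rcases hc with hc | hc
  · obtain ⟨⟨u, hu⟩, hgen⟩ := hcyc.exists_generator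
    obtain ⟨b, hb⟩ := hu
    have h2 : orderOf (⟨u, ⟨b, hb⟩⟩ : l.range) ∣ 2 := by
      apply orderOf_dvd_of_pow_eq_one
      apply Subtype.ext
      change u ^ 2 = 1
      rw [sq, ← hb]
      exact hc b
    rw [← orderOf_eq_card_of_forall_mem_zpowers hgen]
    have h3 := Nat.le_of_dvd two_pos h2
    exact (Nat.totient_le _).trans h3
  · -- the representation has dimension two
    have hbot := h ⊥
    unfold RankHolds at hbot
    rw [hr] at hbot
    have hdim : rk ρ ⊥ = 2 := by
      have := WithTop.coe_injective hbot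
      exact_mod_cast this.symm
    have hfin : Module.finrank ℚ V = 2 := by rw [← rk_bot ρ, hdim]
    have : Nontrivial V := Module.nontrivial_of_finrank_pos (R := ℚ) (by omega)
    have hNt : ∀ x ∈ N, ρ x = 1 := by
      apply triv_of_rk
      have h3 := A.order_sup hN2 ⊥
      rw [bot_sup_eq] at h3
      have h4 := h N
      unfold RankHolds at h4
      rw [h3, hr] at h4
      rw [hdim]
      have := WithTop.coe_injective h4
      exact_mod_cast this.symm
    obtain ⟨⟨u, hu⟩, hgen⟩ := hcyc.exists_generator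
    obtain ⟨b, hb⟩ := hu
    rw [← orderOf_eq_card_of_forall_mem_zpowers hgen]
    set m := orderOf (⟨u, ⟨b, hb⟩⟩ : l.range) with hm
    have hmpos : 0 < m := orderOf_pos _
    have hpow : ∀ d : ℕ, l (b ^ d) = 1 ↔ m ∣ d := by
      intro d
      rw [hm, orderOf_dvd_iff_pow_eq_one, map_pow, hb]
      constructor
      · intro h; exact Subtype.ext h
      · intro h; exact congrArg Subtype.val h
    rw [← hfin]
    refine totient_le (ρ (b : G)) hmpos ?_ ?_
    · rw [← map_pow, hNt]
      have h2 := (hl (b ^ m)).mp ((hpow m).mpr dvd_rfl)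
      simpa using h2
    · intro d hd hdm v hv
      have hne : l (b ^ d) ≠ 1 := by
        rw [Ne, hpow]
        intro h2
        have h3 : 0 < d := Nat.pos_of_dvd_of_pos hd hmpos
        exact absurd (Nat.le_of_dvd h3 h2) (by omega)
      set c : B := b ^ d with hcdef
      set H : Subgroup G := Subgroup.zpowers (c : G) with hH
      have hHB : H ≤ B := by
        rw [hH, Subgroup.zpowers_le]
        exact c.2
      have hz := sum_zero (H := H) (theta A.ord) (l.comp (Subgroup.inclusion hHB))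
        ⟨⟨(c : G), Subgroup.mem_zpowers _⟩, hne⟩ (fun h => hc (Subgroup.inclusion hHB h))
      obtain ⟨k, hk1, hk2⟩ := A.order_one H
      rw [hz] at hk2
      have hk0 : k = 0 := by
        have h2 : (Nat.card H : ℂ) ≠ 0 := by exact_mod_cast Nat.card_pos.ne'
        have h3 : (k : ℂ) = 0 := by
          rcases mul_eq_zero.mp hk2.symm with h | h
          · exact h
          · exact absurd h h2
        exact_mod_cast h3
      have h5 := h H
      unfold RankHolds at h5
      rw [hk1, hk0] at h5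
      have h6 : rk ρ H = 0 := by
        have := WithTop.coe_injective h5
        exact_mod_cast this.symm
      unfold rk at h6
      rw [Submodule.finrank_eq_zero] at h6
      have h7 : v ∈ Representation.invariants (ρ.comp H.subtype) := by
        rw [mem_inv]
        intro x hx
        obtain ⟨z, rfl⟩ := Subgroup.mem_zpowers_iff.mp hx
        have hv' : ρ (c : G) v = v := by
          rw [hcdef, Subgroup.coe_pow, map_pow]
          exact hv
        have hnat : ∀ j : ℕ, ρ ((c : G) ^ j) v = v := by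
          intro j
          induction j with
          | zero => rw [pow_zero, map_one]; rfl
          | succ j ih => rw [pow_succ, map_mul, Module.End.mul_apply, hv', ih]
        have hinv : ∀ g : G, ρ g v = v → ρ g⁻¹ v = v := by
          intro g hg
          nth_rw 1 [← hg]
          rw [← Module.End.mul_apply, ← map_mul, inv_mul_cancel, map_one]
          rfl
        rcases Int.eq_nat_or_neg z with ⟨j, rfl | rfl⟩
        · rw [zpow_natCast]; exact hnat j
        · rw [zpow_neg, zpow_natCast]; exact hinv _ (hnat j)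
      rw [h6, Submodule.mem_bot] at h7
      exact h7

end Pool.Agent.Q7.SZ
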